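import Pool.Agent.W461.SG.NIL

/-!
# The inversion cocycle of a right-angled Coxeter group
-/

set_option autoImplicit false
set_option linter.unusedSectionVars false

namespace Pool.Agent.X250.ZS

open Pool.Agent.W907.SG Pool.Agent.W461.SGN

variable {V : Type} (G : SimpleGraph V)

/-- the generator -/
noncomputable abbrev sm (v : V) : W G := (cox G).simple v

theorem sm_sm (v : V) : sm G v * sm G v = 1 := simple_mul_self G v

theorem sm_inv (v : V) : (sm G v)⁻¹ = sm G v := inv_eq_of_mul_eq_one_left (sm_sm G v)

theorem sm_inj {u v : V} (h : sm G u = sm G v) : u = v := by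
  classical
  by_contra hne
  have h1 := congrFun (congrArg (th G) h) u
  rw [th_simple, th_simple] at h1
  simp [hne] at h1

open Classical in
/-- the basic permutation -/
noncomputable def sw (v : V) : Equiv.Perm (W G × ZMod 2) where
  toFun p := (sm G v * p.1 * sm G v, p.2 + if p.1 = sm G v then 1 else 0)
  invFun p := (sm G v * p.1 * sm G v, p.2 + if p.1 = sm G v then 1 else 0)
  left_inv p := by
    obtain ⟨r, e⟩ := p
    have h1 : sm G v * (sm G v * r * sm G v) * sm G v = r := by
      rw [mul_assoc (sm G v) r, ← mul_assoc (sm G v) (sm G v), sm_sm, one_mul, mul_assoc, sm_sm, mul_one]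
    have h2 : sm G v * r * sm G v = sm G v ↔ r = sm G v := by
      constructor
      · intro h
        rw [← h1, h, sm_sm, one_mul]
      · rintro rfl
        rw [sm_sm, one_mul]
    refine Prod.ext h1 ?_
    show e + (if r = sm G v then 1 else 0) + (if sm G v * r * sm G v = sm G v then 1 else 0) = e
    simp only [h2]
    split_ifs
    · have : (1 : ZMod 2) + 1 = 0 := by decide
      rw [add_assoc, this, add_zero]
    · simp
  right_inv p := by
    obtain ⟨r, e⟩ := p
    have h1 : sm G v * (sm G v * r * sm G v) * sm G v = r := by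
      rw [mul_assoc (sm G v) r, ← mul_assoc (sm G v) (sm G v), sm_sm, one_mul, mul_assoc, sm_sm, mul_one]
    have h2 : sm G v * r * sm G v = sm G v ↔ r = sm G v := by
      constructor
      · intro h
        rw [← h1, h, sm_sm, one_mul]
      · rintro rfl
        rw [sm_sm, one_mul]
    refine Prod.ext h1 ?_
    show e + (if r = sm G v then 1 else 0) + (if sm G v * r * sm G v = sm G v then 1 else 0) = e
    simp only [h2]
    split_ifs
    · have : (1 : ZMod 2) + 1 = 0 := by decide
      rw [add_assoc, this, add_zero]
    · simp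

open Classical in
theorem sw_apply (v : V) (r : W G) (e : ZMod 2) :
    sw G v (r, e) = (sm G v * r * sm G v, e + if r = sm G v then 1 else 0) := rfl

theorem sw_sq (v : V) : sw G v * sw G v = 1 := Equiv.ext fun p => (sw G v).left_inv p

theorem sw_comm (u v : V) (h : G.Adj u v) : sw G u * sw G v = sw G v * sw G u := by
  classical
  have hc : sm G u * sm G v = sm G v * sm G u := simple_comm G u v h
  refine Equiv.ext fun p => ?_
  obtain ⟨r, e⟩ := p
  show sw G u (sw G v (r, e)) = sw G v (sw G u (r, e))
  rw [sw_apply, sw_apply, sw_apply, sw_apply]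
  have key : ∀ u v : V, sm G u * sm G v = sm G v * sm G u → (sm G v * r * sm G v = sm G u ↔ r = sm G u) := by
    intro u v hc
    constructor
    · intro h1
      have h2 : r = sm G v * (sm G v * r * sm G v) * sm G v := by
        rw [mul_assoc (sm G v) r, ← mul_assoc (sm G v) (sm G v), sm_sm, one_mul, mul_assoc, sm_sm, mul_one]
      rw [h2, h1, ← hc, mul_assoc, sm_sm, mul_one]
    · rintro rfl
      rw [← hc, mul_assoc, sm_sm, mul_one]
  refine Prod.ext ?_ ?_
  · show sm G u * (sm G v * r * sm G v) * sm G u = sm G v * (sm G u * r * sm G u) * sm G v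
    calc sm G u * (sm G v * r * sm G v) * sm G u = (sm G u * sm G v) * r * (sm G v * sm G u) := by
          simp only [mul_assoc]
      _ = (sm G v * sm G u) * r * (sm G u * sm G v) := by rw [hc]
      _ = _ := by simp only [mul_assoc]
  · show e + (if r = sm G v then 1 else 0) + (if sm G v * r * sm G v = sm G u then 1 else 0) =
      e + (if r = sm G u then 1 else 0) + (if sm G u * r * sm G u = sm G v then 1 else 0)
    simp only [key u v hc, key v u hc.symm]
    ring

/-- the action on pairs -/
noncomputable def sact : W G →* Equiv.Perm (W G × ZMod 2) :=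
  (cox G).toCoxeterSystem.lift ⟨sw G, liftable G _ (sw_sq G) (sw_comm G)⟩

theorem sact_sm (v : V) : sact G (sm G v) = sw G v := CoxeterSystem.lift_apply_simple _ _ v

/-- the cocycle: the parity of the number of occurrences of `r` among the inversions of `w` -/
noncomputable def nn (w r : W G) : ZMod 2 := (sact G w (r, 0)).2

/-- induction -/
theorem w_ind {p : W G → Prop} (w : W G) (h1 : p 1) (h2 : ∀ w v, p w → p (sm G v * w)) : p w :=
  (cox G).toCoxeterSystem.simple_induction_left (p := p) w h1 (fun w v h => h2 w v h)

theorem sact_apply (w r : W G) (e : ZMod 2) : sact G w (r, e) = (w * r * w⁻¹, e + nn G w r) := by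
  classical
  have key : ∀ w : W G, ∀ r e, sact G w (r, e) = (w * r * w⁻¹, e + nn G w r) := by
    intro w
    refine w_ind G (p := fun w => ∀ r e, sact G w (r, e) = (w * r * w⁻¹, e + nn G w r)) w ?_ ?_
    · intro r e
      unfold nn
      rw [map_one]
      show (r, e) = (1 * r * 1⁻¹, e + 0)
      rw [one_mul, inv_one, mul_one, add_zero]
    · intro w v ih r e
      have h1 : ∀ e, sact G (sm G v * w) (r, e) = (sm G v * (w * r * w⁻¹) * sm G v,
          e + nn G w r + if w * r * w⁻¹ = sm G v then 1 else 0) := by
        intro e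
        rw [map_mul, Equiv.Perm.mul_apply, ih, sact_sm, sw_apply]
      unfold nn
      rw [h1, h1]
      refine Prod.ext ?_ ?_
      · show sm G v * (w * r * w⁻¹) * sm G v = sm G v * w * r * (sm G v * w)⁻¹
        rw [mul_inv_rev, sm_inv]
        simp only [mul_assoc]
      · show e + nn G w r + (if w * r * w⁻¹ = sm G v then 1 else 0) =
          e + (0 + nn G w r + if w * r * w⁻¹ = sm G v then 1 else 0)
        ring
  exact key w r e

theorem nn_one (r : W G) : nn G 1 r = 0 := by
  unfold nn
  rw [map_one]
  rfl

theorem nn_mul (u w r : W G) : nn G (u * w) r = nn G w r + nn G u (w * r * w⁻¹) := by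
  have h1 : nn G (u * w) r = (sact G u (sact G w (r, 0))).2 := by
    unfold nn
    rw [map_mul]
    rfl
  rw [h1, sact_apply, sact_apply, zero_add]

open Classical in
theorem nn_sm (v : V) (r : W G) : nn G (sm G v) r = if r = sm G v then 1 else 0 := by
  unfold nn
  rw [sact_sm, sw_apply, zero_add]

open Classical in
theorem nn_left (w r : W G) (v : V) : nn G (sm G v * w) r = nn G w r + if sm G v * w = w * r then 1 else 0 := by
  rw [nn_mul, nn_sm]
  congr 1
  have : w * r * w⁻¹ = sm G v ↔ sm G v * w = w * r := by
    rw [mul_inv_eq_iff_eq_mul]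
    exact eq_comm
  simp only [this]

theorem nn_right_self (w : W G) (s : V) : nn G (w * sm G s) (sm G s) = nn G w (sm G s) + 1 := by
  classical
  rw [nn_mul, nn_sm, if_pos rfl, sm_inv, sm_sm, one_mul, add_comm]

theorem nn_right_adj (w : W G) (s t : V) (h : G.Adj s t) : nn G (w * sm G t) (sm G s) = nn G w (sm G s) := by
  classical
  have hc : sm G s * sm G t = sm G t * sm G s := simple_comm G s t h
  have h1 : sm G s ≠ sm G t := fun h1 => h.ne (sm_inj G h1)
  rw [nn_mul, nn_sm, if_neg h1, zero_add, sm_inv, ← hc, mul_assoc, sm_sm, mul_one]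

theorem nn_inv (w : W G) (s : V) (h : sm G s * w = w * sm G s) : nn G w⁻¹ (sm G s) = nn G w (sm G s) := by
  have h1 := nn_mul G w⁻¹ w (sm G s)
  have h2 : w * sm G s * w⁻¹ = sm G s := by rw [← h, mul_assoc, mul_inv_cancel, mul_one]
  rw [inv_mul_cancel, nn_one, h2] at h1
  have h3 : ∀ a b : ZMod 2, 0 = a + b → b = a := by decide
  exact h3 _ _ h1

theorem conj_eq {w : W G} {s t : V} (h : sm G t * w = w * sm G s) : t = s := by
  classical
  have h1 := congrArg (th G) h
  rw [map_mul, map_mul, mul_comm, mul_left_cancel_iff] at h1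
  by_contra hne
  have h2 := congrFun h1 t
  rw [th_simple, th_simple] at h2
  simp [hne] at h2

end Pool.Agent.X250.ZS
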