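import Pool.Agent.X250.ZS.Ind2
import Pool.Agent.H919R4.ZS.Act

/-!
# Coefficients in `ℓ²`
-/

set_option autoImplicit false
set_option linter.unusedSectionVars false

open scoped Matrix ENNReal InnerProductSpace

namespace Pool.Agent.X250.ZS

open Pool.Agent.W907.SG Pool.Agent.W461.SGN
open Pool.Agent.H919R4.ZS (FinRes augm L2 act L toRed RedC valR act_mul act_add act_one act_zero L_single lregL
  lregL_apply coe_toRed exact_of_subsingleton exists_rows d_mul_d)

/-! ### contractions -/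

section contr

variable {H : Type} [Group H] (X : FinRes H)

theorem contr_all {S : Type} [Ring S] (φ : MonoidAlgebra ℤ H →+* S) (h : ∀ i, Subsingleton (X.homology φ i)) :
    ∃ s : ∀ i, Matrix (Fin (X.n i)) (Fin (X.n (i + 1))) S, s 0 * (X.d 0).map φ = 1 ∧
      ∀ i, (X.d i).map φ * s i + s (i + 1) * (X.d (i + 1)).map φ = 1 := by
  have dd : ∀ i, (X.d (i + 1)).map φ * (X.d i).map φ = 0 := by
    intro i
    rw [← Matrix.map_mul, d_mul_d]
    ext1 a b
    exact map_zero φ
  have step : ∀ i (s : {s : Matrix (Fin (X.n i)) (Fin (X.n (i + 1))) S //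
      (1 - (X.d i).map φ * s) * (X.d i).map φ = 0}),
      ∃ s' : {s : Matrix (Fin (X.n (i + 1))) (Fin (X.n (i + 2))) S //
        (1 - (X.d (i + 1)).map φ * s) * (X.d (i + 1)).map φ = 0},
        s'.1 * (X.d (i + 1)).map φ = 1 - (X.d i).map φ * s.1 := by
    intro i s
    obtain ⟨s', hs'⟩ := exists_rows ((X.d (i + 1)).map φ) (1 - (X.d i).map φ * s.1)
      (fun k => exact_of_subsingleton X φ (i + 1) (h (i + 1)) _ (by
        change ((1 - (X.d i).map φ * s.1 : Matrix (Fin (X.n (i + 1))) (Fin (X.n (i + 1))) S) k) ᵥ* (X.d i).map φ = 0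
        rw [← Matrix.mul_apply_eq_vecMul, s.2]
        rfl))
    refine ⟨⟨s', ?_⟩, hs'⟩
    rw [Matrix.sub_mul, Matrix.one_mul, Matrix.mul_assoc, hs', Matrix.mul_sub, Matrix.mul_one, ← Matrix.mul_assoc, dd,
      Matrix.zero_mul, sub_zero, sub_self]
  choose T hT using step
  obtain ⟨s0, hs0⟩ := exists_rows ((X.d 0).map φ) (1 : Matrix (Fin (X.n 0)) (Fin (X.n 0)) S)
    (fun i => exact_of_subsingleton X φ 0 (h 0) _ trivial)
  obtain ⟨F, hF⟩ : ∃ F : ∀ i, {s : Matrix (Fin (X.n i)) (Fin (X.n (i + 1))) S //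
      (1 - (X.d i).map φ * s) * (X.d i).map φ = 0},
      F = fun i => Nat.rec ⟨s0, by rw [Matrix.sub_mul, Matrix.one_mul, Matrix.mul_assoc, hs0, Matrix.mul_one, sub_self]⟩
        (fun i f => T i f) i := ⟨_, rfl⟩
  have hF0 : (F 0).1 = s0 := by
    rw [hF]
    rfl
  have hFs : ∀ i, F (i + 1) = T i (F i) := by
    intro i
    rw [hF]
  refine ⟨fun i => (F i).1, ?_, fun i => ?_⟩
  · show (F 0).1 * (X.d 0).map φ = 1
    rw [hF0, hs0]
  · show (X.d i).map φ * (F i).1 + (F (i + 1)).1 * (X.d (i + 1)).map φ = 1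
    rw [hFs, hT]
    abel

/-- the cochains with values in `ℓ²` -/
theorem van_all (h : ∀ i, Subsingleton (X.homology (toRed H) i)) :
    (∀ v : Fin (X.n 0) → L2 H, act ((X.d 0).map L) v = 0 → v = 0) ∧
    ∀ (i : ℕ) (v : Fin (X.n (i + 1)) → L2 H), act ((X.d (i + 1)).map L) v = 0 → ∃ w, act ((X.d i).map L) w = v := by
  obtain ⟨s, e0, e1⟩ := contr_all X (toRed H) h
  have key : ∀ i, ((X.d i).map (toRed H)).map (valR (G := H)) = (X.d i).map (L (G := H)) := by
    intro i
    refine funext fun j => funext fun k => ?_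
    exact coe_toRed (X.d i j k)
  have f0 : (s 0).map (valR (G := H)) * (X.d 0).map L = 1 := by
    have := Pool.Agent.H919R4.ZS.map_ident0 (valR (G := H)) _ _ e0
    rwa [key 0] at this
  have f1 : ∀ i, (X.d i).map L * (s i).map (valR (G := H)) + (s (i + 1)).map (valR (G := H)) * (X.d (i + 1)).map L
      = 1 := by
    intro i
    have := Pool.Agent.H919R4.ZS.map_ident (valR (G := H)) _ _ _ _ (e1 i)
    rwa [key i, key (i + 1)] at this
  refine ⟨?_, fun i v hv => ?_⟩
  · intro v hv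
    rw [← act_one v, ← f0, act_mul, hv, act_zero]
  · refine ⟨act ((s i).map (valR (G := H))) v, ?_⟩
    conv_rhs => rw [← act_one v, ← f1 i, act_add, act_mul, act_mul, hv, act_zero, add_zero]

end contr

/-! ### the module -/

section md

variable {V : Type} (G : SimpleGraph V)

/-- right translations -/
noncomputable def rho : W G →* Op G where
  toFun g := tr (Equiv.mulRight g)
  map_one' := by
    refine ContinuousLinearMap.ext fun f => Subtype.ext (funext fun w => ?_)
    show (f : W G → ℂ) (w * 1) = (f : W G → ℂ) w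
    rw [mul_one]
  map_mul' g h := by
    refine ContinuousLinearMap.ext fun f => Subtype.ext (funext fun w => ?_)
    show (f : W G → ℂ) (w * (g * h)) = (f : W G → ℂ) (w * g * h)
    rw [mul_assoc]

/-- the action of the group ring -/
noncomputable def Th : RW G →+* Op G :=
  MonoidAlgebra.liftNCRingHom ((algebraMap ℂ (Op G)).comp (Rat.castHom ℂ)) (rho G) fun _ _ => Algebra.commutes _ _

theorem Th_single (w : W G) (r : ℚ) : Th G (MonoidAlgebra.single w r) = (r : ℂ) • rho G w := by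
  show MonoidAlgebra.liftNC _ _ _ = _
  rw [MonoidAlgebra.liftNC_single, Algebra.smul_def]
  rfl

/-- the Hilbert space as a module -/
def HV : Type := Hl (W G)

noncomputable instance : AddCommGroup (HV G) := inferInstanceAs (AddCommGroup (Hl (W G)))

noncomputable instance : Module (RW G) (HV G) := Module.compHom (Hl (W G)) (Th G)

theorem HV_smul (a : RW G) (v : HV G) : a • v = (Th G a (v : Hl (W G)) : Hl (W G)) := rfl

variable {G}

theorem Th_ps (s : V) : Th G (ps G s) = pr (fun _ => 1 / 2) s := by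
  classical
  have h1 : mm (1 / 2) = -(1 / 2) := by
    unfold mm
    congr 1
    rw [show (1 / 2 : ℝ) * (1 - 1 / 2) = (1 / 2) ^ 2 by norm_num]
    exact Real.sqrt_sq (by norm_num)
  have h2 : Th G (ps G s) = ((1 / 2 : ℚ) : ℂ) • (1 - rho G (sm G s)) := by
    unfold ps qs
    have e : ((1 / 2 : ℚ) • (1 - gs G (sm G s)) : RW G) = MonoidAlgebra.single 1 (1 / 2) * (1 - gs G (sm G s)) := by
      rw [mul_sub, mul_one, MonoidAlgebra.single_mul_single, one_mul, mul_one, smul_sub, MonoidAlgebra.smul_single',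
        mul_one]
      congr 1
      rw [MonoidAlgebra.one_def, MonoidAlgebra.smul_single', mul_one]
    rw [e, map_mul, Th_single, map_one, map_sub, map_one, Th_single, Rat.cast_one, one_smul, smul_mul_assoc, one_mul]
  rw [h2]
  refine ContinuousLinearMap.ext fun f => Subtype.ext (funext fun w => ?_)
  unfold pr
  rw [pj_apply]
  show ((1 / 2 : ℚ) : ℂ) * ((f : W G → ℂ) w - (f : W G → ℂ) (w * sm G s)) = _
  have h3 : kp (Ra G s) (1 / 2) w = 1 / 2 := by
    unfold kp
    split_ifs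
    · push_cast
      ring
    · push_cast
      ring
  rw [h3, h1, rt_apply]
  push_cast
  ring

theorem Th_pR [Fintype V] [LinearOrder V] (T : Finset V) : Th G (pR G T) = pT (fun _ => 1 / 2) T := by
  induction T using Finset.induction_on with
  | empty =>
    rw [pT_empty]
    show Th G (cp (ps_comm G) ∅) = 1
    rw [cp_empty, map_one]
  | insert s T hs ih =>
    by_cases h : G.IsClique ((insert s T : Finset V) : Set V)
    · rw [pT_insert _ hs h, ← ih, ← Th_ps]
      show Th G (cp (ps_comm G) (insert s T)) = _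
      rw [cp_insert (ps_comm G) hs h, map_mul]
    · rw [pT_neg _ h]
      show Th G (cp (ps_comm G) (insert s T)) = 0
      rw [cp_neg (ps_comm G) h, map_zero]

/-! ### restriction to cosets -/

variable [Fintype V] [LinearOrder V] (Γ : Subgroup (W G))

theorem mem_E (w : W G) (f : Hl (W G)) : Memℓp (fun γ : Γ => (f : W G → ℂ) (w * (γ : W G)⁻¹)) 2 := by
  have hf := lp.memℓp f
  rw [memℓp_gen_iff two_pos'] at hf ⊢
  refine hf.comp_injective (i := fun γ : Γ => w * (γ : W G)⁻¹) ?_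
  intro a b h
  exact Subtype.ext (inv_injective (mul_left_cancel h))

/-- the restriction to a coset -/
noncomputable def EC (w : W G) (f : Hl (W G)) : L2 Γ := ⟨fun γ : Γ => (f : W G → ℂ) (w * (γ : W G)⁻¹), mem_E Γ w f⟩

theorem EC_apply (w : W G) (f : Hl (W G)) (γ : Γ) : (EC Γ w f) γ = (f : W G → ℂ) (w * (γ : W G)⁻¹) := rfl

theorem EC_add (w : W G) (f g : Hl (W G)) : EC Γ w (f + g) = EC Γ w f + EC Γ w g := rfl

theorem EC_zero (w : W G) : EC Γ w 0 = 0 := rfl

theorem EC_sum {ι : Type} (s : Finset ι) (w : W G) (f : ι → Hl (W G)) :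
    EC Γ w (∑ i ∈ s, f i) = ∑ i ∈ s, EC Γ w (f i) := by
  classical
  induction s using Finset.induction_on with
  | empty => rw [Finset.sum_empty, Finset.sum_empty, EC_zero]
  | insert i s hi ih => rw [Finset.sum_insert hi, Finset.sum_insert hi, EC_add, ih]

theorem EC_Th (w : W G) (a : MonoidAlgebra ℤ Γ) (f : Hl (W G)) :
    EC Γ w (Th G (ph Γ a) f) = L a (EC Γ w f) := by
  induction a using MonoidAlgebra.induction_linear with
  | zero =>
    rw [map_zero, map_zero, map_zero]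
    rfl
  | add x y hx hy =>
    rw [map_add, map_add, map_add]
    show EC Γ w (Th G (ph Γ x) f + Th G (ph Γ y) f) = L x (EC Γ w f) + L y (EC Γ w f)
    rw [EC_add, hx, hy]
  | single γ m =>
    rw [ph_single, Th_single, L_single]
    refine Subtype.ext (funext fun γ' => ?_)
    show ((m : ℚ) : ℂ) * (f : W G → ℂ) (w * (γ' : W G)⁻¹ * γ) = (m • lregL γ (EC Γ w f)) γ'
    have h1 : (m • lregL γ (EC Γ w f)) γ' = (m : ℂ) * (lregL γ (EC Γ w f)) γ' := by
      rw [← Int.cast_smul_eq_zsmul ℂ]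
      rfl
    rw [h1, lregL_apply, EC_apply]
    have h2 : w * (γ' : W G)⁻¹ * γ = w * ((γ⁻¹ * γ' : Γ) : W G)⁻¹ := by
      rw [Subgroup.coe_mul, Subgroup.coe_inv, mul_inv_rev, inv_inv, mul_assoc]
    rw [h2]
    push_cast
    rfl

open Classical in
theorem mem_IC (g : W G) (f : L2 Γ) :
    Memℓp (fun w : W G => if h : w⁻¹ * g ∈ Γ then (f : Γ → ℂ) ⟨w⁻¹ * g, h⟩ else 0) 2 := by
  have hf := lp.memℓp f
  rw [memℓp_gen_iff two_pos'] at hf ⊢
  have hinj : Function.Injective (fun γ : Γ => g * (γ : W G)⁻¹) := by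
    intro a b h
    exact Subtype.ext (inv_injective (mul_left_cancel h))
  refine (hinj.summable_iff ?_).1 ?_
  · intro w hw
    have h1 : ¬ w⁻¹ * g ∈ Γ := by
      intro h1
      apply hw
      refine ⟨⟨w⁻¹ * g, h1⟩, ?_⟩
      show g * (w⁻¹ * g)⁻¹ = w
      rw [mul_inv_rev, inv_inv, mul_inv_cancel_left]
    rw [dif_neg h1, norm_zero, Real.zero_rpow (by norm_num)]
  · refine hf.congr fun γ => ?_
    have h1 : (g * (γ : W G)⁻¹)⁻¹ * g = γ := by
      rw [mul_inv_rev, inv_inv, mul_assoc, inv_mul_cancel, mul_one]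
    have h2 : (g * (γ : W G)⁻¹)⁻¹ * g ∈ Γ := by rw [h1]; exact γ.2
    have h3 : (⟨(g * (γ : W G)⁻¹)⁻¹ * g, h2⟩ : Γ) = γ := Subtype.ext h1
    show _ = ‖(if h : (g * (γ : W G)⁻¹)⁻¹ * g ∈ Γ then
      (f : Γ → ℂ) ⟨(g * (γ : W G)⁻¹)⁻¹ * g, h⟩ else 0 : ℂ)‖ ^ (2 : ℝ≥0∞).toReal
    rw [dif_pos h2, h3]

open Classical in
/-- extension by zero -/
noncomputable def IC (g : W G) (f : L2 Γ) : Hl (W G) := ⟨_, mem_IC Γ g f⟩

open Classical in
theorem IC_apply (g : W G) (f : L2 Γ) (w : W G) :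
    (IC Γ g f : W G → ℂ) w = if h : w⁻¹ * g ∈ Γ then f ⟨w⁻¹ * g, h⟩ else 0 := rfl

/-- prescribed restrictions to the cosets -/
theorem exists_EC [Fintype (W G ⧸ Γ)] (u : W G ⧸ Γ → L2 Γ) :
    ∃ f : Hl (W G), ∀ c : W G ⧸ Γ, EC Γ (Quotient.out c) f = u c := by
  classical
  refine ⟨∑ c : W G ⧸ Γ, IC Γ (Quotient.out c) (u c), fun c => ?_⟩
  rw [EC_sum, Finset.sum_eq_single c]
  · refine Subtype.ext (funext fun γ => ?_)
    show (IC Γ (Quotient.out c) (u c) : W G → ℂ) (Quotient.out c * (γ : W G)⁻¹) = _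
    have h1 : (Quotient.out c * (γ : W G)⁻¹)⁻¹ * Quotient.out c = γ := by
      rw [mul_inv_rev, inv_inv, mul_assoc, inv_mul_cancel, mul_one]
    have h2 : (Quotient.out c * (γ : W G)⁻¹)⁻¹ * Quotient.out c ∈ Γ := by rw [h1]; exact γ.2
    have h3 : (⟨(Quotient.out c * (γ : W G)⁻¹)⁻¹ * Quotient.out c, h2⟩ : Γ) = γ := Subtype.ext h1
    rw [IC_apply, dif_pos h2, h3]
  · intro c' _ hc
    refine Subtype.ext (funext fun γ => ?_)
    show (IC Γ (Quotient.out c') (u c') : W G → ℂ) (Quotient.out c * (γ : W G)⁻¹) = 0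
    rw [IC_apply, dif_neg]
    intro h
    apply hc
    have h2 : (Quotient.out c)⁻¹ * Quotient.out c' ∈ Γ := by
      have := mul_mem (inv_mem γ.2) h
      rwa [mul_inv_rev, inv_inv, mul_assoc, inv_mul_cancel_left] at this
    rw [← QuotientGroup.eq] at h2
    have h3 : (QuotientGroup.mk (Quotient.out c) : W G ⧸ Γ) = c := Quotient.out_eq _
    have h4 : (QuotientGroup.mk (Quotient.out c') : W G ⧸ Γ) = c' := Quotient.out_eq _
    rw [h3, h4] at h2
    exact h2.symm
  · intro h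
    exact absurd (Finset.mem_univ _) h

theorem EC_ext {f g : Hl (W G)} (h : ∀ c : W G ⧸ Γ, EC Γ (Quotient.out c) f = EC Γ (Quotient.out c) g) : f = g := by
  refine Subtype.ext (funext fun w => ?_)
  have h1 : w⁻¹ * (Quotient.out (QuotientGroup.mk w : W G ⧸ Γ)) ∈ Γ := by
    rw [← QuotientGroup.eq]
    exact (Quotient.out_eq _).symm
  have h2 := congrArg (fun k : L2 Γ => k ⟨_, h1⟩) (h (QuotientGroup.mk w : W G ⧸ Γ))
  have h3 : (Quotient.out (QuotientGroup.mk w : W G ⧸ Γ)) * (w⁻¹ * (Quotient.out (QuotientGroup.mk w : W G ⧸ Γ)))⁻¹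
      = w := by
    rw [mul_inv_rev, inv_inv, mul_inv_cancel_left]
  have h4 : (f : W G → ℂ) ((Quotient.out (QuotientGroup.mk w : W G ⧸ Γ)) *
      (w⁻¹ * (Quotient.out (QuotientGroup.mk w : W G ⧸ Γ)))⁻¹) =
      (g : W G → ℂ) ((Quotient.out (QuotientGroup.mk w : W G ⧸ Γ)) *
      (w⁻¹ * (Quotient.out (QuotientGroup.mk w : W G ⧸ Γ)))⁻¹) := h2
  rwa [h3] at h4

end md

end Pool.Agent.X250.ZS
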