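import Pool.Agent.X250.ZS.Cocy

/-!
# Descents of elements of right-angled Coxeter groups
-/

set_option autoImplicit false
set_option linter.unusedSectionVars false

namespace Pool.Agent.X250.ZS

open Pool.Agent.W907.SG Pool.Agent.W461.SGN

variable {V : Type} {G : SimpleGraph V}

theorem len_left (w : W G) (s : V) : len G (sm G s * w) ≤ len G w + 1 := by
  have := (cox G).toCoxeterSystem.length_simple_mul w s
  unfold len
  have e : (cox G).toCoxeterSystem.simple s = sm G s := rfl
  rw [e] at this
  omega

theorem zmod2 (a : ZMod 2) : a = 0 ∨ a = 1 := by revert a; decide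

/-- an inversion shortens -/
theorem len_of_nn (n : ℕ) : ∀ w r : W G, len G w ≤ n → nn G w r = 1 → len G (w * r) < len G w := by
  classical
  induction n with
  | zero =>
    intro w r hw h
    have h1 : w = 1 := (cox G).toCoxeterSystem.length_eq_zero_iff.1 (Nat.le_zero.1 hw)
    rw [h1, nn_one] at h
    exact absurd h (by decide)
  | succ n ih =>
    intro w r hw h
    by_cases hw1 : w = 1
    · rw [hw1, nn_one] at h
      exact absurd h (by decide)
    · obtain ⟨s, hs⟩ := (cox G).toCoxeterSystem.exists_leftDescent_of_ne_one hw1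
      obtain ⟨w', hw'⟩ : ∃ w', w' = sm G s * w := ⟨_, rfl⟩
      have h1 : len G w' < len G w := by
        rw [hw']
        exact hs
      have h2 : w = sm G s * w' := by rw [hw', ← mul_assoc, sm_sm, one_mul]
      rw [h2, nn_left] at h
      by_cases h3 : sm G s * w' = w' * r
      · have h4 : w * r = w' := by rw [h2, mul_assoc, ← h3, ← mul_assoc, sm_sm, one_mul]
        rw [h4]
        exact h1
      · rw [if_neg h3, add_zero] at h
        have h4 := ih w' r (by omega) h
        have h5 := len_left (w' * r) s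
        rw [← mul_assoc, ← h2] at h5
        have h6 := len_left w' s
        rw [← h2] at h6
        have h7 := len_left w s
        rw [← hw'] at h7
        omega

theorem len_lt {w r : W G} (h : nn G w r = 1) : len G (w * r) < len G w := len_of_nn _ w r le_rfl h

theorem nn_of_len {w : W G} {s : V} (h : len G (w * sm G s) < len G w) : nn G w (sm G s) = 1 := by
  rcases zmod2 (nn G w (sm G s)) with h1 | h1
  · exfalso
    have h2 : nn G (w * sm G s) (sm G s) = 1 := by rw [nn_right_self, h1, zero_add]
    have h3 := len_lt h2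
    rw [mul_assoc, sm_sm, mul_one] at h3
    omega
  · exact h1

/-- alternating words -/
noncomputable def alt (G : SimpleGraph V) (s t : V) : ℕ → W G
  | 0 => 1
  | k + 1 => sm G (if k % 2 = 0 then t else s) * alt G s t k

open Classical in
/-- the action of the infinite dihedral group on the integers -/
noncomputable def dih (s t v : V) : Equiv.Perm ℤ :=
  if v = s then ⟨fun z => -z, fun z => -z, fun z => by ring, fun z => by ring⟩
  else if v = t then ⟨fun z => 1 - z, fun z => 1 - z, fun z => by ring, fun z => by ring⟩ else 1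

theorem exists_dih {s t : V} (hst : s ≠ t) (ha : ¬ G.Adj s t) : ∃ ψ : W G →* Equiv.Perm ℤ,
    (∀ z, ψ (sm G s) z = -z) ∧ ∀ z, ψ (sm G t) z = 1 - z := by
  classical
  have h1 : ∀ v, dih s t v * dih s t v = 1 := by
    intro v
    refine Equiv.ext fun z => ?_
    unfold dih
    split_ifs
    · show - -z = z
      ring
    · show 1 - (1 - z) = z
      ring
    · rfl
  have h2 : ∀ u v, G.Adj u v → dih s t u * dih s t v = dih s t v * dih s t u := by
    intro u v h
    by_cases hu : u = s ∨ u = t
    · by_cases hv : v = s ∨ v = t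
      · exfalso
        rcases hu with rfl | rfl <;> rcases hv with rfl | rfl
        · exact G.irrefl h
        · exact ha h
        · exact ha h.symm
        · exact G.irrefl h
      · have : dih s t v = 1 := by
          unfold dih
          rw [if_neg (fun h => hv (Or.inl h)), if_neg (fun h => hv (Or.inr h))]
        rw [this, mul_one, one_mul]
    · have : dih s t u = 1 := by
        unfold dih
        rw [if_neg (fun h => hu (Or.inl h)), if_neg (fun h => hu (Or.inr h))]
      rw [this, mul_one, one_mul]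
  obtain ⟨ψ, hψ⟩ : ∃ ψ : W G →* Equiv.Perm ℤ, ∀ v, ψ (sm G v) = dih s t v :=
    ⟨(cox G).toCoxeterSystem.lift ⟨dih s t, liftable G _ h1 h2⟩, fun v => CoxeterSystem.lift_apply_simple _ _ v⟩
  refine ⟨ψ, fun z => ?_, fun z => ?_⟩
  · rw [hψ]
    unfold dih
    rw [if_pos rfl]
    rfl
  · rw [hψ]
    unfold dih
    rw [if_neg (Ne.symm hst), if_pos rfl]
    rfl

theorem alt_dih {s t : V} {ψ : W G →* Equiv.Perm ℤ} (hs : ∀ z, ψ (sm G s) z = -z)
    (ht : ∀ z, ψ (sm G t) z = 1 - z) (j : ℕ) :
    (∀ z, ψ (alt G s t (2 * j)) z = z - j) ∧ ∀ z, ψ (alt G s t (2 * j + 1)) z = 1 - z + j := by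
  have step : ∀ j : ℕ, (∀ z, ψ (alt G s t (2 * j)) z = z - j) → ∀ z, ψ (alt G s t (2 * j + 1)) z = 1 - z + j := by
    intro j h z
    have e : alt G s t (2 * j + 1) = sm G t * alt G s t (2 * j) := by
      show sm G (if 2 * j % 2 = 0 then t else s) * alt G s t (2 * j) = _
      rw [if_pos (by omega)]
    rw [e, map_mul, Equiv.Perm.mul_apply, h, ht]
    ring
  induction j with
  | zero =>
    have h0 : ∀ z, ψ (alt G s t (2 * 0)) z = z - (0 : ℕ) := by
      intro z
      show ψ 1 z = z - (0 : ℕ)
      rw [map_one]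
      simp
    exact ⟨h0, step 0 h0⟩
  | succ j ih =>
    have h0 : ∀ z, ψ (alt G s t (2 * (j + 1))) z = z - (j + 1 : ℕ) := by
      intro z
      have e : alt G s t (2 * (j + 1)) = sm G s * alt G s t (2 * j + 1) := by
        show sm G (if (2 * j + 1) % 2 = 0 then t else s) * alt G s t (2 * j + 1) = _
        rw [if_neg (by omega)]
      rw [e, map_mul, Equiv.Perm.mul_apply, ih.2, hs]
      push_cast
      ring
    exact ⟨h0, step (j + 1) h0⟩

theorem nn_alt {s t : V} (hst : s ≠ t) (ha : ¬ G.Adj s t) (k : ℕ) : nn G (alt G s t k) (sm G s) = 0 := by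
  classical
  obtain ⟨ψ, hs, ht⟩ := exists_dih hst ha
  induction k with
  | zero => exact nn_one G _
  | succ k ih =>
    show nn G (sm G (if k % 2 = 0 then t else s) * alt G s t k) (sm G s) = 0
    rw [nn_left, ih, zero_add, if_neg]
    intro h
    have h1 := conj_eq G h
    have h2 : k % 2 ≠ 0 := by
      intro h2
      rw [if_pos h2] at h1
      exact hst h1.symm
    rw [if_neg h2] at h
    obtain ⟨j, rfl⟩ : ∃ j, k = 2 * j + 1 := ⟨k / 2, by omega⟩
    have h3 := congrArg (fun g => ψ g 0) h
    simp only [map_mul, Equiv.Perm.mul_apply, (alt_dih hs ht j).2, hs] at h3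
    omega

theorem alt_left (s t : V) (k : ℕ) (a : V) (hav : a = s ∨ a = t) :
    ∃ k', sm G a * alt G s t k = alt G s t k' ∨ sm G a * alt G s t k = alt G t s k' := by
  by_cases h : a = if k % 2 = 0 then t else s
  · exact ⟨k + 1, Or.inl (by rw [h]; rfl)⟩
  · rcases k with _ | k
    · refine ⟨1, Or.inr ?_⟩
      rw [if_pos rfl] at h
      have : a = s := hav.resolve_right h
      subst this
      show sm G a * 1 = sm G a * 1
      rfl
    · refine ⟨k, Or.inl ?_⟩
      have h2 : a = if k % 2 = 0 then t else s := by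
        by_cases h3 : k % 2 = 0
        · rw [if_pos h3]
          rw [if_neg (by omega)] at h
          exact hav.resolve_left h
        · rw [if_neg h3]
          rw [if_pos (by omega)] at h
          exact hav.resolve_right h
      show sm G a * (sm G (if k % 2 = 0 then t else s) * alt G s t k) = alt G s t k
      rw [← h2, ← mul_assoc, sm_sm, one_mul]

theorem mem_alt {s t : V} {x : W G} (hx : x ∈ Subgroup.closure {sm G s, sm G t}) :
    ∃ k, x = alt G s t k ∨ x = alt G t s k := by
  have key : ∀ a, (a = s ∨ a = t) → ∀ y : W G, (∃ k, y = alt G s t k ∨ y = alt G t s k) →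
      ∃ k, sm G a * y = alt G s t k ∨ sm G a * y = alt G t s k := by
    rintro a ha y ⟨k, rfl | rfl⟩
    · exact alt_left s t k a ha
    · obtain ⟨k', h⟩ := alt_left t s k a ha.symm
      exact ⟨k', h.symm⟩
  refine Subgroup.closure_induction_left (p := fun x _ => ∃ k, x = alt G s t k ∨ x = alt G t s k) ?_ ?_ ?_ hx
  · exact ⟨0, Or.inl rfl⟩
  · intro x hx y _ ih
    rcases hx with rfl | rfl
    · exact key s (Or.inl rfl) y ih
    · exact key t (Or.inr rfl) y ih
  · intro x hx y _ ih
    rcases hx with rfl | rfl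
    · rw [sm_inv]
      exact key s (Or.inl rfl) y ih
    · rw [sm_inv]
      exact key t (Or.inr rfl) y ih

/-- the descents of an element are adjacent -/
theorem desc_adj {w : W G} {s t : V} (hst : s ≠ t) (hs : nn G w (sm G s) = 1) (ht : nn G w (sm G t) = 1) :
    G.Adj s t := by
  classical
  by_contra ha
  obtain ⟨D, hD⟩ : ∃ D : Subgroup (W G), D = Subgroup.closure {sm G s, sm G t} := ⟨_, rfl⟩
  have hsD : sm G s ∈ D := by rw [hD]; exact Subgroup.subset_closure (by simp)
  have htD : sm G t ∈ D := by rw [hD]; exact Subgroup.subset_closure (by simp)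
  obtain ⟨d, hd, hmin⟩ : ∃ d ∈ D, ∀ d' ∈ D, len G (w * d) ≤ len G (w * d') := by
    have h1 : ∃ n, ∃ d ∈ D, len G (w * d) = n := ⟨_, 1, one_mem D, rfl⟩
    obtain ⟨d, hd, hd'⟩ := Nat.find_spec h1
    exact ⟨d, hd, fun d' hd'' => by rw [hd']; exact Nat.find_min' h1 ⟨d', hd'', rfl⟩⟩
  have hu : ∀ r ∈ D, nn G (w * d) r = 0 := by
    intro r hr
    rcases zmod2 (nn G (w * d) r) with h | h
    · exact h
    · have h1 := len_lt h
      rw [mul_assoc] at h1
      have h2 := hmin (d * r) (mul_mem hd hr)
      omega
  have hw : ∀ r ∈ D, nn G w r = nn G d⁻¹ r := by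
    intro r hr
    have h1 := nn_mul G (w * d) d⁻¹ r
    rw [mul_inv_cancel_right, hu _ (mul_mem (mul_mem (inv_mem hd) hr) (inv_mem (inv_mem hd))), add_zero] at h1
    exact h1
  rw [hw _ hsD] at hs
  rw [hw _ htD] at ht
  have h1 : d⁻¹ ∈ Subgroup.closure {sm G s, sm G t} := by
    rw [← hD]
    exact inv_mem hd
  obtain ⟨k, hk | hk⟩ := mem_alt h1
  · rw [hk, nn_alt hst ha] at hs
    exact absurd hs (by decide)
  · rw [hk, nn_alt (Ne.symm hst) (fun h => ha h.symm)] at ht
    exact absurd ht (by decide)

end Pool.Agent.X250.ZS
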