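import Pool.Agent.X250.ZS.Gap

/-!
# The Hilbert complex is not exact
-/

set_option autoImplicit false
set_option linter.unusedSectionVars false

open scoped ENNReal InnerProductSpace

namespace Pool.Agent.X250.ZS

open Pool.Agent.W907.SG Pool.Agent.W461.SGN

/-- sums over the incidence numbers -/
theorem sum_inc {V : Type} [Fintype V] [LinearOrder V] {A : Type} [AddCommGroup A] (T : Finset V)
    (f : Finset V → A) : ∑ T', inc T T' • f T' = ∑ s ∈ Tᶜ, ep s T • f (insert s T) := by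
  have h1 : ∑ T', inc T T' • f T' = ∑ T' ∈ (Tᶜ).image (fun s => insert s T), inc T T' • f T' := by
    refine (Finset.sum_subset (Finset.subset_univ _) fun T' _ h => ?_).symm
    by_cases h2 : inc T T' = 0
    · rw [h2, zero_smul]
    · obtain ⟨s, hs, rfl⟩ := inc_ne h2
      exact absurd (Finset.mem_image_of_mem (fun s => insert s T) (Finset.mem_compl.2 hs)) h
  rw [h1, Finset.sum_image]
  · exact Finset.sum_congr rfl fun s hs => by rw [inc_insert (Finset.mem_compl.1 hs)]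
  · intro s hs t ht hst
    have h2 : s ∈ insert t T := by
      have : s ∈ insert s T := Finset.mem_insert_self s T
      have hst' : insert s T = insert t T := hst
      rwa [hst'] at this
    rcases Finset.mem_insert.1 h2 with h3 | h3
    · exact h3
    · exact absurd h3 (Finset.mem_compl.1 (Finset.mem_coe.1 hs))

/-- the sums of products of incidence numbers vanish -/
theorem inc_inc {V : Type} [Fintype V] [LinearOrder V] (T T'' : Finset V) : ∑ T', inc T T' * inc T' T'' = 0 := by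
  have h1 : ∑ T', inc T T' * inc T' T'' = ∑ s ∈ Tᶜ, ep s T * inc (insert s T) T'' := by
    have := sum_inc (A := ℤ) T fun T' => inc T' T''
    simpa only [smul_eq_mul] using this
  rw [h1]
  by_cases h2 : T ⊆ T'' ∧ T''.card = T.card + 2
  · have h3 : (T'' \ T).card = 2 := by
      rw [Finset.card_sdiff_of_subset h2.1]
      omega
    obtain ⟨a, b, hab, he⟩ := Finset.card_eq_two.1 h3
    have ha : a ∈ T'' \ T := by rw [he]; simp
    have hb : b ∈ T'' \ T := by rw [he]; simp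
    have ha' := (Finset.mem_sdiff.1 ha).2
    have hb' := (Finset.mem_sdiff.1 hb).2
    have hT : T'' = insert a (insert b T) := by
      rw [← Finset.sdiff_union_of_subset h2.1, he, Finset.insert_union, ← Finset.insert_eq]
    have h4 : ∑ s ∈ Tᶜ, ep s T * inc (insert s T) T'' = ∑ s ∈ {a, b}, ep s T * inc (insert s T) T'' := by
      refine (Finset.sum_subset ?_ ?_).symm
      · intro s hs
        rcases Finset.mem_insert.1 hs with rfl | hs
        · exact Finset.mem_compl.2 ha'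
        · rw [Finset.mem_singleton] at hs
          subst hs
          exact Finset.mem_compl.2 hb'
      · intro s hs hs'
        by_cases h5 : inc (insert s T) T'' = 0
        · rw [h5, mul_zero]
        · exfalso
          obtain ⟨t, ht, h6⟩ := inc_ne h5
          apply hs'
          have h7 : s ∈ T'' \ T := by
            rw [Finset.mem_sdiff, h6]
            exact ⟨by simp, Finset.mem_compl.1 hs⟩
          rw [he] at h7
          exact h7
    have hb2 : b ∉ insert a T := by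
      rw [Finset.mem_insert, not_or]
      exact ⟨Ne.symm hab, hb'⟩
    have ha2 : a ∉ insert b T := by
      rw [Finset.mem_insert, not_or]
      exact ⟨hab, ha'⟩
    rw [h4, Finset.sum_pair hab, hT, inc_insert ha2, Finset.insert_comm, inc_insert hb2,
      ep_anti ha' hb' hab]
    ring
  · refine Finset.sum_eq_zero fun s hs => ?_
    by_cases h5 : inc (insert s T) T'' = 0
    · rw [h5, mul_zero]
    · exfalso
      obtain ⟨t, ht, h6⟩ := inc_ne h5
      apply h2
      rw [h6, Finset.card_insert_of_notMem ht, Finset.card_insert_of_notMem (Finset.mem_compl.1 hs)]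
      exact ⟨(Finset.subset_insert s T).trans (Finset.subset_insert t _), rfl⟩

variable {V : Type} {G : SimpleGraph V} [Fintype V] [LinearOrder V]

/-- the differential -/
noncomputable def Dm (x : V → ℝ) : Mt G := Matrix.of fun T T' => ((inc T' T : ℤ) : ℂ) • pT x T

/-- its adjoint -/
noncomputable def Db (x : V → ℝ) : Mt G := Matrix.of fun T T' => ((inc T T' : ℤ) : ℂ) • pT x T'

theorem DD_eq (x : V → ℝ) : DD (G := G) x = Db x + Dm x := rfl

theorem op_add (X Y : Mt G) : op (X + Y) = op X + op Y := by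
  refine ContinuousLinearMap.ext fun v => ee_ext fun T => ?_
  show prj T (op (X + Y) v) = prj T (op X v + op Y v)
  rw [map_add, prj_op, prj_op, prj_op, ← Finset.sum_add_distrib]
  rfl

theorem prj_Dm (x : V → ℝ) (v : EE G) (T : Finset V) :
    prj T (op (Dm x) v) = pT x T (∑ T', inc T' T • prj T' v) := by
  rw [prj_op, map_sum]
  refine Finset.sum_congr rfl fun T' _ => ?_
  show (((inc T' T : ℤ) : ℂ) • pT x T) (prj T' v) = _
  rw [smul_apply, map_zsmul]
  exact Int.cast_smul_eq_zsmul ℂ _ _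

theorem prj_PP (x : V → ℝ) (v : EE G) (T : Finset V) : prj T (op (PP x) v) = pT x T (prj T v) := by
  rw [prj_op]
  unfold PP
  rw [Finset.sum_eq_single T]
  · rw [Matrix.diagonal_apply_eq]
  · intro S _ hS
    rw [Matrix.diagonal_apply_ne _ (Ne.symm hS)]
    rfl
  · intro h
    exact absurd (Finset.mem_univ T) h

theorem adj_Dm (x : V → ℝ) (u v : EE G) : ⟪op (Dm x) u, v⟫_ℂ = ⟪u, op (Db x) v⟫_ℂ := by
  rw [inner_ee, inner_ee]
  simp only [prj_op, sum_inner, inner_sum]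
  rw [Finset.sum_comm]
  refine Finset.sum_congr rfl fun T _ => Finset.sum_congr rfl fun T' _ => ?_
  show ⟪(((inc T T' : ℤ) : ℂ) • pT x T') (prj T u), prj T' v⟫_ℂ =
    ⟪prj T u, (((inc T T' : ℤ) : ℂ) • pT x T') (prj T' v)⟫_ℂ
  rw [smul_apply, smul_apply, inner_smul_left, inner_smul_right, inner_pT, map_intCast]

theorem real_gap {n a b C : ℝ} (_ : 0 ≤ n) (ha : 0 ≤ a) (hb : 0 ≤ b) (hC : 0 < C)
    (h : n ^ 2 ≤ n * (C * a) + b * (C * (n + C * a))) : n ≤ 2 * C * (a + b) := by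
  by_contra hcon
  push Not at hcon
  nlinarith [mul_nonneg ha hb, mul_pos hC hC, mul_nonneg hC.le (add_nonneg ha hb),
    mul_nonneg (mul_nonneg hC.le ha) (mul_nonneg hC.le hb), sq_nonneg (C * a - C * b)]

section

variable {x : V → ℝ} (h0 : ∀ s, 0 ≤ x s) (h1 : ∀ s, x s ≤ 1)

include h0 h1

theorem Dm_Dm (v : EE G) : op (Dm x) (op (Dm x) v) = 0 := by
  refine ee_ext fun T'' => ?_
  rw [prj_Dm, map_zero]
  have h2 : ∀ T', pT (G := G) x T'' (inc T' T'' • prj T' (op (Dm x) v)) =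
      ∑ T, (inc T T' * inc T' T'') • pT x T'' (prj T v) := by
    intro T'
    by_cases h : inc T' T'' = 0
    · simp [h]
    · rw [prj_Dm, map_zsmul]
      have h3 := congrArg (fun A : Op G => A (∑ T, inc T T' • prj T v)) (pT_sub1 (G := G) h0 h1 h).1
      have h4 : pT (G := G) x T'' (pT x T' (∑ T, inc T T' • prj T v)) = pT x T'' (∑ T, inc T T' • prj T v) := h3
      rw [h4, map_sum, Finset.smul_sum]
      refine Finset.sum_congr rfl fun T _ => ?_
      rw [map_zsmul, smul_smul, mul_comm]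
  rw [map_sum, Finset.sum_congr rfl fun T' _ => h2 T', Finset.sum_comm]
  refine Finset.sum_eq_zero fun T _ => ?_
  rw [← Finset.sum_smul, inc_inc, zero_smul]

theorem op_PP_PP (v : EE G) : op (PP x) (op (PP x) v) = op (PP x) v := by
  have := congrArg (fun T : EE G →L[ℂ] EE G => T v) (op_mul (PP x) (PP (G := G) x))
  rw [PP_PP h0 h1] at this
  exact this.symm

theorem PP_le (v : EE G) : ‖op (PP x) v‖ ≤ ‖v‖ := by
  have h2 : ⟪op (PP x) v, op (PP x) v⟫_ℂ = ⟪v, op (PP x) v⟫_ℂ := by rw [PP_symm, op_PP_PP h0 h1]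
  have h3 : ‖op (PP x) v‖ ^ 2 ≤ ‖v‖ * ‖op (PP x) v‖ := by
    have h4 : (‖op (PP x) v‖ : ℝ) ^ 2 = ‖⟪op (PP x) v, op (PP x) v⟫_ℂ‖ := by
      rw [inner_self', Complex.norm_real, Real.norm_of_nonneg (sq_nonneg _)]
    rw [h4, h2]
    exact norm_inner_le_norm _ _
  exact le_of_sq_le_mul (norm_nonneg _) (norm_nonneg _) h3

theorem PP_Dm (v : EE G) : op (PP x) (op (Dm x) v) = op (Dm x) v := by
  refine ee_ext fun T => ?_
  rw [prj_PP, prj_Dm]
  exact congrArg (fun A : Op G => A (∑ T', inc T' T • prj T' v)) (pT_idem h0 h1 T)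

theorem Dm_PP (v : EE G) : op (Dm x) (op (PP x) v) = op (Dm x) v := by
  refine ee_ext fun T => ?_
  rw [prj_Dm, prj_Dm, map_sum, map_sum]
  refine Finset.sum_congr rfl fun T' _ => ?_
  by_cases h : inc T' T = 0
  · rw [h, zero_smul, zero_smul]
  · rw [map_zsmul, map_zsmul, prj_PP]
    congr 1
    exact congrArg (fun A : Op G => A (prj T' v)) (pT_sub1 (G := G) h0 h1 h).1

/-- exactness gives a spectral gap -/
theorem gap_of_exact (hex : ∀ v : EE G, op (PP x) v = v → op (Dm x) v = 0 → ∃ u, op (Dm x) u = v) :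
    ∃ c : ℝ, 0 < c ∧ ∀ v : EE G, c * ‖op (PP x) v‖ ≤ ‖op (DD x) v‖ := by
  obtain ⟨Z, hZm⟩ : ∃ Z : Submodule ℂ (EE G), ∀ v, v ∈ Z ↔ op (PP x) v = v ∧ op (Dm x) v = 0 :=
    ⟨{ carrier := {v | op (PP x) v = v ∧ op (Dm x) v = 0}
       add_mem' := fun {u v} hu hv => ⟨by rw [map_add, hu.1, hv.1], by rw [map_add, hu.2, hv.2, add_zero]⟩
       zero_mem' := ⟨map_zero _, map_zero _⟩
       smul_mem' := fun c v hv => ⟨by rw [map_smul, hv.1], by rw [map_smul, hv.2, smul_zero]⟩ }, fun v => Iff.rfl⟩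
  have hZc : IsClosed (Z : Set (EE G)) := by
    have h2 : (Z : Set (EE G)) = {v | op (PP x) v = v} ∩ {v | op (Dm x) v = 0} := Set.ext fun v => hZm v
    rw [h2]
    exact (isClosed_eq (op (PP (G := G) x)).continuous continuous_id).inter
      (isClosed_eq (op (Dm (G := G) x)).continuous continuous_const)
  have hZcomp : CompleteSpace Z := hZc.completeSpace_coe
  obtain ⟨F, hF⟩ : ∃ F : EE G →L[ℂ] Z, ∀ v, ((F v : Z) : EE G) = op (Dm x) v :=
    ⟨(op (Dm x)).codRestrict Z fun v => (hZm _).2 ⟨PP_Dm h0 h1 v, Dm_Dm h0 h1 v⟩, fun v => rfl⟩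
  have hsurj : Function.Surjective F := by
    intro z
    obtain ⟨u, hu⟩ := hex z.1 ((hZm _).1 z.2).1 ((hZm _).1 z.2).2
    exact ⟨u, Subtype.ext ((hF u).trans hu)⟩
  obtain ⟨C, hC0, hC⟩ := F.exists_preimage_norm_le hsurj
  have hpre : ∀ z : EE G, op (PP x) z = z → op (Dm x) z = 0 → ∃ u, op (Dm x) u = z ∧ ‖u‖ ≤ C * ‖z‖ := by
    intro z hz1 hz2
    obtain ⟨u, hu1, hu2⟩ := hC ⟨z, (hZm z).2 ⟨hz1, hz2⟩⟩
    exact ⟨u, (hF u).symm.trans (congrArg Subtype.val hu1), hu2⟩
  refine ⟨1 / (4 * C), by positivity, fun v => ?_⟩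
  obtain ⟨y, hy⟩ : ∃ y : EE G, y = op (PP x) v := ⟨_, rfl⟩
  have hPy : op (PP x) y = y := by rw [hy, op_PP_PP h0 h1]
  have hDy : op (DD x) y = op (DD x) v := by
    have := congrArg (fun T : EE G →L[ℂ] EE G => T v) (op_mul (DD x) (PP (G := G) x))
    rw [DD_PP h0 h1] at this
    rw [hy]
    exact this.symm
  rw [← hDy, ← hy]
  obtain ⟨u, hu1, hu2⟩ := hpre (op (Dm x) y) (PP_Dm h0 h1 y) (Dm_Dm h0 h1 y)
  obtain ⟨u', hu'⟩ : ∃ u' : EE G, u' = op (PP x) u := ⟨_, rfl⟩
  have hu'1 : op (Dm x) u' = op (Dm x) y := by rw [hu', Dm_PP h0 h1, hu1]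
  have hu'2 : ‖u'‖ ≤ C * ‖op (Dm x) y‖ := by
    rw [hu']
    exact (PP_le h0 h1 u).trans hu2
  obtain ⟨w, hw1, hw2⟩ := hpre (y - u') (by rw [map_sub, hPy, hu', op_PP_PP h0 h1])
    (by rw [map_sub, hu'1, sub_self])
  have e1 : ⟪y, y⟫_ℂ = ⟪y, u'⟫_ℂ + ⟪op (Db x) y, w⟫_ℂ := by
    have h2 : ⟪op (Db x) y, w⟫_ℂ = ⟪y, op (Dm x) w⟫_ℂ := by
      rw [← inner_conj_symm, ← adj_Dm, inner_conj_symm]
    rw [h2, hw1, ← inner_add_right, add_sub_cancel]
  have e2 : ‖y‖ ^ 2 ≤ ‖y‖ * (C * ‖op (Dm x) y‖) + ‖op (Db x) y‖ * (C * (‖y‖ + C * ‖op (Dm x) y‖)) := by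
    have h2 : ‖y‖ ^ 2 = ‖⟪y, y⟫_ℂ‖ := by
      rw [inner_self', Complex.norm_real, Real.norm_of_nonneg (sq_nonneg _)]
    rw [h2, e1]
    refine (norm_add_le _ _).trans (add_le_add ?_ ?_)
    · exact (norm_inner_le_norm _ _).trans (mul_le_mul_of_nonneg_left hu'2 (norm_nonneg _))
    · refine (norm_inner_le_norm _ _).trans (mul_le_mul_of_nonneg_left ?_ (norm_nonneg _))
      refine hw2.trans (mul_le_mul_of_nonneg_left ?_ hC0.le)
      exact (norm_sub_le _ _).trans (add_le_add le_rfl hu'2)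
  have e3 := real_gap (norm_nonneg y) (norm_nonneg _) (norm_nonneg _) hC0 e2
  have e4 : ‖op (DD x) y‖ ^ 2 = ‖op (Db x) y‖ ^ 2 + ‖op (Dm x) y‖ ^ 2 := by
    have h2 : op (DD x) y = op (Db x) y + op (Dm x) y := by
      rw [DD_eq, op_add]
      rfl
    have h3 : ⟪op (Db x) y, op (Dm x) y⟫_ℂ = 0 := by
      rw [← inner_conj_symm, ← adj_Dm, Dm_Dm h0 h1, inner_zero_left, map_zero]
    have h4 : ⟪op (Dm x) y, op (Db x) y⟫_ℂ = 0 := by
      rw [← inner_conj_symm, h3, map_zero]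
    have h5 : (((‖op (DD x) y‖ ^ 2 : ℝ)) : ℂ) = ((‖op (Db x) y‖ ^ 2 + ‖op (Dm x) y‖ ^ 2 : ℝ) : ℂ) := by
      rw [← inner_self', h2, inner_add_left, inner_add_right, inner_add_right, h3, h4, inner_self', inner_self']
      push_cast
      ring
    exact_mod_cast h5
  have e5 : ‖op (Dm x) y‖ + ‖op (Db x) y‖ ≤ 2 * ‖op (DD x) y‖ := by
    have h2 : ‖op (Dm x) y‖ ≤ ‖op (DD x) y‖ := by
      refine le_of_sq_le_sq ?_ (norm_nonneg _)
      rw [e4]
      linarith [sq_nonneg ‖op (Db x) y‖]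
    have h3 : ‖op (Db x) y‖ ≤ ‖op (DD x) y‖ := by
      refine le_of_sq_le_sq ?_ (norm_nonneg _)
      rw [e4]
      linarith [sq_nonneg ‖op (Dm x) y‖]
    linarith
  have e6 : ‖y‖ ≤ 4 * C * ‖op (DD x) y‖ := by
    refine e3.trans ?_
    have := mul_le_mul_of_nonneg_left e5 (show 0 ≤ 2 * C by positivity)
    linarith
  rw [one_div, inv_mul_le_iff₀ (by positivity)]
  exact e6

end

/-- the Hilbert complex is not exact -/
theorem not_exact (μ : V → ℝ) (h0 : ∀ s, 0 < μ s) (h1 : ∀ s, μ s < 1) :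
    ¬ ∀ v : EE G, op (PP μ) v = v → op (Dm μ) v = 0 → ∃ u, op (Dm μ) u = v := by
  intro hex
  obtain ⟨c, hc, h⟩ := gap_of_exact (fun s => (h0 s).le) (fun s => (h1 s).le) hex
  exact no_gap μ h0 h1 hc h

end Pool.Agent.X250.ZS
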