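import Pool.Agent.X250.ZS.Coh

/-!
# Zero in the spectrum for finite index subgroups of right-angled Coxeter groups
-/

set_option autoImplicit false
set_option linter.unusedSectionVars false

open scoped Matrix ENNReal InnerProductSpace

namespace Pool.Agent.X250.ZS

open Pool.Agent.W907.SG Pool.Agent.W461.SGN
open Pool.Agent.H919R4.ZS (FinRes augm L2 act L toRed RedC)

variable {V : Type} [Fintype V] [LinearOrder V] {G : SimpleGraph V} {Γ : Subgroup (W G)}

/-- the identification -/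
noncomputable def toV (G : SimpleGraph V) : Hl (W G) ≃+ HV G := AddEquiv.refl _

theorem smul_toV (a : RW G) (v : Hl (W G)) : a • toV G v = toV G (Th G a v) := rfl

/-- linear combinations -/
noncomputable def lc {n : ℕ} (v : Fin n → HV G) : (Fin n → RW G) →ₗ[RW G] HV G where
  toFun x := ∑ j, x j • v j
  map_add' x y := by
    simp only [Pi.add_apply, add_smul, Finset.sum_add_distrib]
  map_smul' a x := by
    simp only [Pi.smul_apply, smul_eq_mul, mul_smul, Finset.smul_sum, RingHom.id_apply]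

theorem lc_eq {n : ℕ} (α : (Fin n → RW G) →ₗ[RW G] HV G) (x : Fin n → RW G) :
    α x = ∑ j, x j • α (fun k => if j = k then 1 else 0) := LinearMap.pi_apply_eq_sum_univ α x

theorem row_eq {m n : ℕ} (D : Matrix (Fin m) (Fin n) (RW G)) (k : Fin m) :
    (Pi.single k 1 : Fin m → RW G) ᵥ* D = D k := by
  funext j
  simp [Matrix.vecMul, dotProduct, Pi.single_apply]

theorem EC_act {m n : ℕ} (D : Matrix (Fin m) (Fin n) (MonoidAlgebra ℤ Γ)) (v : Fin n → Hl (W G))
    (w : W G) (k : Fin m) :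
    EC Γ w (∑ j, Th G (ph Γ (D k j)) (v j)) = act (D.map L) (fun j => EC Γ w (v j)) k := by
  rw [EC_sum]
  refine Finset.sum_congr rfl fun j _ => ?_
  rw [EC_Th]
  rfl

/-- the values on the basis -/
noncomputable def bv {n : ℕ} (α : (Fin n → RW G) →ₗ[RW G] HV G) (j : Fin n) : Hl (W G) :=
  (toV G).symm (α (fun k => if j = k then 1 else 0))

theorem bv_eq {n : ℕ} (α : (Fin n → RW G) →ₗ[RW G] HV G) (x : Fin n → RW G) :
    α x = toV G (∑ j, Th G (x j) (bv α j)) := by
  rw [lc_eq, map_sum]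
  rfl

theorem cocyc {m n : ℕ} (D : Matrix (Fin m) (Fin n) (MonoidAlgebra ℤ Γ)) (α : (Fin n → RW G) →ₗ[RW G] HV G)
    (hα : ∀ x : Fin m → RW G, α (x ᵥ* D.map (ph Γ)) = 0) (w : W G) :
    act (D.map L) (fun j => EC Γ w (bv α j)) = 0 := by
  funext k
  rw [← EC_act]
  have h1 := hα (Pi.single k 1)
  rw [row_eq, bv_eq] at h1
  have h2 : (∑ j, Th G (ph Γ (D k j)) (bv α j) : Hl (W G)) = 0 := h1
  rw [h2]
  rfl

theorem hyp0 [Γ.FiniteIndex] {m n : ℕ} (D : Matrix (Fin m) (Fin n) (MonoidAlgebra ℤ Γ))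
    (h0 : ∀ v : Fin n → L2 Γ, act (D.map L) v = 0 → v = 0) (α : (Fin n → RW G) →ₗ[RW G] HV G)
    (hα : ∀ x : Fin m → RW G, α (x ᵥ* D.map (ph Γ)) = 0) : α = 0 := by
  have h2 := fun w => h0 _ (cocyc D α hα w)
  refine LinearMap.ext fun x => ?_
  rw [bv_eq]
  have h3 : ∀ j, bv α j = 0 := fun j => EC_ext Γ fun c => congrFun (h2 (Quotient.out c)) j
  simp only [h3, map_zero, Finset.sum_const_zero, LinearMap.zero_apply]

theorem hyp1 [Γ.FiniteIndex] {m n l : ℕ} (D' : Matrix (Fin m) (Fin n) (MonoidAlgebra ℤ Γ))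
    (D : Matrix (Fin n) (Fin l) (MonoidAlgebra ℤ Γ))
    (h1 : ∀ v : Fin n → L2 Γ, act (D'.map L) v = 0 → ∃ w, act (D.map L) w = v) (α : (Fin n → RW G) →ₗ[RW G] HV G)
    (hα : ∀ x : Fin m → RW G, α (x ᵥ* D'.map (ph Γ)) = 0) :
    ∃ β : (Fin l → RW G) →ₗ[RW G] HV G, ∀ x : Fin n → RW G, α x = β (x ᵥ* D.map (ph Γ)) := by
  have hfin : Fintype (W G ⧸ Γ) := Fintype.ofFinite _
  have h2 := fun w => h1 _ (cocyc D' α hα w)
  choose u hu using h2
  choose f hf using fun k : Fin l => exists_EC Γ fun c => u (Quotient.out c) k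
  refine ⟨lc fun k => toV G (f k), fun x => ?_⟩
  have h3 : ∀ j : Fin n, bv α j = ∑ k, Th G (ph Γ (D j k)) (f k) := by
    intro j
    refine EC_ext Γ fun c => ?_
    rw [EC_act, ← congrFun (hu (Quotient.out c)) j]
    congr 1
    funext k
    exact (hf k c).symm
  rw [bv_eq]
  show _ = ∑ k, (x ᵥ* D.map (ph Γ)) k • toV G (f k)
  have h4 : ∀ k, (x ᵥ* D.map (ph Γ)) k • toV G (f k) = toV G (∑ j, Th G (x j * ph Γ (D j k)) (f k)) := by
    intro k
    rw [smul_toV]
    congr 1
    show Th G (∑ j, x j * ph Γ (D j k)) (f k) = _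
    rw [map_sum, sum_apply]
  rw [Finset.sum_congr rfl fun k _ => h4 k, ← map_sum, Finset.sum_comm]
  congr 1
  refine Finset.sum_congr rfl fun j _ => ?_
  rw [h3, map_sum]
  refine Finset.sum_congr rfl fun k _ => ?_
  rw [map_mul]
  rfl

theorem hypX [Γ.FiniteIndex] (X : FinRes Γ) (h : ∀ i, Subsingleton (X.homology (toRed Γ) i)) :
    (∀ α : (Indc X).M 0 →ₗ[RW G] HV G, (∀ x, α ((Indc X).d 0 x) = 0) → α = 0) ∧
    ∀ i (α : (Indc X).M (i + 1) →ₗ[RW G] HV G), (∀ x, α ((Indc X).d (i + 1) x) = 0) →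
      ∃ β : (Indc X).M i →ₗ[RW G] HV G, ∀ x, α x = β ((Indc X).d i x) := by
  obtain ⟨h0, h1⟩ := van_all X h
  exact ⟨fun α hα => hyp0 (X.d 0) h0 α hα, fun i α hα => hyp1 (X.d (i + 1)) (X.d i) (h1 i) α hα⟩

theorem hypDav [Γ.FiniteIndex] (X : FinRes Γ) (h : ∀ i, Subsingleton (X.homology (toRed Γ) i)) :
    (∀ α : (Dav G).M 0 →ₗ[RW G] HV G, (∀ x, α ((Dav G).d 0 x) = 0) → α = 0) ∧
    ∀ n (α : (Dav G).M (n + 1) →ₗ[RW G] HV G), (∀ x, α ((Dav G).d (n + 1) x) = 0) →
      ∃ β : (Dav G).M n →ₗ[RW G] HV G, ∀ x, α x = β ((Dav G).d n x) := by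
  classical
  have hfin : Fintype (W G ⧸ Γ) := Fintype.ofFinite _
  obtain ⟨x0, hx0⟩ := X.surj
  -- the map to the induced complex
  have c1 : ∀ x : (Dav G).M 1, ∃ y, (Indc X).d 0 y = (f00 (xi x0) : Ch G 0 →ₗ[RW G] _) ((Dav G).d 0 x) := by
    intro x
    choose y hy using fun s : V => xi_inv X x0 (sm G s)
    refine ⟨∑ s, ((1 / 2 : ℚ) • x.1 {s}) • y s, ?_⟩
    refine (map_sum ((Indc X).d 0) _ _).trans ?_
    have h1 : ∀ s, (Indc X).d 0 (((1 / 2 : ℚ) • x.1 {s}) • y s) =
        (fun j => x.1 {s} * xi x0 j : Fin (X.n 0) → RW G) := by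
      intro s
      refine (LinearMap.map_smul ((Indc X).d 0) _ _).trans ?_
      rw [hy s]
      funext j
      show ((1 / 2 : ℚ) • x.1 {s}) * (xi x0 j - gs G (sm G s) * xi x0 j) = _
      have h2 : x.1 {s} * ps G s = x.1 {s} := by
        have := cp_mul_self (ps_comm G) (ps_idem G) (Finset.mem_singleton_self s)
        rw [← (x.2 {s}).1, mul_assoc]
        exact congrArg (fun z => x.1 {s} * z) this
      nth_rewrite 2 [← h2]
      unfold ps qs
      rw [smul_mul_assoc, mul_smul_comm, smul_mul_assoc, mul_assoc, sub_mul, one_mul]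
    have h3 : ((Dav G).d 0 x).1 ∅ = ∑ s, x.1 {s} := by
      show dT G x.1 ∅ = _
      rw [dT_apply, Finset.compl_empty]
      refine Finset.sum_congr rfl fun s _ => ?_
      show (1 : ℤ) • x.1 {s} = _
      rw [one_smul]
    refine (Finset.sum_congr rfl fun s _ => h1 s).trans ?_
    funext j
    show _ = ((Dav G).d 0 x).1 ∅ * xi x0 j
    rw [h3, Finset.sum_mul]
    exact Finset.sum_apply j Finset.univ fun s => (fun j => x.1 {s} * xi x0 j : Fin (X.n 0) → RW G)
  obtain ⟨f, hf0, hf⟩ := exists_lift (Dav G) (Indc X) (Ch_proj G) (Indc_ex X) (f00 (xi x0)) c1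
  -- the map back
  have c2 : ∀ y : (Indc X).M 1, ∃ c, (Dav G).d 0 c = (g00 X.aug : (Fin (X.n 0) → RW G) →ₗ[RW G] Ch G 0)
      ((Indc X).d 0 y) := by
    intro y
    have h1 : ∑ j, (y ᵥ* (X.d 0).map (ph Γ)) j * (X.aug j : RW G) ∈ JJ G := by
      have h2 : ∑ j, (y ᵥ* (X.d 0).map (ph Γ)) j * (X.aug j : RW G) =
          ∑ k, y k • ∑ j, ph Γ (X.d 0 k j) * (X.aug j : RW G) := by
        simp only [Matrix.vecMul, dotProduct, Finset.sum_mul, smul_eq_mul, Finset.mul_sum, Matrix.map_apply]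
        rw [Finset.sum_comm]
        refine Finset.sum_congr rfl fun k _ => Finset.sum_congr rfl fun j _ => ?_
        rw [mul_assoc]
      rw [h2]
      refine Submodule.sum_mem _ fun k _ => Submodule.smul_mem _ _ (mem_JJ ?_)
      have h3 : ∑ j, augm Γ (X.d 0 k j) * X.aug j = 0 := by
        refine (X.exact_zero (X.d 0 k)).2 ⟨Pi.single k 1, ?_⟩
        funext j
        simp [Matrix.vecMul, dotProduct, Pi.single_apply]
      rw [map_sum]
      have h4 : ∀ j, aug G (ph Γ (X.d 0 k j) * (X.aug j : RW G)) = ((augm Γ (X.d 0 k j) * X.aug j : ℤ) : ℚ) := by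
        intro j
        rw [map_mul, aug_ph, map_intCast]
        push_cast
        rfl
      rw [Finset.sum_congr rfl fun j _ => h4 j, ← Int.cast_sum, h3, Int.cast_zero]
    exact JJ_ch h1
  obtain ⟨g, hg0, hg⟩ := exists_lift (Indc X) (Dav G) (Indc_proj X) Dav_ex (g00 X.aug) c2
  have c3 : ∀ x, ∃ y, (Dav G).d 0 y = g 0 (f 0 x) - x := by
    intro x
    rw [hf0, hg0]
    have h1 : x.1 ∅ • (∑ j, xi x0 j * (X.aug j : RW G) - 1) ∈ JJ G := by
      refine Submodule.smul_mem _ _ (mem_JJ ?_)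
      rw [map_sub, map_one, map_sum]
      have h4 : ∀ j, aug G (xi x0 j * (X.aug j : RW G)) = ((augm Γ (x0 j) * X.aug j : ℤ) : ℚ) := by
        intro j
        rw [map_mul, aug_xi, map_intCast]
        push_cast
        rfl
      rw [Finset.sum_congr rfl fun j _ => h4 j, ← Int.cast_sum, hx0, Int.cast_one, sub_self]
    obtain ⟨y, hy⟩ := JJ_ch h1
    refine ⟨y, hy.trans (Subtype.ext ?_)⟩
    show (Pi.single ∅ (x.1 ∅ • (∑ j, xi x0 j * (X.aug j : RW G) - 1)) : Finset V → RW G) =
      Pi.single ∅ (∑ j, (x.1 ∅ * xi x0 j) * (X.aug j : RW G)) - x.1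
    have h2 : x.1 = Pi.single ∅ (x.1 ∅) := Ch_zero x
    nth_rewrite 3 [h2]
    rw [← Pi.single_sub]
    congr 1
    rw [smul_eq_mul, mul_sub, mul_one, Finset.mul_sum]
    simp only [mul_assoc]
  obtain ⟨hA0, hA⟩ := hypX X h
  exact transfer f g hf hg (Ch_proj G) Dav_ex c3 hA0 hA

/-- the chain given by a clique -/
noncomputable def ch1 (T : Finset V) : Ch G T.card :=
  ⟨Pi.single T (pR G T), fun S => by
    by_cases hS : S = T
    · subst hS
      rw [Pi.single_eq_same]
      exact ⟨cp_idem (ps_comm G) (ps_idem G) S, fun h => absurd rfl h⟩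
    · rw [Pi.single_eq_of_ne hS, zero_mul]
      exact ⟨rfl, fun _ => rfl⟩⟩

theorem ch1_mem {n : ℕ} (T : Finset V) (h : T.card = n) : (Pi.single T (pR G T) : Finset V → RW G) ∈ Ch G n := by
  subst h
  exact (ch1 T).2

/-- the linear map given by a family -/
noncomputable def al (v : EE G) (n : ℕ) : Ch G n →ₗ[RW G] HV G where
  toFun x := ∑ T, x.1 T • toV G (prj T v)
  map_add' x y := by
    show ∑ T, (x.1 T + y.1 T) • toV G (prj T v) = _
    simp only [add_smul, Finset.sum_add_distrib]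
  map_smul' a x := by
    show ∑ T, (a * x.1 T) • toV G (prj T v) = _
    simp only [mul_smul, Finset.smul_sum, RingHom.id_apply]

theorem al_single (v : EE G) (hv : op (PP fun _ => 1 / 2) v = v) (T : Finset V) :
    al v T.card (ch1 T) = toV G (prj T v) := by
  show ∑ S, (Pi.single T (pR G T) : Finset V → RW G) S • toV G (prj S v) = _
  rw [Finset.sum_eq_single T]
  · rw [Pi.single_eq_same, smul_toV, Th_pR]
    have h1 := prj_PP (fun _ => 1 / 2) v T
    rw [hv] at h1
    rw [← h1]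
  · intro S _ hS
    rw [Pi.single_eq_of_ne hS, zero_smul]
  · intro h
    exact absurd (Finset.mem_univ T) h

theorem zsmul_toV (m : ℤ) (a : RW G) (v : Hl (W G)) : (m • a) • toV G v = a • toV G (m • v) := by
  rw [map_zsmul, smul_assoc, smul_comm]

theorem al_d (v : EE G) (hd : op (Dm fun _ => 1 / 2) v = 0) (n : ℕ) (x : Ch G (n + 1)) :
    al v n ((Dav G).d n x) = 0 := by
  show ∑ T, (∑ T', inc T T' • x.1 T') • toV G (prj T v) = 0
  have h1 : ∀ T' : Finset V, ∑ T, (inc T T' • x.1 T') • toV G (prj T v) = 0 := by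
    intro T'
    have h2 := prj_Dm (fun _ => 1 / 2) v T'
    rw [hd, map_zero] at h2
    have h3 : pR G T' • toV G (∑ T, inc T T' • prj T v) = 0 := by
      rw [smul_toV, Th_pR, ← h2, map_zero]
    rw [Finset.sum_congr rfl fun T _ => zsmul_toV (inc T T') (x.1 T') (prj T v), ← Finset.smul_sum, ← map_sum,
      ← (x.2 T').1, mul_smul, h3, smul_zero]
  have h5 : ∀ T : Finset V, (∑ T', inc T T' • x.1 T') • toV G (prj T v) =
      ∑ T', (inc T T' • x.1 T') • toV G (prj T v) := fun T => Finset.sum_smul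
  rw [Finset.sum_congr rfl fun T _ => h5 T, Finset.sum_comm]
  exact Finset.sum_eq_zero fun T' _ => h1 T'

/-- the main theorem -/
theorem main [Γ.FiniteIndex] (X : FinRes Γ) : ∃ i, Nontrivial (X.homology (toRed Γ) i) := by
  classical
  by_contra hcon
  push Not at hcon
  obtain ⟨h0, h1⟩ := hypDav X hcon
  refine not_exact (G := G) (fun _ => 1 / 2) (fun _ => by norm_num) (fun _ => by norm_num) fun v hv hd => ?_
  have h2 := fun n => h1 n (al v (n + 1)) (al_d v hd (n + 1))
  choose β hβ using h2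
  have h3 : al v 0 = 0 := h0 (al v 0) (al_d v hd 0)
  obtain ⟨u, hu⟩ : ∃ u : EE G, ∀ T, toV G (prj T u) = β T.card (ch1 T) :=
    ⟨WithLp.toLp 2 fun T => (toV G).symm (β T.card (ch1 T)), fun T => rfl⟩
  refine ⟨u, ee_ext fun T' => ?_⟩
  rw [prj_Dm]
  rcases T'.eq_empty_or_nonempty with hT' | hT'
  · have h4 : toV G (prj T' v) = 0 := by
      rw [← al_single v hv T', hT']
      exact LinearMap.congr_fun h3 (ch1 ∅)
    have h5 : (∑ T, inc T T' • prj T u : Hl (W G)) = 0 := by
      refine Finset.sum_eq_zero fun T _ => ?_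
      by_cases h : inc T T' = 0
      · rw [h, zero_smul]
      · obtain ⟨s, hs, h6⟩ := inc_ne h
        rw [hT'] at h6
        exact absurd h6.symm (Finset.insert_ne_empty s T)
    rw [h5, map_zero]
    exact h4.symm
  · obtain ⟨n, hn⟩ : ∃ n, T'.card = n + 1 := ⟨T'.card - 1, by have := hT'.card_pos; omega⟩
    obtain ⟨z, hz⟩ : ∃ z : Ch G (n + 1), z.1 = Pi.single T' (pR G T') := by
      rw [← hn]
      exact ⟨ch1 T', rfl⟩
    have h4 : al v (n + 1) z = toV G (prj T' v) := by
      rw [← al_single v hv T']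
      show ∑ T, z.1 T • toV G (prj T v) = ∑ T, (Pi.single T' (pR G T') : Finset V → RW G) T • toV G (prj T v)
      rw [hz]
    have h5 : ∀ T : Finset V, T.card = n → ∀ y : Ch G n, y.1 = Pi.single T (pR G T) → β n y = toV G (prj T u) := by
      intro T hT y hy
      rw [hu]
      subst hT
      congr 1
      exact Subtype.ext hy
    have hY' : ∀ T : Finset V, ∃ y : Ch G n, y.1 = if T.card = n then Pi.single T (pR G T) else 0 := by
      intro T
      by_cases h : T.card = n
      · rw [if_pos h]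
        exact ⟨⟨Pi.single T (pR G T), ch1_mem T h⟩, rfl⟩
      · rw [if_neg h]
        exact ⟨0, rfl⟩
    choose Y hY using hY'
    have h6 : (Dav G).d n z = ∑ T, (inc T T' • pR G T') • Y T := by
      refine Subtype.ext (funext fun S => ?_)
      show ∑ T'', inc S T'' • z.1 T'' = _
      have e1 : ((∑ T, (inc T T' • pR G T') • Y T : Ch G n).1 : Finset V → RW G) S =
          ∑ T, (inc T T' • pR G T') * (Y T).1 S := by
        rw [← Submodule.subtype_apply, map_sum, Finset.sum_apply]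
        rfl
      rw [hz, Finset.sum_eq_single T']
      · refine Eq.trans ?_ e1.symm
        rw [Finset.sum_eq_single S, Pi.single_eq_same, hY]
        · by_cases h : inc S T' = 0
          · rw [h, zero_smul, zero_mul]
          · obtain ⟨s, hs, h7⟩ := inc_ne h
            have h8 : S.card = n := by
              rw [h7, Finset.card_insert_of_notMem hs] at hn
              omega
            rw [if_pos h8, Pi.single_eq_same, smul_mul_assoc]
            congr 1
            show cp (ps_comm G) T' = cp (ps_comm G) T' * cp (ps_comm G) S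
            rw [h7, cp_sub (ps_comm G) (ps_idem G) hs]
        · intro T _ hT
          rw [hY]
          by_cases h : T.card = n
          · rw [if_pos h, Pi.single_eq_of_ne (Ne.symm hT), mul_zero]
          · rw [if_neg h, Pi.zero_apply, mul_zero]
        · intro h
          exact absurd (Finset.mem_univ S) h
      · intro T _ hT
        rw [Pi.single_eq_of_ne hT, smul_zero]
      · intro h
        exact absurd (Finset.mem_univ T') h
    have h7 : β n ((Dav G).d n z) = pR G T' • toV G (∑ T, inc T T' • prj T u) := by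
      rw [h6, map_sum (toV G), Finset.smul_sum]
      refine (map_sum (β n) _ _).trans ?_
      refine Finset.sum_congr rfl fun T _ => ?_
      refine (LinearMap.map_smul (β n) _ _).trans ?_
      by_cases h : inc T T' = 0
      · rw [h, zero_smul, zero_smul, zero_smul, map_zero, smul_zero]
      · obtain ⟨s, hs, h7⟩ := inc_ne h
        have h8 : T.card = n := by
          rw [h7, Finset.card_insert_of_notMem hs] at hn
          omega
        rw [h5 T h8 (Y T) (by rw [hY, if_pos h8]), zsmul_toV]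
    have h8 := (hβ n z).symm.trans h4
    rw [h7, smul_toV, Th_pR] at h8
    exact h8

end Pool.Agent.X250.ZS
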