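import Pool.Agent.X250.ZS.Mat

/-!
# No spectral gap
-/

set_option autoImplicit false
set_option linter.unusedSectionVars false

open scoped ENNReal InnerProductSpace

namespace Pool.Agent.X250.ZS

open Pool.Agent.W907.SG Pool.Agent.W461.SGN

section hilb

variable {E : Type} [NormedAddCommGroup E] [InnerProductSpace ℂ E]

/-- symmetric operators with `0 ≤ S ≤ r` -/
theorem norm_le_of_form {S : E →L[ℂ] E} (hS : ∀ x y, ⟪S x, y⟫_ℂ = ⟪x, S y⟫_ℂ) {r : ℝ} (hr : 0 < r)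
    (h0 : ∀ x, 0 ≤ (⟪S x, x⟫_ℂ).re) (h1 : ∀ x, (⟪S x, x⟫_ℂ).re ≤ r * ‖x‖ ^ 2) (x : E) : ‖S x‖ ≤ r * ‖x‖ := by
  have h2 := h0 ((r : ℂ) • x - S x)
  have h3 : ⟪S ((r : ℂ) • x - S x), (r : ℂ) • x - S x⟫_ℂ =
      r * r * ⟪S x, x⟫_ℂ - r * ⟪S x, S x⟫_ℂ - r * ⟪S x, S x⟫_ℂ + ⟪S (S x), S x⟫_ℂ := by
    rw [map_sub, map_smul, inner_sub_left, inner_sub_right, inner_sub_right, inner_smul_left, inner_smul_left,
      inner_smul_right, inner_smul_right, hS (S x) x, Complex.conj_ofReal]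
    ring
  rw [h3] at h2
  have h4 := h1 (S x)
  have h5 : (⟪S x, S x⟫_ℂ).re = ‖S x‖ ^ 2 := by
    rw [inner_self_eq_norm_sq_to_K]
    norm_cast
  have h6 : ((r : ℂ) * r * ⟪S x, x⟫_ℂ - r * ⟪S x, S x⟫_ℂ - r * ⟪S x, S x⟫_ℂ + ⟪S (S x), S x⟫_ℂ).re =
      r * r * (⟪S x, x⟫_ℂ).re - r * ‖S x‖ ^ 2 - r * ‖S x‖ ^ 2 + (⟪S (S x), S x⟫_ℂ).re := by
    rw [← h5]
    simp [Complex.mul_re, Complex.add_re, Complex.sub_re]
  rw [h6] at h2
  have h7 := h1 x
  have h8 : r * ‖S x‖ ^ 2 ≤ r * (r ^ 2 * ‖x‖ ^ 2) := by nlinarith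
  have h9 : ‖S x‖ ^ 2 ≤ (r * ‖x‖) ^ 2 := by
    rw [mul_pow]
    exact le_of_mul_le_mul_left h8 hr
  exact le_of_sq_le_sq h9 (by positivity)

theorem inner_self' (z : E) : ⟪z, z⟫_ℂ = ((‖z‖ ^ 2 : ℝ) : ℂ) := by
  rw [inner_self_eq_norm_sq_to_K]
  push_cast
  rfl

theorem re_form (p d K : ℝ) : (((p ^ 2 : ℝ) : ℂ) - ((K⁻¹ : ℝ) : ℂ) * ((d ^ 2 : ℝ) : ℂ)).re = p ^ 2 - K⁻¹ * d ^ 2 := by
  rw [← Complex.ofReal_mul, ← Complex.ofReal_sub, Complex.ofReal_re]

theorem real_low {K B p d c : ℝ} (hK0 : 0 < K) (hK : K = B ^ 2 + c ^ 2 + 1) (hd : 0 ≤ d) (h : d ≤ B * p) :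
    0 ≤ p ^ 2 - K⁻¹ * d ^ 2 := by
  have h3 : d ^ 2 ≤ K * p ^ 2 := by
    have h4 : d ^ 2 ≤ (B * p) ^ 2 := pow_le_pow_left₀ hd h 2
    rw [mul_pow] at h4
    refine h4.trans (mul_le_mul_of_nonneg_right ?_ (by positivity))
    rw [hK]
    have := sq_nonneg c
    linarith
  have h5 : K⁻¹ * d ^ 2 ≤ p ^ 2 := by
    rw [inv_mul_le_iff₀ hK0]
    exact h3
  linarith

theorem real_up {K c p d n r : ℝ} (hK0 : 0 < K) (hc : 0 < c) (hr : r = 1 - K⁻¹ * c ^ 2) (hr0 : 0 < r) (hp : 0 ≤ p)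
    (hpn : p ≤ n) (h : c * p ≤ d) : p ^ 2 - K⁻¹ * d ^ 2 ≤ r * n ^ 2 := by
  have h2 : c ^ 2 * p ^ 2 ≤ d ^ 2 := by
    rw [← mul_pow]
    exact pow_le_pow_left₀ (mul_nonneg hc.le hp) h 2
  have h3 : p ^ 2 ≤ n ^ 2 := pow_le_pow_left₀ hp hpn 2
  have h4 : K⁻¹ * (c ^ 2 * p ^ 2) ≤ K⁻¹ * d ^ 2 := mul_le_mul_of_nonneg_left h2 (by positivity)
  have h5 : r * p ^ 2 ≤ r * n ^ 2 := mul_le_mul_of_nonneg_left h3 hr0.le
  have h6 : r * p ^ 2 = p ^ 2 - K⁻¹ * (c ^ 2 * p ^ 2) := by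
    rw [hr]
    ring
  linarith

theorem le_of_sq_le_mul {a b : ℝ} (_ : 0 ≤ a) (hb : 0 ≤ b) (h : a ^ 2 ≤ b * a) : a ≤ b := by
  by_contra hcon
  push Not at hcon
  nlinarith

end hilb

variable {V : Type} {G : SimpleGraph V} [Fintype V] [LinearOrder V]

/-- the Hilbert space of all families -/
abbrev EE (G : SimpleGraph V) : Type := PiLp 2 fun _ : Finset V => Hl (W G)

/-- the inclusion of a summand -/
noncomputable def inj (T : Finset V) : Hl (W G) →L[ℂ] EE G :=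
  ((PiLp.continuousLinearEquiv 2 ℂ fun _ : Finset V => Hl (W G)).symm : _ →L[ℂ] EE G) ∘L
    ContinuousLinearMap.single ℂ (fun _ : Finset V => Hl (W G)) T

/-- the projection to a summand -/
noncomputable def prj (T : Finset V) : EE G →L[ℂ] Hl (W G) := PiLp.proj 2 (fun _ : Finset V => Hl (W G)) T

theorem prj_inj (T S : Finset V) (f : Hl (W G)) : prj S (inj T f) = if S = T then f else 0 := by
  show (Pi.single T f : Finset V → Hl (W G)) S = _
  by_cases h : S = T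
  · subst h
    rw [Pi.single_eq_same, if_pos rfl]
  · rw [Pi.single_eq_of_ne h, if_neg h]

/-- the operator of a matrix -/
noncomputable def op (X : Mt G) : EE G →L[ℂ] EE G := ∑ T, ∑ T', inj T ∘L X T T' ∘L prj T'

theorem ee_ext {u v : EE G} (h : ∀ T, prj T u = prj T v) : u = v := PiLp.ext h

theorem prj_op (X : Mt G) (v : EE G) (T : Finset V) : prj T (op X v) = ∑ T', X T T' (prj T' v) := by
  unfold op
  rw [sum_apply, map_sum, Finset.sum_eq_single T]
  · rw [sum_apply, map_sum]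
    refine Finset.sum_congr rfl fun T' _ => ?_
    show prj T (inj T (X T T' (prj T' v))) = _
    rw [prj_inj, if_pos rfl]
  · intro S _ hS
    rw [sum_apply, map_sum]
    refine Finset.sum_eq_zero fun T' _ => ?_
    show prj T (inj S (X S T' (prj T' v))) = _
    rw [prj_inj, if_neg (Ne.symm hS)]
  · intro h
    exact absurd (Finset.mem_univ T) h

theorem op_mul (X Y : Mt G) : op (X * Y) = op X ∘L op Y := by
  refine ContinuousLinearMap.ext fun v => ee_ext fun T => ?_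
  show prj T (op (X * Y) v) = prj T (op X (op Y v))
  rw [prj_op, prj_op]
  simp only [prj_op, Matrix.mul_apply, map_sum, sum_apply]
  rw [Finset.sum_comm]
  rfl

theorem op_sub (X Y : Mt G) : op (X - Y) = op X - op Y := by
  refine ContinuousLinearMap.ext fun v => ee_ext fun T => ?_
  show prj T (op (X - Y) v) = prj T (op X v - op Y v)
  rw [map_sub, prj_op, prj_op, prj_op, ← Finset.sum_sub_distrib]
  rfl

theorem op_smul (c : ℂ) (X : Mt G) : op (c • X) = c • op X := by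
  refine ContinuousLinearMap.ext fun v => ee_ext fun T => ?_
  show prj T (op (c • X) v) = prj T (c • op X v)
  rw [map_smul, prj_op, prj_op, Finset.smul_sum]
  rfl

theorem inner_ee (u v : EE G) : ⟪u, v⟫_ℂ = ∑ T, ⟪prj T u, prj T v⟫_ℂ := PiLp.inner_apply u v

/-- symmetric matrices -/
theorem op_symm {X : Mt G} (h : ∀ T T' f g, ⟪X T T' f, g⟫_ℂ = ⟪f, X T' T g⟫_ℂ) (u v : EE G) :
    ⟪op X u, v⟫_ℂ = ⟪u, op X v⟫_ℂ := by
  rw [inner_ee, inner_ee]
  simp only [prj_op, sum_inner, inner_sum, h]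
  rw [Finset.sum_comm]

theorem PP_symm (x : V → ℝ) (u v : EE G) : ⟪op (PP x) u, v⟫_ℂ = ⟪u, op (PP x) v⟫_ℂ := by
  refine op_symm (fun T T' f g => ?_) u v
  unfold PP
  by_cases h : T = T'
  · subst h
    rw [Matrix.diagonal_apply_eq, inner_pT]
  · rw [Matrix.diagonal_apply_ne _ h, Matrix.diagonal_apply_ne _ (Ne.symm h)]
    show ⟪(0 : Hl (W G)), g⟫_ℂ = ⟪f, (0 : Hl (W G))⟫_ℂ
    rw [inner_zero_left, inner_zero_right]

theorem DD_symm (x : V → ℝ) (u v : EE G) : ⟪op (DD x) u, v⟫_ℂ = ⟪u, op (DD x) v⟫_ℂ := by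
  refine op_symm (fun T T' f g => ?_) u v
  rw [DD_apply, DD_apply, add_apply, add_apply, smul_apply, smul_apply, smul_apply, smul_apply, inner_add_left,
    inner_add_right, inner_smul_left, inner_smul_left, inner_smul_right, inner_smul_right, inner_pT, inner_pT,
    map_intCast, map_intCast]
  ring

/-- the base vectors -/
noncomputable def bs (T : Finset V) : EE G := inj T dl

theorem norm_bs (T : Finset V) : ‖(bs T : EE G)‖ = 1 := by
  have h : (bs T : EE G) = PiLp.single 2 T (dl : Hl (W G)) := rfl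
  rw [h, PiLp.norm_single, norm_dl]

theorem Tr_bs (X : Mt G) (T : Finset V) : ⟪(bs T : EE G), op X (bs T)⟫_ℂ = Tr (X T T) := by
  rw [inner_ee, Finset.sum_eq_single T]
  · rw [prj_op, Finset.sum_eq_single T]
    · unfold bs
      rw [prj_inj, if_pos rfl, inner_dl]
      rfl
    · intro S _ hS
      unfold bs
      rw [prj_inj, if_neg hS, map_zero]
    · intro h
      exact absurd (Finset.mem_univ T) h
  · intro S _ hS
    unfold bs
    rw [prj_inj, if_neg hS, inner_zero_left]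
  · intro h
    exact absurd (Finset.mem_univ T) h

theorem Tr_le {X : Mt G} {r : ℝ} (h : ∀ v, ‖op X v‖ ≤ r * ‖v‖) (T : Finset V) : ‖Tr (X T T)‖ ≤ r := by
  rw [← Tr_bs]
  refine (norm_inner_le_norm _ _).trans ?_
  rw [norm_bs, one_mul]
  have := h (bs T)
  rwa [norm_bs, mul_one] at this

theorem op_pow_le {X : Mt G} {r : ℝ} (hr : 0 ≤ r) (h : ∀ v, ‖op X v‖ ≤ r * ‖v‖) (N : ℕ) (v : EE G) :
    ‖op (X ^ (N + 1)) v‖ ≤ r ^ (N + 1) * ‖v‖ := by
  induction N with
  | zero =>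
    rw [zero_add, pow_one, pow_one]
    exact h v
  | succ N ih =>
    rw [pow_succ' X, op_mul]
    show ‖op X (op (X ^ (N + 1)) v)‖ ≤ _
    refine (h _).trans ?_
    rw [pow_succ' r, mul_assoc]
    exact mul_le_mul_of_nonneg_left ih hr

/-- a spectral gap implies that the Euler characteristic vanishes -/
theorem str_zero {x : V → ℝ} (h0 : ∀ s, 0 ≤ x s) (h1 : ∀ s, x s ≤ 1) {c : ℝ} (hc : 0 < c)
    (hgap : ∀ v : EE G, c * ‖op (PP x) v‖ ≤ ‖op (DD x) v‖) : Str (PP (G := G) x) = 0 := by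
  obtain ⟨K, hK⟩ : ∃ K : ℝ, K = ‖op (DD (G := G) x)‖ ^ 2 + c ^ 2 + 1 := ⟨_, rfl⟩
  have hK0 : 0 < K := by rw [hK]; positivity
  obtain ⟨r, hr⟩ : ∃ r : ℝ, r = 1 - K⁻¹ * c ^ 2 := ⟨_, rfl⟩
  have hr0 : 0 < r := by
    have h2 : K⁻¹ * c ^ 2 < 1 := by
      rw [inv_mul_lt_iff₀ hK0, mul_one, hK]
      have := sq_nonneg ‖op (DD (G := G) x)‖
      linarith
    linarith
  have hr1 : r < 1 := by
    have : 0 < K⁻¹ * c ^ 2 := by positivity
    linarith
  have hP2 : ∀ v : EE G, op (PP x) (op (PP x) v) = op (PP x) v := by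
    intro v
    have := congrArg (fun T : EE G →L[ℂ] EE G => T v) (op_mul (PP x) (PP (G := G) x))
    rw [PP_PP h0 h1] at this
    exact this.symm
  have hDP : ∀ v : EE G, op (DD x) (op (PP x) v) = op (DD x) v := by
    intro v
    have := congrArg (fun T : EE G →L[ℂ] EE G => T v) (op_mul (DD x) (PP (G := G) x))
    rw [DD_PP h0 h1] at this
    exact this.symm
  have hPn : ∀ v : EE G, ‖op (PP x) v‖ ≤ ‖v‖ := by
    intro v
    have h2 : ⟪op (PP x) v, op (PP x) v⟫_ℂ = ⟪v, op (PP x) v⟫_ℂ := by rw [PP_symm, hP2]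
    have h3 : ‖op (PP x) v‖ ^ 2 ≤ ‖v‖ * ‖op (PP x) v‖ := by
      have h4 : (‖op (PP x) v‖ : ℝ) ^ 2 = ‖⟪op (PP x) v, op (PP x) v⟫_ℂ‖ := by
        rw [inner_self', Complex.norm_real, Real.norm_of_nonneg (sq_nonneg _)]
      rw [h4, h2]
      exact norm_inner_le_norm _ _
    exact le_of_sq_le_mul (norm_nonneg _) (norm_nonneg _) h3
  have hform : ∀ v : EE G, (⟪op (SS x K⁻¹) v, v⟫_ℂ).re = ‖op (PP x) v‖ ^ 2 - K⁻¹ * ‖op (DD x) v‖ ^ 2 := by
    intro v
    have e1 : op (SS x K⁻¹) v = op (PP x) v - (K⁻¹ : ℂ) • op (DD x) (op (DD x) v) := by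
      unfold SS
      rw [op_sub, op_smul, op_mul]
      push_cast
      rfl
    have e2 : ⟪op (PP x) v, v⟫_ℂ = ⟪op (PP x) v, op (PP x) v⟫_ℂ := by
      rw [← PP_symm, hP2]
    have e3 : ⟪op (DD x) (op (DD x) v), v⟫_ℂ = ⟪op (DD x) v, op (DD x) v⟫_ℂ := DD_symm x _ _
    have e4 : (starRingEnd ℂ) ((K : ℂ)⁻¹) = ((K⁻¹ : ℝ) : ℂ) := by
      rw [← Complex.ofReal_inv, Complex.conj_ofReal]
    rw [e1, inner_sub_left, inner_smul_left, e2, e3, inner_self', inner_self', e4]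
    exact re_form _ _ _
  have hSn : ∀ v : EE G, ‖op (SS x K⁻¹) v‖ ≤ r * ‖v‖ := by
    refine norm_le_of_form ?_ hr0 ?_ ?_
    · intro u v
      unfold SS
      rw [op_sub, op_smul, op_mul, sub_apply, sub_apply, smul_apply, smul_apply, inner_sub_left, inner_sub_right,
        inner_smul_left, inner_smul_right, PP_symm, Complex.conj_ofReal]
      show _ - _ * ⟪op (DD x) (op (DD x) u), v⟫_ℂ = _ - _ * ⟪u, op (DD x) (op (DD x) v)⟫_ℂ
      rw [DD_symm, DD_symm]
    · intro v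
      rw [hform]
      have h2 : ‖op (DD x) v‖ ≤ ‖op (DD (G := G) x)‖ * ‖op (PP x) v‖ := by
        rw [← hDP v]
        exact ContinuousLinearMap.le_opNorm _ _
      exact real_low hK0 hK (norm_nonneg _) h2
    · intro v
      rw [hform]
      exact real_up hK0 hc hr hr0 (norm_nonneg _) (hPn v) (hgap v)
  have hbound : ∀ N : ℕ, ‖Str (PP (G := G) x)‖ ≤ Fintype.card (Finset V) * r ^ (N + 1) := by
    intro N
    rw [← Str_SS h0 h1 K⁻¹ N]
    unfold Str
    refine (norm_sum_le _ _).trans ?_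
    rw [← nsmul_eq_mul, ← Finset.card_univ, ← Finset.sum_const]
    refine Finset.sum_le_sum fun T _ => ?_
    rw [norm_mul, norm_pow, norm_neg, norm_one, one_pow, one_mul]
    exact Tr_le (op_pow_le hr0.le hSn N) T
  have hlim : Filter.Tendsto (fun N : ℕ => (Fintype.card (Finset V) : ℝ) * r ^ (N + 1)) Filter.atTop (nhds 0) := by
    have h2 := (tendsto_pow_atTop_nhds_zero_of_lt_one hr0.le hr1).comp (Filter.tendsto_add_atTop_nat 1)
    have h3 := h2.const_mul (Fintype.card (Finset V) : ℝ)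
    rw [mul_zero] at h3
    exact h3
  have h4 : ‖Str (PP (G := G) x)‖ ≤ 0 := ge_of_tendsto' hlim hbound
  exact norm_le_zero_iff.1 h4

theorem op_cont {α : Type} [TopologicalSpace α] (X : α → Mt G) (hX : ∀ T T', Continuous fun a => X a T T') :
    Continuous fun a => op (X a) := by
  unfold op
  refine continuous_finsetSum _ fun T _ => continuous_finsetSum _ fun T' _ => ?_
  exact continuous_const.clm_comp ((hX T T').clm_comp continuous_const)

/-- there is no spectral gap -/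
theorem no_gap (μ : V → ℝ) (h0 : ∀ s, 0 < μ s) (h1 : ∀ s, μ s < 1) {c : ℝ} (hc : 0 < c)
    (hgap : ∀ v : EE G, c * ‖op (PP μ) v‖ ≤ ‖op (DD μ) v‖) : False := by
  classical
  have hPc : Continuous fun a : ℝ => op (PP (G := G) fun s => a * μ s) := by
    refine op_cont _ fun T T' => ?_
    unfold PP
    by_cases h : T = T'
    · subst h
      simp only [Matrix.diagonal_apply_eq]
      exact pT_cont (fun a s => a * μ s) (fun s => by fun_prop) T
    · simp only [Matrix.diagonal_apply_ne _ h]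
      exact continuous_const
  have hDc : Continuous fun a : ℝ => op (DD (G := G) fun s => a * μ s) := by
    refine op_cont _ fun T T' => ?_
    simp only [DD_apply]
    have e1 := pT_cont (G := G) (fun (a : ℝ) s => a * μ s) (fun s => by fun_prop) T
    have e2 := pT_cont (G := G) (fun (a : ℝ) s => a * μ s) (fun s => by fun_prop) T'
    exact (Continuous.const_smul e2 ((inc T T' : ℤ) : ℂ)).add (Continuous.const_smul e1 ((inc T' T : ℤ) : ℂ))
  have hone : (fun s => (1 : ℝ) * μ s) = μ := by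
    funext s
    rw [one_mul]
  obtain ⟨η, hη⟩ : ∃ η : ℝ, η = c / (2 * (c + 1)) := ⟨_, rfl⟩
  have hη0 : 0 < η := by rw [hη]; positivity
  have hP1 := Metric.continuous_iff.1 hPc 1 η hη0
  have hD1 := Metric.continuous_iff.1 hDc 1 η hη0
  obtain ⟨δ1, hδ1, hP2⟩ := hP1
  obtain ⟨δ2, hδ2, hD2⟩ := hD1
  obtain ⟨δ, hδ⟩ : ∃ δ : ℝ, δ = min (min δ1 δ2) 1 := ⟨_, rfl⟩
  have hδ0 : 0 < δ := by rw [hδ]; positivity
  have hδ1' : δ ≤ δ1 := by rw [hδ]; exact (min_le_left _ _).trans (min_le_left _ _)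
  have hδ2' : δ ≤ δ2 := by rw [hδ]; exact (min_le_left _ _).trans (min_le_right _ _)
  have hδ3 : δ ≤ 1 := by rw [hδ]; exact min_le_right _ _
  have key : ∀ a : ℝ, 1 - δ < a → a < 1 → Str (PP (G := G) fun s => a * μ s) = 0 := by
    intro a ha1 ha2
    have ha0 : 0 < a := by linarith
    have hdist : dist a 1 < δ := by
      rw [Real.dist_eq, abs_lt]
      constructor <;> linarith
    have e1 := hP2 a (hdist.trans_le hδ1')
    have e2 := hD2 a (hdist.trans_le hδ2')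
    rw [dist_eq_norm, hone] at e1 e2
    have x0 : ∀ s, 0 ≤ a * μ s := fun s => mul_nonneg ha0.le (h0 s).le
    have x1 : ∀ s, a * μ s ≤ 1 := fun s => by nlinarith [h0 s, h1 s]
    refine str_zero x0 x1 (c := c / 2) (by positivity) fun v => ?_
    obtain ⟨y, hy⟩ : ∃ y : EE G, y = op (PP fun s => a * μ s) v := ⟨_, rfl⟩
    have hPy : op (PP fun s => a * μ s) y = y := by
      have := congrArg (fun T : EE G →L[ℂ] EE G => T v) (op_mul (PP fun s => a * μ s) (PP (G := G) fun s => a * μ s))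
      rw [PP_PP x0 x1] at this
      rw [hy]
      exact this.symm
    have hDy : op (DD fun s => a * μ s) y = op (DD fun s => a * μ s) v := by
      have := congrArg (fun T : EE G →L[ℂ] EE G => T v) (op_mul (DD fun s => a * μ s) (PP (G := G) fun s => a * μ s))
      rw [DD_PP x0 x1] at this
      rw [hy]
      exact this.symm
    rw [← hDy, ← hy]
    have f1 : ‖op (PP fun s => a * μ s) y - op (PP μ) y‖ ≤ η * ‖y‖ :=
      ((op (PP fun s => a * μ s) - op (PP (G := G) μ)).le_opNorm y).trans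
        (mul_le_mul_of_nonneg_right e1.le (norm_nonneg _))
    have f2 : ‖op (DD fun s => a * μ s) y - op (DD μ) y‖ ≤ η * ‖y‖ :=
      ((op (DD fun s => a * μ s) - op (DD (G := G) μ)).le_opNorm y).trans
        (mul_le_mul_of_nonneg_right e2.le (norm_nonneg _))
    rw [hPy] at f1
    have f3 : ‖y‖ ≤ ‖y - op (PP μ) y‖ + ‖op (PP μ) y‖ := by
      have := norm_add_le (y - op (PP μ) y) (op (PP μ) y)
      rwa [sub_add_cancel] at this
    have f4 : ‖op (DD μ) y‖ ≤ ‖op (DD fun s => a * μ s) y - op (DD μ) y‖ + ‖op (DD fun s => a * μ s) y‖ := by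
      have := norm_sub_le (op (DD fun s => a * μ s) y) (op (DD fun s => a * μ s) y - op (DD μ) y)
      rw [sub_sub_cancel] at this
      linarith
    have f5 := hgap y
    have f6 : c * ‖y‖ ≤ c * (η * ‖y‖) + c * ‖op (PP μ) y‖ := by
      have := mul_le_mul_of_nonneg_left f3 hc.le
      have := mul_le_mul_of_nonneg_left f1 hc.le
      linarith
    have f7 : (c + 1) * η * ‖y‖ = c / 2 * ‖y‖ := by
      rw [hη]
      field_simp
    linarith
  obtain ⟨Q, hQ⟩ : ∃ Q : Polynomial ℝ, Q = ∑ T ∈ Finset.univ.filter (fun T : Finset V => G.IsClique (T : Set V)),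
      Polynomial.C ((-1) ^ T.card * ∏ s ∈ T, μ s) * Polynomial.X ^ T.card := ⟨_, rfl⟩
  have hQe : ∀ a : ℝ, Q.eval a =
      ∑ T ∈ Finset.univ.filter (fun T : Finset V => G.IsClique (T : Set V)), (-1) ^ T.card * ∏ s ∈ T, (a * μ s) := by
    intro a
    rw [hQ, Polynomial.eval_finsetSum]
    refine Finset.sum_congr rfl fun T _ => ?_
    rw [Polynomial.eval_mul, Polynomial.eval_C, Polynomial.eval_pow, Polynomial.eval_X, Finset.prod_mul_distrib,
      Finset.prod_const]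
    ring
  have hQ0 : Q = 0 := by
    refine Polynomial.eq_zero_of_infinite_isRoot Q ?_
    refine (Set.Ioo_infinite (show 1 - δ < 1 by linarith)).mono ?_
    intro a ha
    show Q.eval a = 0
    have h2 := key a ha.1 ha.2
    rw [Str_PP] at h2
    rw [hQe]
    convert (Complex.ofReal_eq_zero.1 h2)
  have h3 : Q.eval 0 = 1 := by
    rw [hQe, Finset.sum_eq_single ∅]
    · simp
    · intro T _ hT
      obtain ⟨s, hs⟩ := Finset.nonempty_iff_ne_empty.2 hT
      rw [Finset.prod_eq_zero hs (by rw [zero_mul]), mul_zero]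
    · intro h
      exact absurd (Finset.mem_filter.2 ⟨Finset.mem_univ _, by simp⟩) h
  rw [hQ0, Polynomial.eval_zero] at h3
  exact zero_ne_one h3

end Pool.Agent.X250.ZS
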