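import Pool.Agent.X250.ZS.Cocy

/-!
# Operators on `ℓ²`
-/

set_option autoImplicit false
set_option linter.unusedSectionVars false

open scoped ENNReal InnerProductSpace

namespace Pool.Agent.X250.ZS

open Pool.Agent.W907.SG Pool.Agent.W461.SGN

/-- the Hilbert space of the square summable functions -/
abbrev Hl (ι : Type) : Type := lp (fun _ : ι => ℂ) 2

section gen

variable {ι : Type}

theorem two_pos' : 0 < (2 : ℝ≥0∞).toReal := by norm_num

theorem mem_comp (σ : Equiv.Perm ι) (f : Hl ι) : Memℓp (fun i => (f : ι → ℂ) (σ i)) 2 := by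
  have hf := lp.memℓp f
  rw [memℓp_gen_iff two_pos'] at hf ⊢
  exact hf.comp_injective σ.injective

open Classical in
theorem mem_cut (A : Set ι) (f : Hl ι) : Memℓp (fun i => if i ∈ A then (f : ι → ℂ) i else 0) 2 := by
  have hf := lp.memℓp f
  rw [memℓp_gen_iff two_pos'] at hf ⊢
  refine Summable.of_nonneg_of_le (fun i => by positivity) (fun i => ?_) hf
  by_cases h : i ∈ A
  · rw [if_pos h]
  · rw [if_neg h, norm_zero, Real.zero_rpow (by norm_num)]
    positivity

/-- composition with a permutation -/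
noncomputable def tr (σ : Equiv.Perm ι) : Hl ι →L[ℂ] Hl ι :=
  LinearMap.mkContinuous
    { toFun := fun f => (⟨fun i => (f : ι → ℂ) (σ i), mem_comp σ f⟩ : Hl ι)
      map_add' := fun _ _ => rfl
      map_smul' := fun _ _ => rfl } 1 (fun f => by
      rw [one_mul]
      refine le_of_eq ?_
      rw [lp.norm_eq_tsum_rpow two_pos', lp.norm_eq_tsum_rpow two_pos']
      congr 1
      exact σ.tsum_eq (fun i => ‖(f : ι → ℂ) i‖ ^ (2 : ℝ≥0∞).toReal))

theorem tr_apply (σ : Equiv.Perm ι) (f : Hl ι) (i : ι) : (tr σ f : ι → ℂ) i = (f : ι → ℂ) (σ i) := rfl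

open Classical in
/-- multiplication with an indicator function -/
noncomputable def cut (A : Set ι) : Hl ι →L[ℂ] Hl ι :=
  LinearMap.mkContinuous
    { toFun := fun f => (⟨fun i => if i ∈ A then (f : ι → ℂ) i else 0, mem_cut A f⟩ : Hl ι)
      map_add' := fun f g => by
        refine Subtype.ext (funext fun i => ?_)
        show (if i ∈ A then (f : ι → ℂ) i + (g : ι → ℂ) i else 0) = (if i ∈ A then (f : ι → ℂ) i else 0) +
          if i ∈ A then (g : ι → ℂ) i else 0
        split_ifs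
        · rfl
        · rw [add_zero]
      map_smul' := fun c f => by
        refine Subtype.ext (funext fun i => ?_)
        show (if i ∈ A then c * (f : ι → ℂ) i else 0) = c * (if i ∈ A then (f : ι → ℂ) i else 0)
        split_ifs
        · rfl
        · rw [mul_zero] } 1 (fun f => by
      rw [one_mul]
      rw [lp.norm_eq_tsum_rpow two_pos', lp.norm_eq_tsum_rpow two_pos']
      have hf := (memℓp_gen_iff two_pos').1 (lp.memℓp f)
      have hf' := (memℓp_gen_iff two_pos').1 (mem_cut A f)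
      refine Real.rpow_le_rpow (tsum_nonneg fun i => by positivity) ?_ (by norm_num)
      refine Summable.tsum_le_tsum (fun i => ?_) hf' hf
      show ‖if i ∈ A then (f : ι → ℂ) i else 0‖ ^ (2 : ℝ≥0∞).toReal ≤ ‖(f : ι → ℂ) i‖ ^ (2 : ℝ≥0∞).toReal
      by_cases h : i ∈ A
      · rw [if_pos h]
      · rw [if_neg h, norm_zero, Real.zero_rpow (by norm_num)]
        positivity)

open Classical in
theorem cut_apply (A : Set ι) (f : Hl ι) (i : ι) :
    (cut A f : ι → ℂ) i = if i ∈ A then (f : ι → ℂ) i else 0 := rfl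

/-- the off-diagonal coefficient -/
noncomputable def mm (x : ℝ) : ℝ := -Real.sqrt (x * (1 - x))

theorem mm_sq {x : ℝ} (h0 : 0 ≤ x) (h1 : x ≤ 1) : mm x * mm x = x * (1 - x) := by
  unfold mm
  rw [neg_mul_neg, Real.mul_self_sqrt (mul_nonneg h0 (by linarith))]

/-- the projection -/
noncomputable def pj (σ : Equiv.Perm ι) (A : Set ι) (x : ℝ) : Hl ι →L[ℂ] Hl ι :=
  (x : ℂ) • cut A + ((1 - x : ℝ) : ℂ) • cut Aᶜ + ((mm x : ℝ) : ℂ) • tr σ

open Classical in
/-- the diagonal coefficient -/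
noncomputable def kp (A : Set ι) (x : ℝ) (i : ι) : ℂ := if i ∈ A then (x : ℂ) else 1 - x

theorem pj_apply (σ : Equiv.Perm ι) (A : Set ι) (x : ℝ) (f : Hl ι) (i : ι) :
    (pj σ A x f : ι → ℂ) i = kp A x i * (f : ι → ℂ) i + (mm x : ℂ) * (f : ι → ℂ) (σ i) := by
  classical
  have e : (pj σ A x f : ι → ℂ) i = (x : ℂ) * (cut A f : ι → ℂ) i + ((1 - x : ℝ) : ℂ) * (cut Aᶜ f : ι → ℂ) i +
      ((mm x : ℝ) : ℂ) * (tr σ f : ι → ℂ) i := rfl
  rw [e, cut_apply, cut_apply, tr_apply]
  unfold kp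
  by_cases h : i ∈ A
  · have h' : i ∉ Aᶜ := fun h' => h' h
    rw [if_pos h, if_pos h, if_neg h']
    ring
  · have h' : i ∈ Aᶜ := h
    rw [if_neg h, if_neg h, if_pos h']
    push_cast
    ring

theorem kp_congr {A B : Set ι} {x : ℝ} {i j : ι} (h : i ∈ A ↔ j ∈ B) : kp A x i = kp B x j := by
  unfold kp
  by_cases h1 : i ∈ A
  · rw [if_pos h1, if_pos (h.1 h1)]
  · rw [if_neg h1, if_neg (fun h2 => h1 (h.2 h2))]

theorem kp_add {A : Set ι} {σ : Equiv.Perm ι} (hA : ∀ i, σ i ∈ A ↔ i ∉ A) (x : ℝ) (i : ι) :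
    kp A x i + kp A x (σ i) = 1 := by
  unfold kp
  by_cases h : i ∈ A
  · rw [if_pos h, if_neg (fun h' => (hA i).1 h' h)]
    ring
  · rw [if_neg h, if_pos ((hA i).2 h)]
    ring

theorem kp_mul {A : Set ι} {σ : Equiv.Perm ι} (hA : ∀ i, σ i ∈ A ↔ i ∉ A) {x : ℝ} (h0 : 0 ≤ x) (h1 : x ≤ 1) (i : ι) :
    kp A x i * kp A x (σ i) = (mm x : ℂ) * mm x := by
  have h2 : (mm x : ℂ) * mm x = x * (1 - x) := by exact_mod_cast mm_sq h0 h1
  rw [h2]
  unfold kp
  by_cases h : i ∈ A
  · rw [if_pos h, if_neg (fun h' => (hA i).1 h' h)]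
  · rw [if_neg h, if_pos ((hA i).2 h)]
    ring

theorem pj_idem {A : Set ι} {σ : Equiv.Perm ι} (hs : ∀ i, σ (σ i) = i) (hA : ∀ i, σ i ∈ A ↔ i ∉ A) {x : ℝ}
    (h0 : 0 ≤ x) (h1 : x ≤ 1) : pj σ A x * pj σ A x = pj σ A x := by
  refine ContinuousLinearMap.ext fun f => Subtype.ext (funext fun i => ?_)
  show (pj σ A x (pj σ A x f) : ι → ℂ) i = (pj σ A x f : ι → ℂ) i
  rw [pj_apply, pj_apply, pj_apply, hs]
  have h2 := kp_add hA x i
  have h3 := kp_mul hA h0 h1 i
  linear_combination ((f : ι → ℂ) i * kp A x i + (mm x : ℂ) * (f : ι → ℂ) (σ i)) * h2 - ((f : ι → ℂ) i) * h3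

theorem inner_tr (σ : Equiv.Perm ι) (hs : ∀ i, σ (σ i) = i) (f g : Hl ι) : ⟪tr σ f, g⟫_ℂ = ⟪f, tr σ g⟫_ℂ := by
  rw [lp.inner_eq_tsum, lp.inner_eq_tsum, ← σ.tsum_eq]
  refine tsum_congr fun i => ?_
  rw [tr_apply, tr_apply, hs]

theorem inner_cut (A : Set ι) (f g : Hl ι) : ⟪cut A f, g⟫_ℂ = ⟪f, cut A g⟫_ℂ := by
  classical
  rw [lp.inner_eq_tsum, lp.inner_eq_tsum]
  refine tsum_congr fun i => ?_
  rw [cut_apply, cut_apply]
  split_ifs
  · rfl
  · rw [inner_zero_left, inner_zero_right]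

theorem inner_pj {A : Set ι} {σ : Equiv.Perm ι} (hs : ∀ i, σ (σ i) = i) (x : ℝ) (f g : Hl ι) :
    ⟪pj σ A x f, g⟫_ℂ = ⟪f, pj σ A x g⟫_ℂ := by
  unfold pj
  simp only [add_apply, smul_apply, inner_add_left, inner_add_right,
    inner_smul_left, inner_smul_right, inner_cut, inner_tr σ hs, Complex.conj_ofReal]

end gen

/-! ### the two actions -/

section RA

variable {V : Type} (G : SimpleGraph V)

/-- right multiplication with a generator -/
noncomputable def rt (s : V) : Equiv.Perm (W G) := Equiv.mulRight (sm G s)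

/-- left multiplication with a generator -/
noncomputable def lt (s : V) : Equiv.Perm (W G) := Equiv.mulLeft (sm G s)

/-- the elements without the right descent `s` -/
def Ra (s : V) : Set (W G) := {w | nn G w (sm G s) = 0}

/-- the elements without the left descent `s` -/
def La (s : V) : Set (W G) := {w | nn G w⁻¹ (sm G s) = 0}

variable {G}

theorem rt_apply (s : V) (w : W G) : rt G s w = w * sm G s := rfl

theorem lt_apply (s : V) (w : W G) : lt G s w = sm G s * w := rfl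

theorem rt_rt (s : V) (w : W G) : rt G s (rt G s w) = w := by
  rw [rt_apply, rt_apply, mul_assoc, sm_sm, mul_one]

theorem lt_lt (s : V) (w : W G) : lt G s (lt G s w) = w := by
  rw [lt_apply, lt_apply, ← mul_assoc, sm_sm, one_mul]

theorem zm (a : ZMod 2) : a + 1 = 0 ↔ ¬ a = 0 := by revert a; decide

theorem Ra_rt (s : V) (w : W G) : rt G s w ∈ Ra G s ↔ w ∉ Ra G s := by
  show nn G (w * sm G s) (sm G s) = 0 ↔ ¬ nn G w (sm G s) = 0
  rw [nn_right_self]
  exact zm _

theorem La_lt (s : V) (w : W G) : lt G s w ∈ La G s ↔ w ∉ La G s := by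
  show nn G (sm G s * w)⁻¹ (sm G s) = 0 ↔ ¬ nn G w⁻¹ (sm G s) = 0
  rw [mul_inv_rev, sm_inv, nn_right_self]
  exact zm _

theorem Ra_lt (s t : V) (w : W G) (h : sm G t * w ≠ w * sm G s) : lt G t w ∈ Ra G s ↔ w ∈ Ra G s := by
  classical
  show nn G (sm G t * w) (sm G s) = 0 ↔ nn G w (sm G s) = 0
  rw [nn_left, if_neg h, add_zero]

theorem La_rt (s t : V) (w : W G) (h : sm G t * w ≠ w * sm G s) : rt G s w ∈ La G t ↔ w ∈ La G t := by
  classical
  show nn G (w * sm G s)⁻¹ (sm G t) = 0 ↔ nn G w⁻¹ (sm G t) = 0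
  have h1 : ¬ sm G s * w⁻¹ = w⁻¹ * sm G t := by
    intro h1
    apply h
    have h2 := congrArg (·⁻¹) h1
    simp only [mul_inv_rev, inv_inv, sm_inv] at h2
    exact h2.symm
  rw [mul_inv_rev, sm_inv, nn_left, if_neg h1, add_zero]

/-- the right projections -/
noncomputable def pr (x : V → ℝ) (s : V) : Hl (W G) →L[ℂ] Hl (W G) := pj (rt G s) (Ra G s) (x s)

/-- the left projections -/
noncomputable def pl (x : V → ℝ) (s : V) : Hl (W G) →L[ℂ] Hl (W G) := pj (lt G s) (La G s) (x s)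

theorem pr_idem {x : V → ℝ} (s : V) (h0 : 0 ≤ x s) (h1 : x s ≤ 1) : pr (G := G) x s * pr x s = pr x s :=
  pj_idem (rt_rt s) (Ra_rt s) h0 h1

theorem inner_pr (x : V → ℝ) (s : V) (f g : Hl (W G)) : ⟪pr x s f, g⟫_ℂ = ⟪f, pr x s g⟫_ℂ :=
  inner_pj (rt_rt s) _ f g

theorem inner_pl (x : V → ℝ) (s : V) (f g : Hl (W G)) : ⟪pl x s f, g⟫_ℂ = ⟪f, pl x s g⟫_ℂ :=
  inner_pj (lt_lt s) _ f g

theorem pr_comm (x : V → ℝ) (s t : V) (h : G.Adj s t) : pr (G := G) x s * pr x t = pr x t * pr x s := by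
  refine ContinuousLinearMap.ext fun f => Subtype.ext (funext fun w => ?_)
  show (pr x s (pr x t f) : W G → ℂ) w = (pr x t (pr x s f) : W G → ℂ) w
  unfold pr
  rw [pj_apply, pj_apply, pj_apply, pj_apply, pj_apply, pj_apply]
  have hc : sm G s * sm G t = sm G t * sm G s := simple_comm G s t h
  have h1 : rt G t (rt G s w) = rt G s (rt G t w) := by
    rw [rt_apply, rt_apply, rt_apply, rt_apply, mul_assoc, mul_assoc, hc]
  have h2 : kp (Ra G s) (x s) (rt G t w) = kp (Ra G s) (x s) w := by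
    have : rt G t w ∈ Ra G s ↔ w ∈ Ra G s := by
      show nn G (w * sm G t) (sm G s) = 0 ↔ nn G w (sm G s) = 0
      rw [nn_right_adj G w s t h]
    exact kp_congr this
  have h3 : kp (Ra G t) (x t) (rt G s w) = kp (Ra G t) (x t) w := by
    have : rt G s w ∈ Ra G t ↔ w ∈ Ra G t := by
      show nn G (w * sm G s) (sm G t) = 0 ↔ nn G w (sm G t) = 0
      rw [nn_right_adj G w t s h.symm]
    exact kp_congr this
  rw [h1, h2, h3]
  ring

theorem pr_pl (x : V → ℝ) (s t : V) : pr (G := G) x s * pl x t = pl x t * pr x s := by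
  refine ContinuousLinearMap.ext fun f => Subtype.ext (funext fun w => ?_)
  show (pr x s (pl x t f) : W G → ℂ) w = (pl x t (pr x s f) : W G → ℂ) w
  unfold pr pl
  rw [pj_apply, pj_apply, pj_apply, pj_apply, pj_apply, pj_apply]
  have h1 : lt G t (rt G s w) = rt G s (lt G t w) := by
    rw [rt_apply, lt_apply, rt_apply, lt_apply, mul_assoc]
  rw [h1]
  by_cases h : sm G t * w = w * sm G s
  · obtain rfl := conj_eq G h
    have h2 : lt G t w = rt G t w := h
    have h3 := kp_add (Ra_rt (G := G) t) (x t) w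
    have h4 := kp_add (La_lt (G := G) t) (x t) w
    have h5 : kp (Ra G t) (x t) w = kp (La G t) (x t) w := by
      have : w ∈ Ra G t ↔ w ∈ La G t := by
        show nn G w (sm G t) = 0 ↔ nn G w⁻¹ (sm G t) = 0
        rw [nn_inv G w t h]
      exact kp_congr this
    rw [h2] at h4 ⊢
    linear_combination ((mm (x t) : ℂ) * (f : W G → ℂ) (rt G t w)) * (h4 - h3 + 2 * h5)
  · have h2 : kp (Ra G s) (x s) (lt G t w) = kp (Ra G s) (x s) w := kp_congr (Ra_lt s t w h)
    have h3 : kp (La G t) (x t) (rt G s w) = kp (La G t) (x t) w := kp_congr (La_rt s t w h)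
    rw [h2, h3]
    ring

open Classical in
/-- the base vector -/
noncomputable def dl : Hl (W G) := lp.single 2 (1 : W G) (1 : ℂ)

open Classical in
theorem dl_apply (w : W G) : (dl : Hl (W G)) w = if w = 1 then 1 else 0 := by
  unfold dl
  rw [lp.single_apply]
  by_cases h : w = 1
  · subst h
    rw [Pi.single_eq_same, if_pos rfl]
  · rw [Pi.single_eq_of_ne h, if_neg h]

theorem inner_dl (f : Hl (W G)) : ⟪(dl : Hl (W G)), f⟫_ℂ = f 1 := by
  classical
  unfold dl
  rw [lp.inner_single_left]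
  simp

theorem norm_dl : ‖(dl : Hl (W G))‖ = 1 := by
  classical
  unfold dl
  rw [lp.norm_single (by norm_num)]
  simp

theorem pr_dl (x : V → ℝ) (s : V) : pr x s (dl : Hl (W G)) = pl x s dl := by
  classical
  refine Subtype.ext (funext fun w => ?_)
  unfold pr pl
  rw [pj_apply, pj_apply, dl_apply, dl_apply, dl_apply]
  have h1 : rt G s w = 1 ↔ lt G s w = 1 := by
    rw [rt_apply, lt_apply]
    exact mul_eq_one_iff_eq_inv.trans (by rw [sm_inv, mul_eq_one_iff_inv_eq, sm_inv]; exact eq_comm)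
  simp only [h1]
  by_cases h : w = 1
  · subst h
    have h2 : kp (Ra G s) (x s) (1 : W G) = kp (La G s) (x s) 1 := by
      have : (1 : W G) ∈ Ra G s ↔ (1 : W G) ∈ La G s := by
        show nn G 1 (sm G s) = 0 ↔ nn G 1⁻¹ (sm G s) = 0
        rw [inv_one]
      exact kp_congr this
    rw [h2]
  · rw [if_neg h]
    ring

end RA

end Pool.Agent.X250.ZS
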