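import Mathlib

/-!
# Comparison of resolutions
-/

set_option autoImplicit false
set_option linter.unusedSectionVars false

namespace Pool.Agent.X250.ZS

/-- a complex of modules -/
structure Cx (R : Type) [Ring R] where
  /-- the modules -/
  M : ℕ → Type
  [ac : ∀ n, AddCommGroup (M n)]
  [mo : ∀ n, Module R (M n)]
  /-- the differentials -/
  d : ∀ n, M (n + 1) →ₗ[R] M n
  dd : ∀ n x, d n (d (n + 1) x) = 0

attribute [instance] Cx.ac Cx.mo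

variable {R : Type} [Ring R]

/-- exactness in positive degrees -/
def Cx.Ex (C : Cx R) : Prop := ∀ n (x : C.M (n + 1)), C.d n x = 0 → ∃ y, C.d (n + 1) y = x

theorem lift1 {P Q Q' : Type} [AddCommGroup P] [Module R P] [AddCommGroup Q] [Module R Q] [AddCommGroup Q']
    [Module R Q'] [Module.Projective R P] (d : Q' →ₗ[R] Q) (g : P →ₗ[R] Q) (h : ∀ x, ∃ y, d y = g x) :
    ∃ g' : P →ₗ[R] Q', ∀ x, d (g' x) = g x := by
  obtain ⟨g', hg⟩ := Module.projective_lifting_property (d.rangeRestrict)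
    (g.codRestrict (LinearMap.range d) fun x => LinearMap.mem_range.2 (h x)) (LinearMap.surjective_rangeRestrict d)
  exact ⟨g', fun x => congrArg Subtype.val (LinearMap.congr_fun hg x)⟩

theorem exists_lift (C X : Cx R) (hP : ∀ n, Module.Projective R (C.M n)) (hX : X.Ex) (f0 : C.M 0 →ₗ[R] X.M 0)
    (h0 : ∀ x : C.M 1, ∃ y, X.d 0 y = f0 (C.d 0 x)) :
    ∃ f : ∀ n, C.M n →ₗ[R] X.M n, f 0 = f0 ∧ ∀ n x, X.d n (f (n + 1) x) = f n (C.d n x) := by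
  have step : ∀ n (f : {f : C.M n →ₗ[R] X.M n // ∀ x : C.M (n + 1), ∃ y, X.d n y = f (C.d n x)}),
      ∃ f' : {f : C.M (n + 1) →ₗ[R] X.M (n + 1) // ∀ x : C.M (n + 2), ∃ y, X.d (n + 1) y = f (C.d (n + 1) x)},
        ∀ x, X.d n (f'.1 x) = f.1 (C.d n x) := by
    intro n f
    have := hP (n + 1)
    obtain ⟨f', hf'⟩ := lift1 (X.d n) (f.1 ∘ₗ C.d n) f.2
    refine ⟨⟨f', fun x => hX n _ ?_⟩, hf'⟩
    rw [hf']
    show f.1 (C.d n (C.d (n + 1) x)) = 0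
    rw [C.dd, map_zero]
  choose S hS using step
  obtain ⟨F, hF⟩ : ∃ F : ∀ n, {f : C.M n →ₗ[R] X.M n // ∀ x : C.M (n + 1), ∃ y, X.d n y = f (C.d n x)},
      F = fun n => Nat.rec ⟨f0, h0⟩ (fun n f => S n f) n := ⟨_, rfl⟩
  have hF0 : F 0 = ⟨f0, h0⟩ := by
    rw [hF]
    rfl
  have hFs : ∀ n, F (n + 1) = S n (F n) := by
    intro n
    rw [hF]
  refine ⟨fun n => (F n).1, ?_, fun n x => ?_⟩
  · show (F 0).1 = f0
    rw [hF0]
  · show X.d n ((F (n + 1)).1 x) = (F n).1 (C.d n x)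
    rw [hFs, hS]

theorem exists_htpy (C : Cx R) (hP : ∀ n, Module.Projective R (C.M n)) (hC : C.Ex) (φ : ∀ n, C.M n →ₗ[R] C.M n)
    (hφ : ∀ n x, C.d n (φ (n + 1) x) = φ n (C.d n x)) (h0 : ∀ x, ∃ y, C.d 0 y = φ 0 x) :
    ∃ h : ∀ n, C.M n →ₗ[R] C.M (n + 1), (∀ x, C.d 0 (h 0 x) = φ 0 x) ∧
      ∀ n x, C.d (n + 1) (h (n + 1) x) + h n (C.d n x) = φ (n + 1) x := by
  have step : ∀ n (h : {h : C.M n →ₗ[R] C.M (n + 1) // ∀ x : C.M (n + 1), C.d n (h (C.d n x)) = C.d n (φ (n + 1) x)}),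
      ∃ h' : {h : C.M (n + 1) →ₗ[R] C.M (n + 2) // ∀ x : C.M (n + 2),
        C.d (n + 1) (h (C.d (n + 1) x)) = C.d (n + 1) (φ (n + 2) x)},
        ∀ x, C.d (n + 1) (h'.1 x) + h.1 (C.d n x) = φ (n + 1) x := by
    intro n h
    have := hP (n + 1)
    obtain ⟨h', hh'⟩ := lift1 (C.d (n + 1)) (φ (n + 1) - h.1 ∘ₗ C.d n) (fun x => hC n _ (by
      show C.d n (φ (n + 1) x - h.1 (C.d n x)) = 0
      rw [map_sub, h.2, sub_self]))
    have hh : ∀ x, C.d (n + 1) (h' x) = φ (n + 1) x - h.1 (C.d n x) := hh'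
    refine ⟨⟨h', fun x => ?_⟩, fun x => ?_⟩
    · rw [hh, C.dd, map_zero, sub_zero, hφ]
    · show C.d (n + 1) (h' x) + h.1 (C.d n x) = _
      rw [hh, sub_add_cancel]
  choose S hS using step
  have := hP 0
  obtain ⟨h, hh⟩ := lift1 (C.d 0) (φ 0) h0
  obtain ⟨F, hF⟩ : ∃ F : ∀ n, {h : C.M n →ₗ[R] C.M (n + 1) // ∀ x : C.M (n + 1),
      C.d n (h (C.d n x)) = C.d n (φ (n + 1) x)},
      F = fun n => Nat.rec ⟨h, fun x => by rw [hh, hφ]⟩ (fun n f => S n f) n := ⟨_, rfl⟩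
  have hF0 : (F 0).1 = h := by
    rw [hF]
    rfl
  have hFs : ∀ n, F (n + 1) = S n (F n) := by
    intro n
    rw [hF]
  refine ⟨fun n => (F n).1, fun x => ?_, fun n x => ?_⟩
  · show C.d 0 ((F 0).1 x) = _
    rw [hF0, hh]
  · show C.d (n + 1) ((F (n + 1)).1 x) + (F n).1 (C.d n x) = _
    rw [hFs, hS]

/-- the transfer of the vanishing of the cohomology with coefficients in `A` -/
theorem transfer {C X : Cx R} {A : Type} [AddCommGroup A] [Module R A] (f : ∀ n, C.M n →ₗ[R] X.M n)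
    (g : ∀ n, X.M n →ₗ[R] C.M n) (hf : ∀ n x, X.d n (f (n + 1) x) = f n (C.d n x))
    (hg : ∀ n x, C.d n (g (n + 1) x) = g n (X.d n x)) (hP : ∀ n, Module.Projective R (C.M n)) (hC : C.Ex)
    (h0 : ∀ x, ∃ y, C.d 0 y = g 0 (f 0 x) - x)
    (hA0 : ∀ α : X.M 0 →ₗ[R] A, (∀ x, α (X.d 0 x) = 0) → α = 0)
    (hA : ∀ n (α : X.M (n + 1) →ₗ[R] A), (∀ x, α (X.d (n + 1) x) = 0) → ∃ β : X.M n →ₗ[R] A, ∀ x, α x = β (X.d n x)) :
    (∀ α : C.M 0 →ₗ[R] A, (∀ x, α (C.d 0 x) = 0) → α = 0) ∧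
    ∀ n (α : C.M (n + 1) →ₗ[R] A), (∀ x, α (C.d (n + 1) x) = 0) → ∃ β : C.M n →ₗ[R] A, ∀ x, α x = β (C.d n x) := by
  obtain ⟨h, hh0, hh⟩ := exists_htpy C hP hC (fun n => g n ∘ₗ f n - LinearMap.id) (fun n x => by
    show C.d n (g (n + 1) (f (n + 1) x) - x) = g n (f n (C.d n x)) - C.d n x
    rw [map_sub, hg, hf]) h0
  have hh0' : ∀ x, C.d 0 (h 0 x) = g 0 (f 0 x) - x := hh0
  have hh' : ∀ n x, C.d (n + 1) (h (n + 1) x) + h n (C.d n x) = g (n + 1) (f (n + 1) x) - x := hh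
  constructor
  · intro α hα
    refine LinearMap.ext fun x => ?_
    have h1 : α ∘ₗ g 0 = 0 := hA0 _ fun x => by
      show α (g 0 (X.d 0 x)) = 0
      rw [← hg, hα]
    have h2 : x = g 0 (f 0 x) - C.d 0 (h 0 x) := by
      rw [hh0', sub_sub_cancel]
    have h3 : α (g 0 (f 0 x)) = 0 := LinearMap.congr_fun h1 (f 0 x)
    rw [h2, map_sub, hα, h3, sub_zero, LinearMap.zero_apply]
  · intro n α hα
    obtain ⟨β, hβ⟩ := hA n (α ∘ₗ g (n + 1)) fun x => by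
      show α (g (n + 1) (X.d (n + 1) x)) = 0
      rw [← hg, hα]
    refine ⟨β ∘ₗ f n - α ∘ₗ h n, fun x => ?_⟩
    show α x = β (f n (C.d n x)) - α (h n (C.d n x))
    have h2 : x = g (n + 1) (f (n + 1) x) - C.d (n + 1) (h (n + 1) x) - h n (C.d n x) := by
      have := hh' n x
      rw [eq_sub_iff_add_eq] at this
      rw [← this]
      abel
    have h3 : α (g (n + 1) (f (n + 1) x)) = β (X.d n (f (n + 1) x)) := hβ (f (n + 1) x)
    nth_rewrite 1 [h2]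
    rw [map_sub, map_sub, hα, h3, hf, sub_zero]

end Pool.Agent.X250.ZS
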