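import Pool.Agent.X250.ZS.Res3
import Pool.Agent.H919R4.ZS.Contr

/-!
# The induced resolution
-/

set_option autoImplicit false
set_option linter.unusedSectionVars false

open scoped Matrix

namespace Pool.Agent.X250.ZS

open Pool.Agent.W907.SG Pool.Agent.W461.SGN
open Pool.Agent.H919R4.ZS (FinRes augm)

/-! ### cosets -/

section coset

variable {H : Type} [Group H] (Γ : Subgroup H)

/-- the inclusion of group rings -/
noncomputable def ind : MonoidAlgebra ℤ Γ →+* MonoidAlgebra ℤ H := MonoidAlgebra.mapDomainRingHom ℤ Γ.subtype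

theorem ind_single (γ : Γ) (m : ℤ) : ind Γ (MonoidAlgebra.single γ m) = MonoidAlgebra.single (γ : H) m := by
  show MonoidAlgebra.mapDomain _ (MonoidAlgebra.single γ m) = _
  rw [MonoidAlgebra.mapDomain_single]
  rfl

theorem ind_coeff (b : MonoidAlgebra ℤ Γ) (γ : Γ) : (ind Γ b).coeff (γ : H) = b.coeff γ := by
  show Finsupp.mapDomain Γ.subtype b.coeff (Γ.subtype γ) = _
  exact Finsupp.mapDomain_apply Subtype.val_injective _ _

theorem ind_coeff_ne (b : MonoidAlgebra ℤ Γ) {h : H} (hh : h ∉ Γ) : (ind Γ b).coeff h = 0 := by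
  show Finsupp.mapDomain Γ.subtype b.coeff h = _
  refine Finsupp.mapDomain_of_notMem_range _ _ ?_
  rintro ⟨γ, rfl⟩
  exact hh γ.2

/-- the restriction to a coset -/
noncomputable def rs (w : H) (a : MonoidAlgebra ℤ H) : MonoidAlgebra ℤ Γ :=
  MonoidAlgebra.comapDomain (fun γ : Γ => w * (γ : H)) (fun _ _ h => Subtype.ext (mul_left_cancel h)) a

theorem rs_coeff (w : H) (a : MonoidAlgebra ℤ H) (γ : Γ) : (rs Γ w a).coeff γ = a.coeff (w * γ) := rfl

theorem rs_add (w : H) (a b : MonoidAlgebra ℤ H) : rs Γ w (a + b) = rs Γ w a + rs Γ w b := by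
  refine MonoidAlgebra.ext (Finsupp.ext fun γ => ?_)
  rfl

theorem rs_zero (w : H) : rs Γ w 0 = 0 := by
  refine MonoidAlgebra.ext (Finsupp.ext fun γ => ?_)
  rfl

theorem rs_sum {ι : Type} (s : Finset ι) (w : H) (f : ι → MonoidAlgebra ℤ H) :
    rs Γ w (∑ i ∈ s, f i) = ∑ i ∈ s, rs Γ w (f i) := by
  classical
  induction s using Finset.induction_on with
  | empty => rw [Finset.sum_empty, Finset.sum_empty, rs_zero]
  | insert i s hi ih => rw [Finset.sum_insert hi, Finset.sum_insert hi, rs_add, ih]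

theorem rs_mul (w : H) (a : MonoidAlgebra ℤ H) (b : MonoidAlgebra ℤ Γ) : rs Γ w (a * ind Γ b) = rs Γ w a * b := by
  induction b using MonoidAlgebra.induction_linear with
  | zero => rw [map_zero, mul_zero, mul_zero, rs_zero]
  | add x y hx hy => rw [map_add, mul_add, mul_add, rs_add, hx, hy]
  | single γ m =>
    refine MonoidAlgebra.ext (Finsupp.ext fun γ' => ?_)
    rw [rs_coeff, ind_single, MonoidAlgebra.coeff_mul_single_apply, MonoidAlgebra.coeff_mul_single_apply, rs_coeff,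
      mul_assoc]
    rfl

/-- the coset decomposition -/
theorem rs_decomp [Fintype (H ⧸ Γ)] (a : MonoidAlgebra ℤ H) :
    a = ∑ c : H ⧸ Γ, MonoidAlgebra.single (Quotient.out c) 1 * ind Γ (rs Γ (Quotient.out c) a) := by
  classical
  refine MonoidAlgebra.ext (Finsupp.ext fun w => ?_)
  rw [MonoidAlgebra.coeff_sum, Finset.sum_apply', Finset.sum_eq_single (QuotientGroup.mk w : H ⧸ Γ)]
  · have h1 : (Quotient.out (QuotientGroup.mk w : H ⧸ Γ))⁻¹ * w ∈ Γ := by
      rw [← QuotientGroup.eq]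
      exact Quotient.out_eq _
    rw [MonoidAlgebra.coeff_single_mul_apply, one_mul]
    have h2 := ind_coeff Γ (rs Γ (Quotient.out (QuotientGroup.mk w : H ⧸ Γ)) a) ⟨_, h1⟩
    rw [rs_coeff] at h2
    have h3 : Quotient.out (QuotientGroup.mk w : H ⧸ Γ) * ((Quotient.out (QuotientGroup.mk w : H ⧸ Γ))⁻¹ * w) = w := by
      rw [mul_inv_cancel_left]
    exact (h2.trans (by rw [h3])).symm
  · intro c _ hc
    rw [MonoidAlgebra.coeff_single_mul_apply, one_mul, ind_coeff_ne]
    intro h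
    apply hc
    rw [← QuotientGroup.eq] at h
    rw [← h]
    exact (Quotient.out_eq c).symm
  · intro h
    exact absurd (Finset.mem_univ _) h

/-- induction preserves exactness -/
theorem ind_exact [Fintype (H ⧸ Γ)] {a b c : ℕ} {D : Matrix (Fin a) (Fin b) (MonoidAlgebra ℤ Γ)}
    {D' : Matrix (Fin c) (Fin a) (MonoidAlgebra ℤ Γ)} (hD : ∀ x, x ᵥ* D = 0 → ∃ y, y ᵥ* D' = x)
    (z : Fin a → MonoidAlgebra ℤ H) (hz : z ᵥ* D.map (ind Γ) = 0) : ∃ y, y ᵥ* D'.map (ind Γ) = z := by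
  have h1 : ∀ w, (fun k => rs Γ w (z k)) ᵥ* D = 0 := by
    intro w
    funext j
    have h2 := congrArg (rs Γ w) (congrFun hz j)
    rw [Matrix.vecMul, dotProduct, rs_sum, Pi.zero_apply, rs_zero] at h2
    rw [Matrix.vecMul, dotProduct, Pi.zero_apply, ← h2]
    refine Finset.sum_congr rfl fun k _ => ?_
    rw [Matrix.map_apply, rs_mul]
  choose Y hY using fun w => hD _ (h1 w)
  refine ⟨fun k => ∑ c : H ⧸ Γ, MonoidAlgebra.single (Quotient.out c) 1 * ind Γ (Y (Quotient.out c) k), ?_⟩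
  funext j
  rw [rs_decomp Γ (z j), Matrix.vecMul, dotProduct]
  have h3 : ∀ k, (∑ c : H ⧸ Γ, MonoidAlgebra.single (Quotient.out c) 1 * ind Γ (Y (Quotient.out c) k)) *
      (D'.map (ind Γ)) k j =
      ∑ c : H ⧸ Γ, MonoidAlgebra.single (Quotient.out c) 1 * ind Γ (Y (Quotient.out c) k * D' k j) := by
    intro k
    rw [Finset.sum_mul]
    refine Finset.sum_congr rfl fun c _ => ?_
    rw [Matrix.map_apply, map_mul, mul_assoc]
  rw [Finset.sum_congr rfl fun k _ => h3 k, Finset.sum_comm]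
  refine Finset.sum_congr rfl fun c _ => ?_
  rw [← Finset.mul_sum, ← map_sum]
  congr 2
  exact congrFun (hY (Quotient.out c)) j

end coset

/-! ### clearing denominators -/

section denom

variable {H : Type} [Group H]

/-- extension of scalars -/
noncomputable def ext0 : MonoidAlgebra ℤ H →+* MonoidAlgebra ℚ H := MonoidAlgebra.mapRingHom H (Int.castRingHom ℚ)

theorem ext0_inj {a b : MonoidAlgebra ℤ H} (h : ext0 a = ext0 b) : a = b :=
  MonoidAlgebra.map_injective _ (Int.cast_injective) h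

theorem ext0_single (w : H) (m : ℤ) : ext0 (MonoidAlgebra.single w m) = MonoidAlgebra.single w (m : ℚ) :=
  MonoidAlgebra.mapRingHom_single _ _ _

theorem exists_denom (a : MonoidAlgebra ℚ H) : ∃ N : ℕ, N ≠ 0 ∧ ∃ b : MonoidAlgebra ℤ H, (N : ℚ) • a = ext0 b := by
  induction a using MonoidAlgebra.induction_linear with
  | zero => exact ⟨1, one_ne_zero, 0, by rw [smul_zero, map_zero]⟩
  | add x y hx hy =>
    obtain ⟨N, hN, b, hb⟩ := hx
    obtain ⟨M, hM, c, hc⟩ := hy
    refine ⟨N * M, mul_ne_zero hN hM, (M : ℤ) • b + (N : ℤ) • c, ?_⟩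
    rw [map_add, map_zsmul, map_zsmul, ← hb, ← hc, smul_add, ← Int.cast_smul_eq_zsmul ℚ, ← Int.cast_smul_eq_zsmul ℚ,
      smul_smul, smul_smul]
    push_cast
    rw [mul_comm (M : ℚ) N]
  | single w r =>
    refine ⟨r.den, r.den_nz, MonoidAlgebra.single w r.num, ?_⟩
    rw [ext0_single, MonoidAlgebra.smul_single', Rat.den_mul_eq_num]

theorem exists_denom' {a : ℕ} (z : Fin a → MonoidAlgebra ℚ H) :
    ∃ N : ℕ, N ≠ 0 ∧ ∃ b : Fin a → MonoidAlgebra ℤ H, ∀ j, (N : ℚ) • z j = ext0 (b j) := by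
  classical
  choose N hN b hb using fun j => exists_denom (z j)
  refine ⟨∏ j, N j, Finset.prod_ne_zero_iff.2 fun j _ => hN j,
    fun j => ((∏ k ∈ Finset.univ.erase j, N k : ℕ) : ℤ) • b j, fun j => ?_⟩
  rw [map_zsmul, ← hb, ← Int.cast_smul_eq_zsmul ℚ, smul_smul, ← Finset.prod_erase_mul _ _ (Finset.mem_univ j)]
  push_cast
  rfl

/-- extension of scalars preserves exactness -/
theorem ext_exact {a b c : ℕ} {D : Matrix (Fin a) (Fin b) (MonoidAlgebra ℤ H)}
    {D' : Matrix (Fin c) (Fin a) (MonoidAlgebra ℤ H)} (hD : ∀ x, x ᵥ* D = 0 → ∃ y, y ᵥ* D' = x)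
    (z : Fin a → MonoidAlgebra ℚ H) (hz : z ᵥ* D.map ext0 = 0) : ∃ y, y ᵥ* D'.map ext0 = z := by
  obtain ⟨N, hN, b, hb⟩ := exists_denom' z
  have hN' : (N : ℚ) ≠ 0 := by exact_mod_cast hN
  have h1 : b ᵥ* D = 0 := by
    funext j
    refine ext0_inj ?_
    rw [Pi.zero_apply, map_zero, Matrix.vecMul, dotProduct, map_sum]
    have h2 := congrArg (fun y => (N : ℚ) • y) (congrFun hz j)
    simp only [Matrix.vecMul, dotProduct, Pi.zero_apply, smul_zero, Finset.smul_sum] at h2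
    rw [← h2]
    refine Finset.sum_congr rfl fun k _ => ?_
    rw [map_mul, ← hb, Matrix.map_apply, smul_mul_assoc]
  obtain ⟨y, hy⟩ := hD b h1
  refine ⟨fun k => (N : ℚ)⁻¹ • ext0 (y k), ?_⟩
  funext j
  have h2 : z j = (N : ℚ)⁻¹ • ext0 (b j) := by
    rw [← hb, smul_smul, inv_mul_cancel₀ hN', one_smul]
  rw [h2, ← hy, Matrix.vecMul, dotProduct, Matrix.vecMul, dotProduct, map_sum, Finset.smul_sum]
  refine Finset.sum_congr rfl fun k _ => ?_
  rw [Matrix.map_apply, map_mul, smul_mul_assoc]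

end denom

end Pool.Agent.X250.ZS
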