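import Pool.Agent.X250.ZS.Ind

/-!
# Comparison of the induced resolution and of the Davis complex
-/

set_option autoImplicit false
set_option linter.unusedSectionVars false

open scoped Matrix

namespace Pool.Agent.X250.ZS

open Pool.Agent.W907.SG Pool.Agent.W461.SGN
open Pool.Agent.H919R4.ZS (FinRes augm)

variable {V : Type} [Fintype V] [LinearOrder V] {G : SimpleGraph V} {Γ : Subgroup (W G)}

/-- the inclusion of the group rings -/
noncomputable def ph (Γ : Subgroup (W G)) : MonoidAlgebra ℤ Γ →+* RW G := ext0.comp (ind Γ)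

theorem ph_single (γ : Γ) (m : ℤ) : ph Γ (MonoidAlgebra.single γ m) = MonoidAlgebra.single (γ : W G) (m : ℚ) := by
  show ext0 (ind Γ _) = _
  rw [ind_single, ext0_single]

theorem aug_ph (a : MonoidAlgebra ℤ Γ) : aug G (ph Γ a) = ((augm Γ a : ℤ) : ℚ) := by
  induction a using MonoidAlgebra.induction_linear with
  | zero => simp
  | add x y hx hy => rw [map_add, map_add, map_add, hx, hy, Int.cast_add]
  | single γ m =>
    rw [ph_single, aug_single]
    have : augm Γ (MonoidAlgebra.single γ m) = m := by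
      show MonoidAlgebra.lift ℤ ℤ Γ 1 (MonoidAlgebra.single γ m) = m
      rw [MonoidAlgebra.lift_single]
      simp
    rw [this]

/-- the induced complex -/
noncomputable def Indc (X : FinRes Γ) : Cx (RW G) where
  M i := Fin (X.n i) → RW G
  d i := ((X.d i).map (ph Γ)).vecMulLinear
  dd i x := by
    show (x ᵥ* (X.d (i + 1)).map (ph Γ)) ᵥ* (X.d i).map (ph Γ) = 0
    rw [Matrix.vecMul_vecMul, ← Matrix.map_mul, Pool.Agent.H919R4.ZS.d_mul_d]
    have : (0 : Matrix (Fin (X.n (i + 1 + 1))) (Fin (X.n i)) (MonoidAlgebra ℤ Γ)).map (ph Γ) = 0 := by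
      ext1 a b
      exact map_zero (ph Γ)
    rw [this, Matrix.vecMul_zero]

theorem Indc_ex [Γ.FiniteIndex] (X : FinRes Γ) : (Indc X).Ex := by
  intro i x hx
  have hfin : Fintype (W G ⧸ Γ) := Fintype.ofFinite _
  have e : ∀ i, (X.d i).map (ph Γ) = ((X.d i).map (ind Γ)).map ext0 := by
    intro i
    rw [Matrix.map_map]
    rfl
  have hx' : x ᵥ* (X.d i).map (ph Γ) = 0 := hx
  rw [e] at hx'
  obtain ⟨y, hy⟩ := ext_exact (D' := (X.d (i + 1)).map (ind Γ))
    (fun z hz => ind_exact Γ (D' := X.d (i + 1)) (fun x hx => (X.exact_succ i x).1 hx) z hz) x hx'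
  refine ⟨y, ?_⟩
  show y ᵥ* (X.d (i + 1)).map (ph Γ) = x
  rw [e, hy]

theorem Indc_proj (X : FinRes Γ) (i : ℕ) : Module.Projective (RW G) ((Indc X).M i) := by
  show Module.Projective (RW G) (Fin (X.n i) → RW G)
  infer_instance

/-- elements with vanishing augmentation are boundaries -/
theorem row_mem (X : FinRes Γ) (x : Fin (X.n 0) → MonoidAlgebra ℤ Γ) (hx : ∑ j, augm Γ (x j) * X.aug j = 0) :
    ∃ y, (Indc X).d 0 y = fun j => ph Γ (x j) := by
  obtain ⟨y, hy⟩ := (X.exact_zero x).1 hx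
  refine ⟨fun k => ph Γ (y k), ?_⟩
  show (fun k => ph Γ (y k)) ᵥ* (X.d 0).map (ph Γ) = _
  funext j
  rw [← hy, Matrix.vecMul, dotProduct, Matrix.vecMul, dotProduct, map_sum]
  refine Finset.sum_congr rfl fun k _ => ?_
  rw [Matrix.map_apply, map_mul]

/-- the map in degree zero -/
noncomputable def f00 {n : ℕ} (ξ : Fin n → RW G) : Ch G 0 →ₗ[RW G] (Fin n → RW G) where
  toFun x j := x.1 ∅ * ξ j
  map_add' x y := by
    funext j
    exact add_mul _ _ _
  map_smul' a x := by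
    funext j
    exact mul_assoc _ _ _

theorem single_mem (a : RW G) : (Pi.single ∅ a : Finset V → RW G) ∈ Ch G 0 := by
  intro T
  by_cases hT : T = ∅
  · subst hT
    rw [Pi.single_eq_same]
    exact ⟨by show a * cp (ps_comm G) ∅ = a; rw [cp_empty, mul_one], fun h => absurd Finset.card_empty h⟩
  · rw [Pi.single_eq_of_ne hT, zero_mul]
    exact ⟨rfl, fun _ => rfl⟩

theorem Ch_zero (x : Ch G 0) : x.1 = Pi.single ∅ (x.1 ∅) := by
  funext T
  by_cases hT : T = ∅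
  · subst hT
    rw [Pi.single_eq_same]
  · rw [Pi.single_eq_of_ne hT]
    exact (x.2 T).2 fun h => hT (Finset.card_eq_zero.1 h)

/-- the map back in degree zero -/
noncomputable def g00 {n : ℕ} (c : Fin n → ℤ) : (Fin n → RW G) →ₗ[RW G] Ch G 0 where
  toFun z := ⟨Pi.single ∅ (∑ j, z j * (c j : RW G)), single_mem _⟩
  map_add' x y := by
    refine Subtype.ext ?_
    show (Pi.single ∅ (∑ j, (x j + y j) * (c j : RW G)) : Finset V → RW G) =
      Pi.single ∅ (∑ j, x j * (c j : RW G)) + Pi.single ∅ (∑ j, y j * (c j : RW G))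
    rw [← Pi.single_add, ← Finset.sum_add_distrib]
    simp only [add_mul]
  map_smul' a x := by
    refine Subtype.ext ?_
    show (Pi.single ∅ (∑ j, (a * x j) * (c j : RW G)) : Finset V → RW G) =
      a • Pi.single ∅ (∑ j, x j * (c j : RW G))
    rw [← Pi.single_smul, smul_eq_mul, Finset.mul_sum]
    simp only [mul_assoc]

theorem JJ_ch {a : RW G} (h : a ∈ JJ G) : ∃ y, (Dav G).d 0 y = ⟨Pi.single ∅ a, single_mem a⟩ := by
  obtain ⟨y, hy, h1⟩ := h
  exact ⟨⟨y, hy⟩, Subtype.ext h1⟩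

/-- the element in degree zero -/
noncomputable def xi [Fintype (W G ⧸ Γ)] {n : ℕ} (x0 : Fin n → MonoidAlgebra ℤ Γ) (j : Fin n) : RW G :=
  ((Fintype.card (W G ⧸ Γ) : ℚ)⁻¹) • ∑ c : W G ⧸ Γ, gs G (Quotient.out c) * ph Γ (x0 j)

theorem card_ne [Fintype (W G ⧸ Γ)] : (Fintype.card (W G ⧸ Γ) : ℚ) ≠ 0 := by
  have : Nonempty (W G ⧸ Γ) := ⟨QuotientGroup.mk 1⟩
  exact_mod_cast Fintype.card_ne_zero

theorem aug_xi [Fintype (W G ⧸ Γ)] {n : ℕ} (x0 : Fin n → MonoidAlgebra ℤ Γ) (j : Fin n) :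
    aug G (xi x0 j) = ((augm Γ (x0 j) : ℤ) : ℚ) := by
  unfold xi
  have h1 : ∀ (r : ℚ) (a : RW G), aug G (r • a) = r * aug G a := by
    intro r a
    show MonoidAlgebra.lift ℚ ℚ (W G) 1 (r • a) = r * MonoidAlgebra.lift ℚ ℚ (W G) 1 a
    rw [map_smul, smul_eq_mul]
  rw [h1, map_sum]
  have h2 : ∀ c : W G ⧸ Γ, aug G (gs G (Quotient.out c) * ph Γ (x0 j)) = ((augm Γ (x0 j) : ℤ) : ℚ) := by
    intro c
    rw [map_mul, aug_single, one_mul, aug_ph]
  rw [Finset.sum_congr rfl fun c _ => h2 c, Finset.sum_const, nsmul_eq_mul, Finset.card_univ, ← mul_assoc,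
    inv_mul_cancel₀ card_ne, one_mul]

/-- invariance up to boundaries -/
theorem xi_inv [Fintype (W G ⧸ Γ)] (X : FinRes Γ) (x0 : Fin (X.n 0) → MonoidAlgebra ℤ Γ)
    (g : W G) : ∃ y, (Indc X).d 0 y = fun j => xi x0 j - gs G g * xi x0 j := by
  classical
  have hΓ : ∀ c : W G ⧸ Γ, (Quotient.out (g • c))⁻¹ * (g * Quotient.out c) ∈ Γ := by
    intro c
    rw [← QuotientGroup.eq]
    have h1 : (QuotientGroup.mk (Quotient.out (g • c)) : W G ⧸ Γ) = g • c := Quotient.out_eq _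
    have h2 : (QuotientGroup.mk (g * Quotient.out c) : W G ⧸ Γ) = g • (QuotientGroup.mk (Quotient.out c) : W G ⧸ Γ) :=
      rfl
    have h3 : (QuotientGroup.mk (Quotient.out c) : W G ⧸ Γ) = c := Quotient.out_eq _
    rw [h1, h2, h3]
  obtain ⟨γ, hγ⟩ : ∃ γ : W G ⧸ Γ → Γ, ∀ c, (γ c : W G) = (Quotient.out (g • c))⁻¹ * (g * Quotient.out c) :=
    ⟨fun c => ⟨_, hΓ c⟩, fun c => rfl⟩
  have hb : ∀ c : W G ⧸ Γ, ∃ y, (Indc X).d 0 y = fun j => ph Γ (x0 j - MonoidAlgebra.single (γ c) 1 * x0 j) := by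
    intro c
    refine row_mem X _ ?_
    refine Finset.sum_eq_zero fun j _ => ?_
    rw [map_sub, map_mul]
    have : augm Γ (MonoidAlgebra.single (γ c) 1) = 1 := by
      show MonoidAlgebra.lift ℤ ℤ Γ 1 (MonoidAlgebra.single (γ c) 1) = 1
      rw [MonoidAlgebra.lift_single]
      simp
    rw [this, one_mul, sub_self, zero_mul]
  choose y hy using hb
  obtain ⟨κ, hκ⟩ : ∃ κ : RW G, κ = algebraMap ℚ (RW G) (Fintype.card (W G ⧸ Γ) : ℚ)⁻¹ := ⟨_, rfl⟩
  refine ⟨κ • ∑ c : W G ⧸ Γ, gs G (Quotient.out (g • c)) • y c, ?_⟩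
  obtain ⟨F, hF⟩ : ∃ F : W G ⧸ Γ → (Fin (X.n 0) → RW G), F = fun (c : W G ⧸ Γ) j =>
      gs G (Quotient.out (g • c)) * ph Γ (x0 j - MonoidAlgebra.single (γ c) 1 * x0 j) := ⟨_, rfl⟩
  have hlin : (Indc X).d 0 (κ • ∑ c : W G ⧸ Γ, gs G (Quotient.out (g • c)) • y c) =
      (κ • ∑ c : W G ⧸ Γ, F c : Fin (X.n 0) → RW G) := by
    refine (LinearMap.map_smul ((Indc X).d 0) κ _).trans ?_
    refine congrArg (fun z : Fin (X.n 0) → RW G => κ • z) ?_
    refine (map_sum ((Indc X).d 0) _ _).trans ?_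
    refine Finset.sum_congr rfl fun c _ => ?_
    refine (LinearMap.map_smul ((Indc X).d 0) (gs G (Quotient.out (g • c))) (y c)).trans ?_
    rw [hy, hF]
    rfl
  refine hlin.trans ?_
  funext j
  have h4 : (κ • ∑ c : W G ⧸ Γ, F c : Fin (X.n 0) → RW G) j = ((Fintype.card (W G ⧸ Γ) : ℚ)⁻¹) •
      ∑ c : W G ⧸ Γ, gs G (Quotient.out (g • c)) * ph Γ (x0 j - MonoidAlgebra.single (γ c) 1 * x0 j) := by
    rw [Pi.smul_apply, Finset.sum_apply, hκ, smul_eq_mul, ← Algebra.smul_def, hF]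
  rw [h4]
  unfold xi
  rw [mul_smul_comm, ← smul_sub]
  congr 1
  have h5 : ∀ c : W G ⧸ Γ, gs G (Quotient.out (g • c)) * ph Γ (x0 j - MonoidAlgebra.single (γ c) 1 * x0 j) =
      gs G (Quotient.out (g • c)) * ph Γ (x0 j) - gs G g * (gs G (Quotient.out c) * ph Γ (x0 j)) := by
    intro c
    rw [map_sub, map_mul, mul_sub, ph_single]
    congr 1
    rw [← mul_assoc, ← mul_assoc]
    congr 1
    rw [Int.cast_one]
    show gs G (Quotient.out (g • c)) * gs G (γ c : W G) = gs G g * gs G (Quotient.out c)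
    rw [gs_mul, gs_mul, hγ, mul_inv_cancel_left]
  rw [Finset.sum_congr rfl fun c _ => h5 c, Finset.sum_sub_distrib, ← Finset.mul_sum]
  congr 1
  exact Equiv.sum_comp (MulAction.toPerm g : W G ⧸ Γ ≃ W G ⧸ Γ) fun c : W G ⧸ Γ =>
    gs G (Quotient.out c) * ph Γ (x0 j)

end Pool.Agent.X250.ZS
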