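import Pool.Agent.X250.ZS.Tr

/-!
# Matrices of operators, and the supertrace
-/

set_option autoImplicit false
set_option linter.unusedSectionVars false

open scoped ENNReal InnerProductSpace

namespace Pool.Agent.X250.ZS

open Pool.Agent.W907.SG Pool.Agent.W461.SGN

variable {V : Type} {G : SimpleGraph V} [Fintype V] [LinearOrder V]

/-- matrices of operators -/
abbrev Mt (G : SimpleGraph V) : Type := Matrix (Finset V) (Finset V) (Op G)

/-- the incidence number of two sets -/
def inc (T T' : Finset V) : ℤ :=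
  if T ⊆ T' ∧ T'.card = T.card + 1 then ∏ s ∈ T' \ T, ∏ t ∈ T, (if t < s then -1 else 1) else 0

/-- the sign -/
def ep (s : V) (T : Finset V) : ℤ := ∏ t ∈ T, (if t < s then -1 else 1)

theorem ep_sq (s : V) (T : Finset V) : ep s T * ep s T = 1 := by
  unfold ep
  rw [← Finset.prod_mul_distrib]
  refine Finset.prod_eq_one fun t _ => ?_
  split_ifs <;> rfl

theorem inc_insert {s : V} {T : Finset V} (hs : s ∉ T) : inc T (insert s T) = ep s T := by
  have h1 : insert s T \ T = {s} := by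
    ext x
    simp only [Finset.mem_sdiff, Finset.mem_insert, Finset.mem_singleton]
    constructor
    · rintro ⟨h | h, h'⟩
      · exact h
      · exact absurd h h'
    · rintro rfl
      exact ⟨Or.inl rfl, hs⟩
  unfold inc
  rw [if_pos ⟨Finset.subset_insert s T, Finset.card_insert_of_notMem hs⟩, h1, Finset.prod_singleton]
  rfl

theorem ep_insert {s t : V} {T : Finset V} (ht : t ∉ T) : ep s (insert t T) = (if t < s then -1 else 1) * ep s T := by
  unfold ep
  rw [Finset.prod_insert ht]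

/-- the sign rule -/
theorem ep_anti {s t : V} {T : Finset V} (hs : s ∉ T) (ht : t ∉ T) (hst : s ≠ t) :
    ep s T * ep t (insert s T) = -(ep t T * ep s (insert t T)) := by
  rw [ep_insert hs, ep_insert ht]
  rcases lt_or_gt_of_ne hst with h | h
  · rw [if_pos h, if_neg (not_lt.2 h.le)]
    ring
  · rw [if_neg (not_lt.2 h.le), if_pos h]
    ring

theorem inc_ne {T T' : Finset V} (h : inc T T' ≠ 0) : ∃ s, s ∉ T ∧ T' = insert s T := by
  unfold inc at h
  by_cases h1 : T ⊆ T' ∧ T'.card = T.card + 1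
  · have h2 : (T' \ T).card = 1 := by
      rw [Finset.card_sdiff_of_subset h1.1]
      omega
    obtain ⟨s, hs⟩ := Finset.card_eq_one.1 h2
    have h3 : s ∈ T' \ T := by rw [hs]; exact Finset.mem_singleton_self s
    refine ⟨s, (Finset.mem_sdiff.1 h3).2, ?_⟩
    rw [← Finset.sdiff_union_of_subset h1.1, hs]
    rfl
  · rw [if_neg h1] at h
    exact absurd rfl h

/-- the projection -/
noncomputable def PP (x : V → ℝ) : Mt G := Matrix.diagonal fun T => pT x T

/-- the differential and its adjoint -/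
noncomputable def DD (x : V → ℝ) : Mt G := Matrix.of fun T T' =>
  ((inc T T' : ℤ) : ℂ) • pT x T' + ((inc T' T : ℤ) : ℂ) • pT x T

theorem DD_apply (x : V → ℝ) (T T' : Finset V) :
    DD (G := G) x T T' = ((inc T T' : ℤ) : ℂ) • pT x T' + ((inc T' T : ℤ) : ℂ) • pT x T := rfl

section alg

variable {x : V → ℝ} (h0 : ∀ s, 0 ≤ x s) (h1 : ∀ s, x s ≤ 1)

include h0 h1

theorem pT_sub1 {T T' : Finset V} (h : inc T T' ≠ 0) : pT (G := G) x T' * pT x T = pT x T' ∧
    pT (G := G) x T * pT x T' = pT x T' := by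
  obtain ⟨s, hs, rfl⟩ := inc_ne h
  by_cases hc : G.IsClique ((insert s T : Finset V) : Set V)
  · have h2 : pr x s * pT (G := G) x T = pT x T * pr x s := pT_comm x fun t ht _ => cl_ins hs hc t ht
    rw [pT_insert x hs hc]
    constructor
    · rw [mul_assoc, pT_idem h0 h1]
    · rw [h2, ← mul_assoc, pT_idem h0 h1]
  · rw [pT_neg x hc, zero_mul, mul_zero]
    exact ⟨rfl, rfl⟩

theorem PP_PP : PP (G := G) x * PP x = PP x := by
  unfold PP
  rw [Matrix.diagonal_mul_diagonal]
  congr 1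
  funext T
  exact pT_idem h0 h1 T

theorem DD_PP : DD (G := G) x * PP x = DD x := by
  refine Matrix.ext fun T T' => ?_
  unfold PP
  rw [Matrix.mul_diagonal, DD_apply, add_mul, smul_mul_assoc, smul_mul_assoc, pT_idem h0 h1]
  congr 1
  by_cases h : inc T' T = 0
  · rw [h]
    simp
  · rw [(pT_sub1 h0 h1 h).1]

theorem PP_DD : PP (G := G) x * DD x = DD x := by
  refine Matrix.ext fun T T' => ?_
  unfold PP
  rw [Matrix.diagonal_mul, DD_apply, mul_add, mul_smul_comm, mul_smul_comm, pT_idem h0 h1]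
  congr 1
  by_cases h : inc T T' = 0
  · rw [h]
    simp
  · rw [(pT_sub1 h0 h1 h).2]

end alg

/-- the supertrace -/
noncomputable def Str (X : Mt G) : ℂ := ∑ T, (-1) ^ T.card * Tr (X T T)

theorem Str_add (X Y : Mt G) : Str (X + Y) = Str X + Str Y := by
  unfold Str
  rw [← Finset.sum_add_distrib]
  refine Finset.sum_congr rfl fun T _ => ?_
  rw [Matrix.add_apply, Tr_add, mul_add]

theorem Str_smul (c : ℂ) (X : Mt G) : Str (c • X) = c * Str X := by
  unfold Str
  rw [Finset.mul_sum]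
  refine Finset.sum_congr rfl fun T _ => ?_
  rw [Matrix.smul_apply, Tr_smul]
  ring

/-- matrices with good entries -/
def Gm (x : V → ℝ) (X : Mt G) : Prop := ∀ T T', X T T' ∈ Gd (G := G) x

theorem Gm.mul {x : V → ℝ} {X Y : Mt G} (hX : Gm x X) (hY : Gm x Y) : Gm x (X * Y) := by
  intro T T'
  rw [Matrix.mul_apply]
  exact sum_mem fun S _ => mul_mem (hX _ _) (hY _ _)

theorem Gm.sub {x : V → ℝ} {X Y : Mt G} (hX : Gm x X) (hY : Gm x Y) : Gm x (X - Y) :=
  fun _ _ => sub_mem (hX _ _) (hY _ _)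

theorem Gm.smul {x : V → ℝ} {X : Mt G} (hX : Gm x X) (c : ℂ) : Gm x (c • X) :=
  fun _ _ => Subalgebra.smul_mem _ (hX _ _) c

theorem Gm.one {x : V → ℝ} : Gm x (1 : Mt G) := by
  intro T T'
  rw [Matrix.one_apply]
  split_ifs
  · exact one_mem _
  · exact zero_mem _

theorem Gm.pow {x : V → ℝ} {X : Mt G} (hX : Gm x X) (N : ℕ) : Gm x (X ^ N) := by
  induction N with
  | zero => rw [pow_zero]; exact Gm.one
  | succ N ih => rw [pow_succ]; exact ih.mul hX

theorem Gm_PP (x : V → ℝ) : Gm x (PP (G := G) x) := by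
  intro T T'
  unfold PP
  rw [Matrix.diagonal_apply]
  split_ifs
  · exact pT_mem x T
  · exact zero_mem _

theorem Gm_DD (x : V → ℝ) : Gm x (DD (G := G) x) := fun T T' =>
  add_mem (Subalgebra.smul_mem _ (pT_mem x T') _) (Subalgebra.smul_mem _ (pT_mem x T) _)

theorem DD_odd (x : V → ℝ) {T T' : Finset V} (h : DD (G := G) x T T' ≠ 0) :
    (-1 : ℂ) ^ T.card = -(-1) ^ T'.card := by
  by_cases h1 : inc T T' = 0
  · by_cases h2 : inc T' T = 0
    · exfalso
      apply h
      rw [DD_apply, h1, h2]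
      simp
    · obtain ⟨s, hs, rfl⟩ := inc_ne h2
      rw [Finset.card_insert_of_notMem hs, pow_succ]
      ring
  · obtain ⟨s, hs, rfl⟩ := inc_ne h1
    rw [Finset.card_insert_of_notMem hs, pow_succ]
    ring

theorem Str_odd {x : V → ℝ} {X : Mt G} (hX : Gm x X) : Str (DD x * X) = -Str (X * DD x) := by
  unfold Str
  have h1 : ∀ T : Finset V, (-1 : ℂ) ^ T.card * Tr ((DD x * X : Mt G) T T) =
      ∑ T', (-1 : ℂ) ^ T.card * Tr (DD x T T' * X T' T) := by
    intro T
    rw [Matrix.mul_apply, Tr_sum, Finset.mul_sum]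
  have h2 : ∀ T : Finset V, (-1 : ℂ) ^ T.card * Tr ((X * DD x : Mt G) T T) =
      ∑ T', (-1 : ℂ) ^ T.card * Tr (X T T' * DD x T' T) := by
    intro T
    rw [Matrix.mul_apply, Tr_sum, Finset.mul_sum]
  rw [Finset.sum_congr rfl fun T _ => h1 T, Finset.sum_congr rfl fun T _ => h2 T, Finset.sum_comm (γ := Finset V),
    ← Finset.sum_neg_distrib]
  refine Finset.sum_congr rfl fun T _ => ?_
  rw [← Finset.sum_neg_distrib]
  refine Finset.sum_congr rfl fun T' _ => ?_
  rw [Tr_mul (Gm_DD x T' T) (hX T T')]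
  by_cases h : DD (G := G) x T' T = 0
  · rw [h, mul_zero, Tr_zero]
    ring
  · rw [DD_odd x h]
    ring

theorem Str_sq {x : V → ℝ} {X : Mt G} (hX : Gm x X) (hc : DD x * X = X * DD x) : Str (DD x * DD x * X) = 0 := by
  have h1 := Str_odd (x := x) ((Gm_DD x).mul hX)
  rw [mul_assoc (DD x) X (DD x), ← hc, ← mul_assoc] at h1
  have h2 : (2 : ℂ) * Str (DD x * DD x * X) = 0 := by linear_combination h1
  exact (mul_eq_zero.1 h2).resolve_left two_ne_zero

/-- the smoothing operator -/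
noncomputable def SS (x : V → ℝ) (k : ℝ) : Mt G := PP x - (k : ℂ) • (DD x * DD x)

theorem Gm_SS (x : V → ℝ) (k : ℝ) : Gm x (SS (G := G) x k) :=
  (Gm_PP x).sub (((Gm_DD x).mul (Gm_DD x)).smul _)

section alg2

variable {x : V → ℝ} (h0 : ∀ s, 0 ≤ x s) (h1 : ∀ s, x s ≤ 1)

include h0 h1

theorem SS_comm (k : ℝ) : DD (G := G) x * SS x k = SS x k * DD x := by
  unfold SS
  rw [mul_sub, sub_mul, DD_PP h0 h1, PP_DD h0 h1, mul_smul_comm, smul_mul_assoc, mul_assoc]

theorem SS_pow_comm (k : ℝ) (N : ℕ) : DD (G := G) x * SS x k ^ N = SS x k ^ N * DD x := by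
  induction N with
  | zero => rw [pow_zero, mul_one, one_mul]
  | succ N ih => rw [pow_succ, ← mul_assoc, ih, mul_assoc, SS_comm h0 h1, mul_assoc]

theorem PP_SS (k : ℝ) : PP (G := G) x * SS x k = SS x k := by
  unfold SS
  rw [mul_sub, PP_PP h0 h1, mul_smul_comm, ← mul_assoc, PP_DD h0 h1]

theorem Str_SS (k : ℝ) (N : ℕ) : Str (SS (G := G) x k ^ (N + 1)) = Str (PP (G := G) x) := by
  have key : ∀ N, Str (SS (G := G) x k ^ (N + 1)) = Str (PP x * SS (G := G) x k ^ N) := by
    intro N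
    have h2 : SS (G := G) x k ^ (N + 1) = PP x * SS x k ^ N + (-(k : ℂ)) • (DD x * DD x * SS x k ^ N) := by
      rw [pow_succ']
      nth_rewrite 1 [SS]
      rw [sub_mul, smul_mul_assoc, neg_smul, sub_eq_add_neg]
    rw [h2, Str_add, Str_smul, Str_sq ((Gm_SS x k).pow N) (SS_pow_comm h0 h1 k N), mul_zero, add_zero]
  induction N with
  | zero => rw [key, pow_zero, mul_one]
  | succ N ih => rw [key, pow_succ', ← mul_assoc, PP_SS h0 h1, ← pow_succ', ih]

end alg2

open Classical in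
theorem Str_PP (x : V → ℝ) : Str (PP (G := G) x) =
    ((∑ T ∈ Finset.univ.filter (fun T : Finset V => G.IsClique (T : Set V)), (-1) ^ T.card * ∏ s ∈ T, x s : ℝ) : ℂ) := by
  unfold Str
  rw [Finset.sum_filter]
  push_cast
  refine Finset.sum_congr rfl fun T _ => ?_
  have h1 : PP (G := G) x T T = pT x T := by
    unfold PP
    rw [Matrix.diagonal_apply_eq]
  rw [h1]
  by_cases h : G.IsClique (T : Set V)
  · rw [if_pos h, Tr_pT x h]
    push_cast
    rfl
  · rw [if_neg h, pT_neg x h, Tr_zero, mul_zero]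
    simp

end Pool.Agent.X250.ZS
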