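import Pool.Agent.X250.ZS.Desc
import Pool.Agent.X250.ZS.Exact
import Pool.Agent.X250.ZS.Hom

/-!
# The resolution given by the Davis complex
-/

set_option autoImplicit false
set_option linter.unusedSectionVars false

namespace Pool.Agent.X250.ZS

open Pool.Agent.W907.SG Pool.Agent.W461.SGN

/-! ### products over cliques -/

section cp

variable {V : Type} {G : SimpleGraph V} {M : Type} [MonoidWithZero M] {p : V → M}
  (hc : ∀ s t, G.Adj s t → p s * p t = p t * p s)

include hc in
theorem cpair {T : Finset V} (h : G.IsClique (T : Set V)) : (T : Set V).Pairwise (Function.onFun Commute p) :=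
  fun s hs t ht hst => hc s t (h hs ht hst)

open Classical in
/-- the product over a clique -/
noncomputable def cp (T : Finset V) : M :=
  if h : G.IsClique (T : Set V) then T.noncommProd p (cpair hc h) else 0

theorem cp_neg {T : Finset V} (h : ¬ G.IsClique (T : Set V)) : cp hc T = 0 := by
  unfold cp
  rw [dif_neg h]

theorem cp_empty : cp hc ∅ = 1 := by
  unfold cp
  rw [dif_pos (by simp)]
  rfl

variable [DecidableEq V]

theorem cp_insert {s : V} {T : Finset V} (hs : s ∉ T) (h : G.IsClique ((insert s T : Finset V) : Set V)) :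
    cp hc (insert s T) = p s * cp hc T := by
  classical
  have h' : G.IsClique (T : Set V) := cl_sub h
  unfold cp
  rw [dif_pos h, dif_pos h', Finset.noncommProd_insert_of_notMem _ _ _ _ hs]

theorem cp_commute {c : M} {T : Finset V} (h : ∀ t ∈ T, c * p t = p t * c) : c * cp hc T = cp hc T * c := by
  classical
  unfold cp
  split_ifs with h1
  · exact Finset.noncommProd_commute T _ _ _ fun t ht => h t ht
  · rw [mul_zero, zero_mul]

theorem cp_comm {s : V} {T : Finset V} (hs : s ∉ T) (h : G.IsClique ((insert s T : Finset V) : Set V)) :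
    p s * cp hc T = cp hc T * p s :=
  cp_commute hc fun t ht => hc s t (cl_ins hs h t ht)

variable (hi : ∀ s, p s * p s = p s)

include hi

theorem cp_idem (T : Finset V) : cp hc T * cp hc T = cp hc T := by
  induction T using Finset.induction_on with
  | empty => rw [cp_empty, mul_one]
  | insert s T hs ih =>
    by_cases h : G.IsClique ((insert s T : Finset V) : Set V)
    · rw [cp_insert hc hs h, mul_assoc, ← mul_assoc (cp hc T), ← cp_comm hc hs h, mul_assoc (p s) (cp hc T), ih,
        ← mul_assoc, hi]
    · rw [cp_neg hc h, mul_zero]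

theorem cp_sub {s : V} {T : Finset V} (hs : s ∉ T) : cp hc (insert s T) * cp hc T = cp hc (insert s T) := by
  by_cases h : G.IsClique ((insert s T : Finset V) : Set V)
  · rw [cp_insert hc hs h, mul_assoc, cp_idem hc hi]
  · rw [cp_neg hc h, zero_mul]

theorem cp_mul_self {t : V} {T : Finset V} (ht : t ∈ T) : cp hc T * p t = cp hc T := by
  by_cases h : G.IsClique (T : Set V)
  · have h1 : T = insert t (T.erase t) := (Finset.insert_erase ht).symm
    have h2 : t ∉ T.erase t := Finset.notMem_erase t T
    rw [h1] at h
    rw [h1, cp_insert hc h2 h, cp_comm hc h2 h, mul_assoc, hi]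
  · rw [cp_neg hc h, zero_mul]

end cp

/-! ### the group ring -/

variable {V : Type} (G : SimpleGraph V)

/-- the rational group ring -/
abbrev RW : Type := MonoidAlgebra ℚ (W G)

/-- group elements -/
noncomputable abbrev gs (w : W G) : RW G := MonoidAlgebra.single w 1

theorem gs_mul (u w : W G) : gs G u * gs G w = gs G (u * w) := by
  rw [MonoidAlgebra.single_mul_single, mul_one]

theorem gs_one : gs G 1 = 1 := rfl

/-- the element `1 - s` -/
noncomputable def qs (s : V) : RW G := 1 - gs G (sm G s)

/-- the projection `(1 - s) / 2` -/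
noncomputable def ps (s : V) : RW G := (1 / 2 : ℚ) • qs G s

theorem qs_qs (s : V) : qs G s * qs G s = (2 : ℚ) • qs G s := by
  unfold qs
  simp only [sub_mul, mul_sub, one_mul, mul_one, gs_mul, sm_sm, gs_one, two_smul]
  abel

theorem qs_comm (s t : V) (h : G.Adj s t) : qs G s * qs G t = qs G t * qs G s := by
  have hc : sm G s * sm G t = sm G t * sm G s := simple_comm G s t h
  unfold qs
  simp only [sub_mul, mul_sub, one_mul, mul_one, gs_mul, hc]
  abel

theorem ps_comm (s t : V) (h : G.Adj s t) : ps G s * ps G t = ps G t * ps G s := by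
  unfold ps
  rw [smul_mul_smul_comm, smul_mul_smul_comm, qs_comm G s t h]

theorem qs_ps (s : V) : qs G s * ps G s = qs G s := by
  unfold ps
  rw [mul_smul_comm, qs_qs, smul_smul]
  norm_num

theorem ps_idem (s : V) : ps G s * ps G s = ps G s := by
  nth_rewrite 1 [ps]
  rw [smul_mul_assoc, qs_ps]
  rfl

theorem qs_ps_comm (s t : V) (h : G.Adj s t) : ps G s * qs G t = qs G t * ps G s := by
  unfold ps
  rw [smul_mul_assoc, mul_smul_comm, qs_comm G s t h]

variable [DecidableEq V]

theorem qR_pR (T : Finset V) : cp (qs_comm G) T * cp (ps_comm G) T = cp (qs_comm G) T := by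
  induction T using Finset.induction_on with
  | empty => rw [cp_empty, cp_empty, mul_one]
  | insert s T hs ih =>
    by_cases h : G.IsClique ((insert s T : Finset V) : Set V)
    · have h1 : ps G s * cp (qs_comm G) T = cp (qs_comm G) T * ps G s :=
        cp_commute (qs_comm G) fun t ht => qs_ps_comm G s t (cl_ins hs h t ht)
      rw [cp_insert (qs_comm G) hs h, cp_insert (ps_comm G) hs h, mul_assoc, ← mul_assoc (cp (qs_comm G) T), ← h1,
        mul_assoc (ps G s), ih, ← mul_assoc, qs_ps]
    · rw [cp_neg (qs_comm G) h, zero_mul]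

variable {G}

/-- triangularity -/
theorem tri (T : Finset V) : ∀ w : W G, G.IsClique (T : Set V) → (∀ t ∈ T, nn G w (sm G t) = 1) →
    (∀ w', (gs G w * cp (qs_comm G) T).coeff w' ≠ 0 → w' = w ∨ len G w' < len G w) ∧
      (gs G w * cp (qs_comm G) T).coeff w = 1 := by
  classical
  induction T using Finset.induction_on with
  | empty =>
    intro w _ _
    rw [cp_empty, mul_one]
    refine ⟨fun w' h => Or.inl ?_, ?_⟩
    · by_contra hne
      exact h (by rw [MonoidAlgebra.coeff_single, Finsupp.single_apply, if_neg (Ne.symm hne)])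
    · rw [MonoidAlgebra.coeff_single, Finsupp.single_apply, if_pos rfl]
  | insert s T hs ih =>
    intro w h hw
    have h1 : gs G w * cp (qs_comm G) (insert s T) =
        gs G w * cp (qs_comm G) T - gs G (w * sm G s) * cp (qs_comm G) T := by
      rw [cp_insert (qs_comm G) hs h, ← mul_assoc]
      unfold qs
      rw [mul_sub, mul_one, gs_mul, sub_mul]
    have h2 := ih w (cl_sub h) fun t ht => hw t (Finset.mem_insert_of_mem ht)
    have h3 := ih (w * sm G s) (cl_sub h) fun t ht => by
      rw [nn_right_adj G w t s (cl_ins hs h t ht).symm]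
      exact hw t (Finset.mem_insert_of_mem ht)
    have h4 : len G (w * sm G s) < len G w := len_lt (hw s (Finset.mem_insert_self s T))
    rw [h1]
    constructor
    · intro w' hw'
      by_cases h5 : (gs G w * cp (qs_comm G) T).coeff w' = 0
      · have h6 : (gs G (w * sm G s) * cp (qs_comm G) T).coeff w' ≠ 0 := by
          intro h6
          apply hw'
          show (gs G w * cp (qs_comm G) T).coeff w' - (gs G (w * sm G s) * cp (qs_comm G) T).coeff w' = 0
          rw [h5, h6, sub_zero]
        right
        rcases h3.1 w' h6 with rfl | h7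
        · exact h4
        · exact h7.trans h4
      · exact h2.1 w' h5
    · show (gs G w * cp (qs_comm G) T).coeff w - (gs G (w * sm G s) * cp (qs_comm G) T).coeff w = 1
      have h6 : (gs G (w * sm G s) * cp (qs_comm G) T).coeff w = 0 := by
        by_contra h6
        rcases h3.1 w h6 with h7 | h7
        · rw [← h7] at h4
          exact lt_irrefl _ h4
        · exact lt_irrefl _ (h7.trans h4)
      rw [h2.2, h6, sub_zero]

end Pool.Agent.X250.ZS
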