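import Pool.Agent.X250.ZS.Res

/-!
# Exactness of the resolution
-/

set_option autoImplicit false
set_option linter.unusedSectionVars false

namespace Pool.Agent.X250.ZS

open Pool.Agent.W907.SG Pool.Agent.W461.SGN

variable {V : Type} [Fintype V] [LinearOrder V] (G : SimpleGraph V)

/-- the projection of a clique in the group ring -/
noncomputable abbrev pR (T : Finset V) : RW G := cp (ps_comm G) T

/-- the chains: families `x T` with `x T * pR T = x T` for cliques with `n` elements -/
noncomputable def Ch (n : ℕ) : Submodule (RW G) (Finset V → RW G) where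
  carrier := {x | ∀ T, x T * pR G T = x T ∧ (T.card ≠ n → x T = 0)}
  add_mem' := by
    intro x y hx hy T
    refine ⟨?_, fun h => ?_⟩
    · rw [Pi.add_apply, add_mul, (hx T).1, (hy T).1]
    · rw [Pi.add_apply, (hx T).2 h, (hy T).2 h, add_zero]
  zero_mem' := fun T => ⟨zero_mul _, fun _ => rfl⟩
  smul_mem' := by
    intro a x hx T
    refine ⟨?_, fun h => ?_⟩
    · rw [Pi.smul_apply, smul_eq_mul, mul_assoc, (hx T).1]
    · rw [Pi.smul_apply, (hx T).2 h, smul_zero]

/-- the differential -/
noncomputable def dT : (Finset V → RW G) →ₗ[RW G] (Finset V → RW G) where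
  toFun x T := ∑ T', inc T T' • x T'
  map_add' x y := by
    funext T
    simp only [Pi.add_apply, smul_add, Finset.sum_add_distrib]
  map_smul' a x := by
    funext T
    simp only [Pi.smul_apply, smul_eq_mul, RingHom.id_apply, Finset.mul_sum, mul_smul_comm]

variable {G}

theorem dT_apply (x : Finset V → RW G) (T : Finset V) : dT G x T = ∑ s ∈ Tᶜ, ep s T • x (insert s T) :=
  sum_inc T x

theorem dT_dT (x : Finset V → RW G) : dT G (dT G x) = 0 := by
  funext T
  show ∑ T', inc T T' • (∑ T'', inc T' T'' • x T'') = 0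
  simp only [Finset.smul_sum, smul_smul]
  rw [Finset.sum_comm]
  refine Finset.sum_eq_zero fun T'' _ => ?_
  rw [← Finset.sum_smul, inc_inc, zero_smul]

theorem dT_mem {n : ℕ} {x : Finset V → RW G} (hx : x ∈ Ch G (n + 1)) : dT G x ∈ Ch G n := by
  intro T
  constructor
  · rw [dT_apply, Finset.sum_mul]
    refine Finset.sum_congr rfl fun s hs => ?_
    rw [smul_mul_assoc, ← (hx (insert s T)).1, mul_assoc,
      cp_sub (ps_comm G) (ps_idem G) (Finset.mem_compl.1 hs)]
  · intro h
    rw [dT_apply]
    refine Finset.sum_eq_zero fun s hs => ?_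
    rw [(hx (insert s T)).2 (by rw [Finset.card_insert_of_notMem (Finset.mem_compl.1 hs)]; omega), smul_zero]

/-- the complex -/
noncomputable def Dav (G : SimpleGraph V) : Cx (RW G) where
  M n := Ch G n
  d n := (dT G).restrict fun _ hx => dT_mem hx
  dd n x := Subtype.ext (dT_dT x.1)

theorem Ch_coeff {n : ℕ} {x : Finset V → RW G} (hx : x ∈ Ch G n) {T : Finset V} {t : V} (ht : t ∈ T) (w : W G) :
    (x T).coeff (w * sm G t) = -(x T).coeff w := by
  have h1 : x T * ps G t = x T := by
    rw [← (hx T).1, mul_assoc, cp_mul_self (ps_comm G) (ps_idem G) ht]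
  have h2 : x T * gs G (sm G t) = -x T := by
    unfold ps qs at h1
    rw [mul_smul_comm, mul_sub, mul_one] at h1
    have h3 : (2 : ℚ) • x T = x T - x T * gs G (sm G t) := by
      nth_rewrite 1 [← h1]
      rw [smul_smul]
      norm_num
    rw [two_smul] at h3
    have h4 : x T * gs G (sm G t) = x T - (x T + x T) := by rw [h3]; abel
    rw [h4]
    abel
  have h3 := congrArg (fun y : RW G => y.coeff w) h2
  have h4 : (x T * gs G (sm G t)).coeff w = (x T).coeff (w * (sm G t)⁻¹) * 1 :=
    MonoidAlgebra.coeff_mul_single_apply _ _ _ _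
  rw [sm_inv, mul_one] at h4
  exact h4.symm.trans h3

theorem Ch_desc {n : ℕ} {x : Finset V → RW G} (hx : x ∈ Ch G n) {L : ℕ}
    (hL : ∀ T w, L < len G w → (x T).coeff w = 0) {T : Finset V} {t : V} (ht : t ∈ T) {w : W G} (hw : L ≤ len G w)
    (h : (x T).coeff w ≠ 0) : nn G w (sm G t) = 1 := by
  have h1 : (x T).coeff (w * sm G t) ≠ 0 := by
    rw [Ch_coeff hx ht]
    exact neg_ne_zero.2 h
  have h2 : len G (w * sm G t) ≤ L := by
    by_contra h3
    exact h1 (hL T _ (not_le.1 h3))
  have h3 := len_mul_simple G w t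
  refine nn_of_len ?_
  have e : (cox G).simple t = sm G t := rfl
  rw [e] at h3
  omega

open Classical in
/-- the coefficients of the filling -/
noncomputable def fill (x : Finset V → RW G) (w : W G) (T' : Finset V) : ℚ :=
  if h : ∃ v, nn G w (sm G v) = 1 then
    (if h.choose ∈ T' then (ep h.choose (T'.erase h.choose) : ℚ) * (x (T'.erase h.choose)).coeff w else 0) else 0

theorem fill_ne {x : Finset V → RW G} {w : W G} {T' : Finset V} (h : fill x w T' ≠ 0) :
    ∃ s ∈ T', nn G w (sm G s) = 1 ∧ (x (T'.erase s)).coeff w ≠ 0 := by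
  classical
  unfold fill at h
  by_cases h1 : ∃ v, nn G w (sm G v) = 1
  · rw [dif_pos h1] at h
    by_cases h2 : h1.choose ∈ T'
    · rw [if_pos h2] at h
      exact ⟨h1.choose, h2, h1.choose_spec, right_ne_zero_of_mul h⟩
    · rw [if_neg h2] at h
      exact absurd rfl h
  · rw [dif_neg h1] at h
    exact absurd rfl h

theorem fill_desc {n : ℕ} {x : Finset V → RW G} (hx : x ∈ Ch G n) {L : ℕ}
    (hL : ∀ T w, L < len G w → (x T).coeff w = 0) {w : W G} (hw : L ≤ len G w) {T' : Finset V}
    (h : fill x w T' ≠ 0) : G.IsClique (T' : Set V) ∧ (∀ t ∈ T', nn G w (sm G t) = 1) ∧ T'.card = n + 1 := by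
  obtain ⟨s, hs, h1, h2⟩ := fill_ne h
  have h3 : ∀ t ∈ T', nn G w (sm G t) = 1 := by
    intro t ht
    by_cases hts : t = s
    · rw [hts]
      exact h1
    · exact Ch_desc hx hL (Finset.mem_erase.2 ⟨hts, ht⟩) hw h2
  refine ⟨fun a ha b hb hab => desc_adj hab (h3 a ha) (h3 b hb), h3, ?_⟩
  by_contra h4
  apply h2
  rw [(hx (T'.erase s)).2 (by
    intro h5
    apply h4
    have := Finset.card_erase_add_one hs
    omega)]
  rfl

/-- the sum of the filling -/
theorem fill_sum {n : ℕ} {x : Finset V → RW G} (hx : x ∈ Ch G (n + 1)) (hd : dT G x = 0) {L : ℕ}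
    (hL : ∀ T w, L < len G w → (x T).coeff w = 0) {w : W G} (hw : L ≤ len G w) (T : Finset V) :
    ∑ v ∈ Tᶜ, (ep v T : ℚ) * fill x w (insert v T) = (x T).coeff w := by
  classical
  by_cases h1 : ∃ v, nn G w (sm G v) = 1
  · obtain ⟨s, hs⟩ : ∃ s, s = h1.choose := ⟨_, rfl⟩
    have hf : ∀ T', fill x w T' = if s ∈ T' then (ep s (T'.erase s) : ℚ) * (x (T'.erase s)).coeff w else 0 := by
      intro T'
      unfold fill
      rw [dif_pos h1, hs]
    have hd' : ∀ T : Finset V, ∑ v ∈ Tᶜ, (ep v T : ℚ) * (x (insert v T)).coeff w = 0 := by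
      intro T
      have h2 := congrArg (fun y : Finset V → RW G => (y T).coeff w) hd
      have h3 : (dT G x T).coeff w = ∑ v ∈ Tᶜ, (ep v T : ℚ) * (x (insert v T)).coeff w := by
        rw [dT_apply, MonoidAlgebra.coeff_sum, Finset.sum_apply']
        refine Finset.sum_congr rfl fun v _ => ?_
        rw [← Int.cast_smul_eq_zsmul ℚ, MonoidAlgebra.coeff_smul_apply, smul_eq_mul]
      rw [← h3]
      exact h2
    by_cases hsT : s ∈ T
    · obtain ⟨T0, hT0⟩ : ∃ T0, T0 = T.erase s := ⟨_, rfl⟩
      have hs0 : s ∉ T0 := by rw [hT0]; exact Finset.notMem_erase s T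
      have hT : T = insert s T0 := by rw [hT0, Finset.insert_erase hsT]
      have h2 : ∀ v ∈ Tᶜ, (ep v T : ℚ) * fill x w (insert v T) =
          -((ep s T0 : ℚ) * ((ep v T0 : ℚ) * (x (insert v T0)).coeff w)) := by
        intro v hv
        have hvT := Finset.mem_compl.1 hv
        have hvs : v ≠ s := by
          rintro rfl
          exact hvT hsT
        have hv0 : v ∉ T0 := fun h => hvT (by rw [hT]; exact Finset.mem_insert_of_mem h)
        have e1 : (insert v T).erase s = insert v T0 := by
          rw [hT0, Finset.erase_insert_of_ne hvs]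
        rw [hf, if_pos (Finset.mem_insert_of_mem hsT), e1, hT]
        have h3 := ep_anti hs0 hv0 (Ne.symm hvs)
        have h4 := ep_sq s T0
        have h5 := ep_sq s (insert v T0)
        have h6 : ep v (insert s T0) * ep s (insert v T0) = -(ep s T0 * ep v T0) := by
          calc ep v (insert s T0) * ep s (insert v T0)
              = (ep s T0 * ep s T0) * (ep v (insert s T0) * ep s (insert v T0)) := by rw [h4, one_mul]
            _ = ep s T0 * (ep s T0 * ep v (insert s T0)) * ep s (insert v T0) := by ring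
            _ = ep s T0 * (-(ep v T0 * ep s (insert v T0))) * ep s (insert v T0) := by rw [h3]
            _ = -(ep s T0 * ep v T0) * (ep s (insert v T0) * ep s (insert v T0)) := by ring
            _ = -(ep s T0 * ep v T0) := by rw [h5, mul_one]
        have h7 : (ep v (insert s T0) : ℚ) * ep s (insert v T0) = -((ep s T0 : ℚ) * ep v T0) := by
          exact_mod_cast h6
        linear_combination ((x (insert v T0)).coeff w) * h7
      have h3 := hd' T0
      have h4 : T0ᶜ = insert s Tᶜ := by
        ext v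
        rw [hT, Finset.mem_insert, Finset.mem_compl, Finset.mem_compl, Finset.mem_insert]
        constructor
        · intro h
          by_cases hvs : v = s
          · exact Or.inl hvs
          · exact Or.inr (fun h' => h'.elim hvs h)
        · rintro (rfl | h)
          · exact hs0
          · exact fun h' => h (Or.inr h')
      have h5 : s ∉ Tᶜ := fun h => (Finset.mem_compl.1 h) hsT
      rw [h4, Finset.sum_insert h5] at h3
      rw [Finset.sum_congr rfl h2, Finset.sum_neg_distrib, ← Finset.mul_sum]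
      have h6 : (ep s T0 : ℚ) * ep s T0 = 1 := by exact_mod_cast ep_sq s T0
      rw [← hT] at h3
      linear_combination (-(ep s T0 : ℚ)) * h3 + ((x T).coeff w) * h6
    · rw [Finset.sum_eq_single s]
      · rw [hf, if_pos (Finset.mem_insert_self s T), Finset.erase_insert hsT]
        have h6 : (ep s T : ℚ) * ep s T = 1 := by exact_mod_cast ep_sq s T
        linear_combination ((x T).coeff w) * h6
      · intro v _ hvs
        rw [hf, if_neg, mul_zero]
        intro h
        rcases Finset.mem_insert.1 h with h | h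
        · exact hvs h.symm
        · exact hsT h
      · intro h
        exact absurd (Finset.mem_compl.2 hsT) h
  · have h2 : (x T).coeff w = 0 := by
      by_contra h2
      rcases T.eq_empty_or_nonempty with h3 | ⟨t, ht⟩
      · apply h2
        rw [(hx T).2 (by rw [h3, Finset.card_empty]; omega)]
        rfl
      · exact h1 ⟨t, Ch_desc hx hL ht hw h2⟩
    rw [h2]
    refine Finset.sum_eq_zero fun v _ => ?_
    unfold fill
    rw [dif_neg h1, mul_zero]

/-- reduction of the length -/
theorem red {n : ℕ} {x : Finset V → RW G} (hx : x ∈ Ch G (n + 1)) (hd : dT G x = 0) {L : ℕ}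
    (hL : ∀ T w, L < len G w → (x T).coeff w = 0) :
    ∃ y ∈ Ch G (n + 2), ∀ T w, L ≤ len G w → ((x - dT G y) T).coeff w = 0 := by
  classical
  obtain ⟨S, hS⟩ : ∃ S : Finset (W G), S = (Finset.univ.biUnion fun T => (x T).coeff.support).filter
      (fun w => L ≤ len G w) := ⟨_, rfl⟩
  obtain ⟨y, hy⟩ : ∃ y : Finset V → RW G, y = fun T' =>
      (∑ w ∈ S, (MonoidAlgebra.single w (fill x w T') : RW G)) * cp (qs_comm G) T' := ⟨_, rfl⟩
  have hSm : ∀ w ∈ S, L ≤ len G w := by
    intro w hw
    rw [hS, Finset.mem_filter] at hw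
    exact hw.2
  have hSc : ∀ w, L ≤ len G w → w ∉ S → ∀ T', fill x w T' = 0 := by
    intro w hw hwS T'
    by_contra h
    obtain ⟨s, _, _, h2⟩ := fill_ne h
    apply hwS
    rw [hS, Finset.mem_filter]
    exact ⟨Finset.mem_biUnion.2 ⟨_, Finset.mem_univ _, Finsupp.mem_support_iff.2 h2⟩, hw⟩
  have hyc : ∀ T' w', L ≤ len G w' → (y T').coeff w' = fill x w' T' := by
    intro T' w' hw'
    have h1 : (y T').coeff w' =
        ∑ w ∈ S, ((MonoidAlgebra.single w (fill x w T') : RW G) * cp (qs_comm G) T').coeff w' := by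
      rw [hy]
      show ((∑ w ∈ S, (MonoidAlgebra.single w (fill x w T') : RW G)) * cp (qs_comm G) T').coeff w' = _
      rw [Finset.sum_mul, MonoidAlgebra.coeff_sum, Finset.sum_apply']
    have h2 : ∀ w ∈ S, ((MonoidAlgebra.single w (fill x w T') : RW G) * cp (qs_comm G) T').coeff w' =
        if w = w' then fill x w' T' else 0 := by
      intro w hw
      have e1 : (MonoidAlgebra.single w (fill x w T') : RW G) = fill x w T' • gs G w := by
        rw [MonoidAlgebra.smul_single', mul_one]
      rw [e1, smul_mul_assoc, MonoidAlgebra.coeff_smul_apply, smul_eq_mul]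
      by_cases h3 : fill x w T' = 0
      · rw [h3, zero_mul]
        by_cases h4 : w = w'
        · rw [if_pos h4, ← h4, h3]
        · rw [if_neg h4]
      · obtain ⟨k1, k2, _⟩ := fill_desc hx hL (hSm w hw) h3
        obtain ⟨t1, t2⟩ := tri T' w k1 k2
        by_cases h4 : w = w'
        · subst h4
          rw [if_pos rfl, t2, mul_one]
        · rw [if_neg h4]
          by_cases h5 : (gs G w * cp (qs_comm G) T').coeff w' = 0
          · rw [h5, mul_zero]
          · exfalso
            rcases t1 w' h5 with h6 | h6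
            · exact h4 h6.symm
            · have h7 : (x T').coeff w' = (x T').coeff w' := rfl
              have h8 : len G w ≤ L := by
                by_contra h8
                have h9 := fill_ne h3
                obtain ⟨s, _, _, h10⟩ := h9
                exact h10 (hL _ w (not_le.1 h8))
              omega
    rw [h1, Finset.sum_congr rfl h2, Finset.sum_ite_eq']
    by_cases h3 : w' ∈ S
    · rw [if_pos h3]
    · rw [if_neg h3, hSc w' hw' h3]
  refine ⟨y, fun T' => ⟨?_, fun h => ?_⟩, fun T w hw => ?_⟩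
  · rw [hy]
    show (∑ w ∈ S, (MonoidAlgebra.single w (fill x w T') : RW G)) * cp (qs_comm G) T' * pR G T' = _
    rw [mul_assoc, qR_pR]
  · rw [hy]
    show (∑ w ∈ S, (MonoidAlgebra.single w (fill x w T') : RW G)) * cp (qs_comm G) T' = 0
    rw [Finset.sum_eq_zero, zero_mul]
    intro w hw
    have h1 : fill x w T' = 0 := by
      by_contra h1
      exact h (fill_desc hx hL (hSm w hw) h1).2.2
    rw [h1]
    simp
  · have h1 : ((x - dT G y) T).coeff w = (x T).coeff w - (dT G y T).coeff w := rfl
    have h2 : (dT G y T).coeff w = ∑ v ∈ Tᶜ, (ep v T : ℚ) * fill x w (insert v T) := by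
      rw [dT_apply, MonoidAlgebra.coeff_sum, Finset.sum_apply']
      refine Finset.sum_congr rfl fun v _ => ?_
      rw [← Int.cast_smul_eq_zsmul ℚ, MonoidAlgebra.coeff_smul_apply, smul_eq_mul, hyc _ w hw]
    rw [h1, h2, fill_sum hx hd hL hw, sub_self]

theorem exact_len (L : ℕ) : ∀ {n : ℕ} {x : Finset V → RW G}, x ∈ Ch G (n + 1) → dT G x = 0 →
    (∀ T w, L ≤ len G w → (x T).coeff w = 0) → ∃ y ∈ Ch G (n + 2), dT G y = x := by
  induction L with
  | zero =>
    intro n x hx hd hL
    refine ⟨0, zero_mem _, ?_⟩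
    rw [map_zero]
    funext T
    refine (MonoidAlgebra.ext (Finsupp.ext fun w => ?_))
    exact (hL T w (Nat.zero_le _)).symm
  | succ L ih =>
    intro n x hx hd hL
    obtain ⟨y, hy, h1⟩ := red hx hd (L := L) fun T w hw => hL T w hw
    have h2 : x - dT G y ∈ Ch G (n + 1) := sub_mem hx (dT_mem hy)
    obtain ⟨y', hy', h3⟩ := ih h2 (by rw [map_sub, hd, dT_dT, sub_zero]) h1
    refine ⟨y + y', add_mem hy hy', ?_⟩
    rw [map_add, h3]
    abel

theorem Dav_ex : (Dav G).Ex := by
  classical
  intro n x hx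
  have h1 : dT G x.1 = 0 := congrArg Subtype.val hx
  obtain ⟨L, hL⟩ : ∃ L : ℕ, ∀ T w, L ≤ len G w → (x.1 T).coeff w = 0 := by
    refine ⟨(Finset.univ.biUnion fun T => (x.1 T).coeff.support).sup (len G) + 1, fun T w hw => ?_⟩
    by_contra h
    have h2 : w ∈ Finset.univ.biUnion fun T => (x.1 T).coeff.support :=
      Finset.mem_biUnion.2 ⟨T, Finset.mem_univ _, Finsupp.mem_support_iff.2 h⟩
    have h3 := Finset.le_sup (f := len G) h2
    omega
  obtain ⟨y, hy, h2⟩ := exact_len L x.2 h1 hL
  exact ⟨⟨y, hy⟩, Subtype.ext h2⟩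

end Pool.Agent.X250.ZS
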