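import Pool.Agent.X250.ZS.Res2

/-!
# Projectivity of the resolution, and degree zero
-/

set_option autoImplicit false
set_option linter.unusedSectionVars false

namespace Pool.Agent.X250.ZS

open Pool.Agent.W907.SG Pool.Agent.W461.SGN

variable {V : Type} [Fintype V] [LinearOrder V] (G : SimpleGraph V)

theorem Ch_proj (n : ℕ) : Module.Projective (RW G) (Ch G n) := by
  classical
  obtain ⟨r, hr⟩ : ∃ r : (Finset V → RW G) →ₗ[RW G] (Finset V → RW G),
      ∀ x T, r x T = if T.card = n then x T * pR G T else 0 :=
    ⟨{ toFun := fun x T => if T.card = n then x T * pR G T else 0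
       map_add' := fun x y => by
         funext T
         show (if T.card = n then (x T + y T) * pR G T else 0) =
           (if T.card = n then x T * pR G T else 0) + if T.card = n then y T * pR G T else 0
         split_ifs
         · rw [add_mul]
         · rw [add_zero]
       map_smul' := fun a x => by
         funext T
         show (if T.card = n then (a * x T) * pR G T else 0) = a * (if T.card = n then x T * pR G T else 0)
         split_ifs
         · rw [mul_assoc]
         · rw [mul_zero] }, fun x T => rfl⟩
  have h1 : ∀ x, r x ∈ Ch G n := by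
    intro x T
    rw [hr]
    refine ⟨?_, fun h => if_neg h⟩
    split_ifs
    · rw [mul_assoc, cp_idem (ps_comm G) (ps_idem G)]
    · rw [zero_mul]
  refine Module.Projective.of_split (Ch G n).subtype (r.codRestrict (Ch G n) h1) ?_
  refine LinearMap.ext fun x => Subtype.ext (funext fun T => ?_)
  show r x.1 T = x.1 T
  rw [hr]
  split_ifs with h
  · exact (x.2 T).1
  · exact ((x.2 T).2 h).symm

variable {G}

/-- the augmentation -/
noncomputable def aug (G : SimpleGraph V) : RW G →+* ℚ := (MonoidAlgebra.lift ℚ ℚ (W G) 1).toRingHom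

theorem aug_single (w : W G) (r : ℚ) : aug G (MonoidAlgebra.single w r) = r := by
  show MonoidAlgebra.lift ℚ ℚ (W G) 1 (MonoidAlgebra.single w r) = r
  rw [MonoidAlgebra.lift_single]
  simp

/-- the boundaries in degree zero -/
noncomputable def JJ (G : SimpleGraph V) : Submodule (RW G) (RW G) where
  carrier := {a | ∃ y ∈ Ch G 1, dT G y = Pi.single ∅ a}
  add_mem' := by
    rintro a b ⟨y, hy, h⟩ ⟨z, hz, k⟩
    exact ⟨y + z, add_mem hy hz, by rw [map_add, h, k, Pi.single_add]⟩
  zero_mem' := ⟨0, zero_mem _, by rw [map_zero, Pi.single_zero]⟩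
  smul_mem' := by
    rintro c a ⟨y, hy, h⟩
    refine ⟨c • y, Submodule.smul_mem _ c hy, ?_⟩
    rw [map_smul, h, ← Pi.single_smul]

theorem ps_mem_JJ (s : V) : ps G s ∈ JJ G := by
  classical
  have hcl : G.IsClique (({s} : Finset V) : Set V) := by simp
  have h1 : pR G {s} = ps G s := by
    have := cp_insert (ps_comm G) (Finset.notMem_empty s) (by simpa using hcl)
    rw [cp_empty, mul_one] at this
    exact this
  refine ⟨Pi.single {s} (ps G s), fun T => ⟨?_, fun h => ?_⟩, ?_⟩
  · by_cases hT : T = {s}
    · subst hT
      rw [Pi.single_eq_same, h1, ps_idem]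
    · rw [Pi.single_eq_of_ne hT, zero_mul]
  · rw [Pi.single_eq_of_ne]
    rintro rfl
    exact h (Finset.card_singleton s)
  · funext T
    rw [dT_apply]
    by_cases hT : T = ∅
    · subst hT
      rw [Pi.single_eq_same, Finset.sum_eq_single s]
      · have h2 : insert s (∅ : Finset V) = {s} := rfl
        rw [h2, Pi.single_eq_same]
        have h3 : ep s ∅ = 1 := rfl
        rw [h3, one_smul]
      · intro v _ hv
        rw [Pi.single_eq_of_ne, smul_zero]
        intro h
        exact hv (Finset.singleton_inj.1 h)
      · intro h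
        exact absurd (Finset.mem_compl.2 (Finset.notMem_empty s)) h
    · rw [Pi.single_eq_of_ne hT]
      refine Finset.sum_eq_zero fun v hv => ?_
      rw [Pi.single_eq_of_ne, smul_zero]
      intro h
      obtain ⟨t, ht⟩ := Finset.nonempty_iff_ne_empty.2 hT
      have h2 : t ∈ ({s} : Finset V) := by rw [← h]; exact Finset.mem_insert_of_mem ht
      have h3 : v ∈ ({s} : Finset V) := by rw [← h]; exact Finset.mem_insert_self v T
      rw [Finset.mem_singleton] at h2 h3
      exact Finset.mem_compl.1 hv (by rw [h3, ← h2]; exact ht)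

theorem gs_sub_mem (w : W G) : gs G w - 1 ∈ JJ G := by
  refine w_ind G (p := fun w => gs G w - 1 ∈ JJ G) w ?_ ?_
  · rw [gs_one, sub_self]
    exact zero_mem _
  · intro w v ih
    have h1 : gs G (sm G v * w) - 1 = gs G (sm G v) • (gs G w - 1) + (-(2 : ℚ)) • ps G v := by
      rw [smul_eq_mul, mul_sub, gs_mul, mul_one]
      unfold ps qs
      rw [smul_smul]
      norm_num
    rw [h1]
    refine add_mem (Submodule.smul_mem _ _ ih) ?_
    have h2 : (-(2 : ℚ)) • ps G v = (algebraMap ℚ (RW G) (-2)) • ps G v := by
      rw [smul_eq_mul, ← Algebra.smul_def]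
    rw [h2]
    exact Submodule.smul_mem _ _ (ps_mem_JJ v)

theorem sub_aug_mem (a : RW G) : a - algebraMap ℚ (RW G) (aug G a) ∈ JJ G := by
  induction a using MonoidAlgebra.induction_linear with
  | zero =>
    rw [map_zero, map_zero, sub_zero]
    exact zero_mem _
  | add x y hx hy =>
    have : x + y - algebraMap ℚ (RW G) (aug G (x + y)) =
        (x - algebraMap ℚ (RW G) (aug G x)) + (y - algebraMap ℚ (RW G) (aug G y)) := by
      rw [map_add, map_add]
      abel
    rw [this]
    exact add_mem hx hy
  | single w r =>
    have : (MonoidAlgebra.single w r : RW G) - algebraMap ℚ (RW G) (aug G (MonoidAlgebra.single w r)) =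
        algebraMap ℚ (RW G) r • (gs G w - 1) := by
      rw [aug_single, smul_eq_mul, mul_sub, mul_one, ← Algebra.smul_def, MonoidAlgebra.smul_single', mul_one]
    rw [this]
    exact Submodule.smul_mem _ _ (gs_sub_mem w)

theorem mem_JJ {a : RW G} (h : aug G a = 0) : a ∈ JJ G := by
  have := sub_aug_mem a
  rwa [h, map_zero, sub_zero] at this

end Pool.Agent.X250.ZS
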