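import Pool.Agent.X250.ZS.Hilb

/-!
# The trace, and the projections of the cliques
-/

set_option autoImplicit false
set_option linter.unusedSectionVars false

open scoped ENNReal InnerProductSpace

namespace Pool.Agent.X250.ZS

open Pool.Agent.W907.SG Pool.Agent.W461.SGN

variable {V : Type} {G : SimpleGraph V}

/-- the bounded operators -/
abbrev Op (G : SimpleGraph V) : Type := Hl (W G) →L[ℂ] Hl (W G)

/-- the good operators -/
def Gd (x : V → ℝ) : Subalgebra ℂ (Op G) where
  carrier := {a | (∃ a' : Op G, (∀ s, a' * pr x s = pr x s * a') ∧ a dl = a' dl ∧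
    ∀ f : Hl (W G), (a f : W G → ℂ) 1 = (a' f : W G → ℂ) 1) ∧
    ∀ c : Op G, (∀ s, c * pr x s = pr x s * c) → c * a = a * c}
  mul_mem' := by
    rintro a b ⟨⟨a', h1, h2, h3⟩, h4⟩ ⟨⟨b', k1, k2, k3⟩, k4⟩
    refine ⟨⟨b' * a', fun s => ?_, ?_, fun f => ?_⟩, fun c hc => ?_⟩
    · rw [mul_assoc, h1, ← mul_assoc, k1, mul_assoc]
    · show a (b dl) = b' (a' dl)
      have e1 : a (b' dl) = b' (a dl) := (congrArg (fun T : Op G => T dl) (h4 b' k1)).symm
      rw [k2, e1, h2]
    · show (a (b f) : W G → ℂ) 1 = (b' (a' f) : W G → ℂ) 1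
      have e1 : a' (b f) = b (a' f) := congrArg (fun T : Op G => T f) (k4 a' h1)
      rw [h3, e1, k3]
    · rw [← mul_assoc, h4 c hc, mul_assoc, k4 c hc, mul_assoc]
  add_mem' := by
    rintro a b ⟨⟨a', h1, h2, h3⟩, h4⟩ ⟨⟨b', k1, k2, k3⟩, k4⟩
    refine ⟨⟨a' + b', fun s => ?_, ?_, fun f => ?_⟩, fun c hc => ?_⟩
    · rw [add_mul, mul_add, h1, k1]
    · show a dl + b dl = a' dl + b' dl
      rw [h2, k2]
    · show (a f : W G → ℂ) 1 + (b f : W G → ℂ) 1 = (a' f : W G → ℂ) 1 + (b' f : W G → ℂ) 1
      rw [h3, k3]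
    · rw [add_mul, mul_add, h4 c hc, k4 c hc]
  algebraMap_mem' := by
    intro r
    refine ⟨⟨algebraMap ℂ (Op G) r, fun s => Algebra.commutes _ _, rfl, fun f => rfl⟩, fun c hc =>
      (Algebra.commutes _ _).symm⟩

theorem pr_mem (x : V → ℝ) (s : V) : pr (G := G) x s ∈ Gd (G := G) x := by
  refine ⟨⟨pl x s, fun t => (pr_pl x t s).symm, pr_dl x s, fun f => ?_⟩, fun c hc => hc s⟩
  rw [← inner_dl, ← inner_dl, ← inner_pr, ← inner_pl, pr_dl]

/-- the trace -/
noncomputable def Tr (a : Op G) : ℂ := (a dl : W G → ℂ) 1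

theorem Tr_add (a b : Op G) : Tr (a + b) = Tr a + Tr b := rfl

theorem Tr_smul (c : ℂ) (a : Op G) : Tr (c • a) = c * Tr a := rfl

theorem Tr_zero : Tr (0 : Op G) = 0 := rfl

theorem Tr_sum {ι : Type} (s : Finset ι) (f : ι → Op G) : Tr (∑ i ∈ s, f i) = ∑ i ∈ s, Tr (f i) := by
  classical
  induction s using Finset.induction_on with
  | empty => rw [Finset.sum_empty, Finset.sum_empty, Tr_zero]
  | insert i s hi ih => rw [Finset.sum_insert hi, Finset.sum_insert hi, Tr_add, ih]

theorem Tr_mul {x : V → ℝ} {a b : Op G} (ha : a ∈ Gd (G := G) x) (hb : b ∈ Gd (G := G) x) :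
    Tr (a * b) = Tr (b * a) := by
  obtain ⟨⟨a', h1, h2, h3⟩, h4⟩ := ha
  obtain ⟨_, k4⟩ := hb
  have e1 : a' (b dl) = b (a' dl) := congrArg (fun T : Op G => T dl) (k4 a' h1)
  show (a (b dl) : W G → ℂ) 1 = (b (a dl) : W G → ℂ) 1
  rw [h3, e1, h2]

/-! ### the projections of the cliques -/

theorem pr_pair (x : V → ℝ) {T : Finset V} (h : G.IsClique (T : Set V)) :
    (T : Set V).Pairwise (Function.onFun Commute (pr (G := G) x)) :=
  fun s hs t ht hst => pr_comm x s t (h hs ht hst)

open Classical in
/-- the projection of a clique -/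
noncomputable def pT (x : V → ℝ) (T : Finset V) : Op G :=
  if h : G.IsClique (T : Set V) then T.noncommProd (pr x) (pr_pair x h) else 0

theorem pT_neg (x : V → ℝ) {T : Finset V} (h : ¬ G.IsClique (T : Set V)) : pT (G := G) x T = 0 := by
  unfold pT
  rw [dif_neg h]

theorem pT_empty (x : V → ℝ) : pT (G := G) x ∅ = 1 := by
  unfold pT
  rw [dif_pos (by simp)]
  rfl

variable [DecidableEq V]

theorem pT_insert (x : V → ℝ) {s : V} {T : Finset V} (hs : s ∉ T)
    (h : G.IsClique ((insert s T : Finset V) : Set V)) :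
    pT (G := G) x (insert s T) = pr x s * pT x T := by
  classical
  have h' : G.IsClique (T : Set V) := h.subset (by exact_mod_cast Finset.subset_insert s T)
  unfold pT
  rw [dif_pos h, dif_pos h', Finset.noncommProd_insert_of_notMem _ _ _ _ hs]

theorem pT_comm (x : V → ℝ) {s : V} {T : Finset V} (h : ∀ t ∈ T, t ≠ s → G.Adj s t) :
    pr x s * pT (G := G) x T = pT x T * pr x s := by
  classical
  unfold pT
  split_ifs with h1
  · refine Finset.noncommProd_commute T _ _ _ fun t ht => ?_
    by_cases hts : t = s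
    · subst hts
      exact Commute.refl _
    · exact pr_comm x s t (h t ht hts)
  · rw [mul_zero, zero_mul]

theorem cl_ins {s : V} {T : Finset V} (hs : s ∉ T) (h : G.IsClique ((insert s T : Finset V) : Set V)) :
    ∀ t ∈ T, G.Adj s t := fun t ht =>
  h (by simp) (by simp [ht]) (by rintro rfl; exact hs ht)

theorem cl_sub {s : V} {T : Finset V} (h : G.IsClique ((insert s T : Finset V) : Set V)) :
    G.IsClique (T : Set V) := h.subset (by exact_mod_cast Finset.subset_insert s T)

theorem pT_idem {x : V → ℝ} (h0 : ∀ s, 0 ≤ x s) (h1 : ∀ s, x s ≤ 1) (T : Finset V) :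
    pT (G := G) x T * pT x T = pT x T := by
  induction T using Finset.induction_on with
  | empty => rw [pT_empty, mul_one]
  | insert s T hs ih =>
    by_cases h : G.IsClique ((insert s T : Finset V) : Set V)
    · have h2 : pr x s * pT (G := G) x T = pT x T * pr x s := pT_comm x fun t ht _ => cl_ins hs h t ht
      rw [pT_insert x hs h, mul_assoc, ← mul_assoc (pT x T), ← h2, mul_assoc (pr x s) (pT x T), ih, ← mul_assoc,
        pr_idem s (h0 s) (h1 s)]
    · rw [pT_neg x h, mul_zero]

theorem inner_pT (x : V → ℝ) (T : Finset V) : ∀ f g : Hl (W G), ⟪pT x T f, g⟫_ℂ = ⟪f, pT x T g⟫_ℂ := by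
  induction T using Finset.induction_on with
  | empty =>
    intro f g
    rw [pT_empty]
    rfl
  | insert s T hs ih =>
    intro f g
    by_cases h : G.IsClique ((insert s T : Finset V) : Set V)
    · have h2 : pr x s * pT (G := G) x T = pT x T * pr x s := pT_comm x fun t ht _ => cl_ins hs h t ht
      have h3 : pr x s (pT x T f) = pT x T (pr x s f) := congrArg (fun A : Op G => A f) h2
      rw [pT_insert x hs h]
      show ⟪pr x s (pT x T f), g⟫_ℂ = ⟪f, pr x s (pT x T g)⟫_ℂ
      rw [h3, ih, inner_pr]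
    · rw [pT_neg x h]
      show ⟪(0 : Hl (W G)), g⟫_ℂ = ⟪f, (0 : Hl (W G))⟫_ℂ
      rw [inner_zero_left, inner_zero_right]

theorem pT_mem (x : V → ℝ) (T : Finset V) : pT (G := G) x T ∈ Gd (G := G) x := by
  induction T using Finset.induction_on with
  | empty =>
    rw [pT_empty]
    exact one_mem _
  | insert s T hs ih =>
    by_cases h : G.IsClique ((insert s T : Finset V) : Set V)
    · rw [pT_insert x hs h]
      exact mul_mem (pr_mem x s) ih
    · rw [pT_neg x h]
      exact zero_mem _

theorem supp_pT (x : V → ℝ) {s : V} (T : Finset V) (hs : s ∉ T) (w : W G) (hw : th G w s ≠ 1) :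
    (pT x T (dl : Hl (W G)) : W G → ℂ) w = 0 := by
  classical
  induction T using Finset.induction_on generalizing w with
  | empty =>
    rw [pT_empty]
    show (dl : Hl (W G)) w = 0
    rw [dl_apply, if_neg]
    rintro rfl
    apply hw
    rw [map_one]
    rfl
  | insert t T ht ih =>
    by_cases h : G.IsClique ((insert t T : Finset V) : Set V)
    · rw [pT_insert x ht h]
      show (pr x t (pT x T dl) : W G → ℂ) w = 0
      unfold pr
      have hst : s ≠ t := by
        rintro rfl
        exact hs (Finset.mem_insert_self _ _)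
      have hsT : s ∉ T := fun h => hs (Finset.mem_insert_of_mem h)
      rw [pj_apply, ih hsT w hw, ih hsT (rt G t w) (by
        rw [rt_apply]
        rw [th_other G w s t hst]
        exact hw)]
      ring
    · rw [pT_neg x h]
      rfl

theorem Tr_pT (x : V → ℝ) {T : Finset V} (h : G.IsClique (T : Set V)) :
    Tr (pT (G := G) x T) = ((∏ s ∈ T, x s : ℝ) : ℂ) := by
  classical
  induction T using Finset.induction_on with
  | empty =>
    rw [pT_empty, Finset.prod_empty]
    show (dl : Hl (W G)) (1 : W G) = _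
    rw [dl_apply, if_pos rfl]
    simp
  | insert s T hs ih =>
    rw [pT_insert x hs h, Finset.prod_insert hs]
    show (pr x s (pT x T dl) : W G → ℂ) 1 = _
    unfold pr
    have h1 : (1 : W G) ∈ Ra G s := nn_one G _
    have h2 : (pT x T (dl : Hl (W G)) : W G → ℂ) (rt G s 1) = 0 := by
      refine supp_pT x T hs _ ?_
      rw [rt_apply, th_self, map_one, Pi.one_apply]
      decide
    rw [pj_apply, h2, mul_zero, add_zero]
    unfold kp
    rw [if_pos h1]
    have h3 : (pT x T (dl : Hl (W G)) : W G → ℂ) 1 = ((∏ s ∈ T, x s : ℝ) : ℂ) := ih (cl_sub h)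
    rw [h3]
    push_cast
    rfl

theorem pr_cont {α : Type} [TopologicalSpace α] (x : α → V → ℝ) (hx : ∀ s, Continuous fun a => x a s) (s : V) :
    Continuous fun a => pr (G := G) (x a) s := by
  unfold pr pj mm
  have h := hx s
  fun_prop

theorem pT_cont {α : Type} [TopologicalSpace α] (x : α → V → ℝ) (hx : ∀ s, Continuous fun a => x a s)
    (T : Finset V) : Continuous fun a => pT (G := G) (x a) T := by
  induction T using Finset.induction_on with
  | empty =>
    simp only [pT_empty]
    exact continuous_const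
  | insert s T hs ih =>
    by_cases h : G.IsClique ((insert s T : Finset V) : Set V)
    · simp only [pT_insert _ hs h]
      exact (pr_cont x hx s).mul ih
    · simp only [pT_neg _ h]
      exact continuous_const

end Pool.Agent.X250.ZS
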